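import Pool.Agent.T2h11.PHK.Clo

/-!
# The Mumford-Tate conjecture for hyperkähler varieties: definitions
-/

set_option autoImplicit false

namespace Pool.Agent.T2h11.MT

open Module NumberField IsDedekindDomain TensorProduct
open Pool.Agent.W401.Cheb Pool.Agent.N184.HK

section

variable {Ω V : Type} [NormedField Ω] [AddCommGroup V] [Module Ω V]

/-- `g` is the exponential of the endomorphism `A`: for all coefficients `L` of the endomorphisms of
`V`, the series `∑ L (A ^ n) / n!` converges to `L g`. -/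
def IsExp (A g : Module.End Ω V) : Prop :=
  ∀ L : Module.End Ω V →ₗ[Ω] Ω, HasSum (fun n : ℕ => ((n.factorial : ℕ) : Ω)⁻¹ * L (A ^ n)) (L g)

end

section

variable {K V : Type} [Field K] [AddCommGroup V] [Module K V]

/-- The Lie algebra `so(V, q)`. -/
def so (q : LinearMap.BilinForm K V) : Submodule K (Module.End K V) where
  carrier := {A | Skew q A}
  add_mem' {A B} hA hB x y := by
    have h1 := hA x y
    have h2 := hB x y
    simp only [LinearMap.add_apply, map_add, LinearMap.add_apply]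
    linear_combination h1 + h2
  zero_mem' x y := by simp
  smul_mem' r A hA x y := by
    have h1 := hA x y
    simp only [LinearMap.smul_apply, map_smul, LinearMap.smul_apply, smul_eq_mul]
    linear_combination r * h1

end

/-- The smallest `ℚ`-subspace `L` of the `ℚ`-algebra `R` which is closed under commutators and with
`P ∈ ℂ ⊗ L`. If `R` is the endomorphism algebra of a rational Hodge structure `V` of weight `w`, and
the subspace `V^{p,w-p}` of `ℂ ⊗ V` is the eigenspace of `P` for the eigenvalue `p`, for all `p`,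
then this is the Lie algebra of the Mumford-Tate group of `V`. -/
def mtLie {R : Type} [Ring R] [Algebra ℚ R] (P : ℂ ⊗[ℚ] R) : Submodule ℚ R :=
  sInf {L | (∀ A ∈ L, ∀ B ∈ L, A * B - B * A ∈ L) ∧ P ∈ L.baseChange ℂ}

variable {K : Type} [Field K] [NumberField K] {ℓ : ℕ} [Fact ℓ.Prime]

/-- The Betti cohomology of the hyperkähler variety `X` over the number field `K`, for an embedding
of the algebraic closure of `K` in `ℂ`, and known facts on the `ℓ`-adic cohomology.

`comp` is the comparison isomorphism (Artin); it respects the form `q` and the action of `so(H²)`.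
`J` is the semisimple element of `ℂ ⊗ so(H²(X, ℚ))` which gives the Hodge decomposition: it acts on
`H^{p,q}(X)` as `(p - q) / 2`, for all `p` and `q` (Verbitsky).

`semisimple`: the representation of `so(H²)` on `H^i` is completely reducible (Weyl).
`monodromy`: at a place which does not divide `ℓ` an open subgroup of an inertia group acts
through the exponentials of the multiples of the logarithm `N` of the monodromy (Grothendieck).
`sen`: let `u` divide `ℓ`. An inertia group `I` at `u` has a Hodge-Tate operator, which acts on `H^i` as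
`ρ i J + i / 2`, for an element `J` of `so(H²)` (Faltings; it is the grading of the Hodge cohomology,
as for the complex numbers), and the Lie algebra of the image of `I` is the smallest `ℚ_ℓ`-subspace
the scalar extension of which contains the Hodge-Tate operator (Sen). So there is an open subgroup
`U` such that the elements of `I ∩ U` commute with all the endomorphisms of the rational cohomology
which commute with the Hodge-Tate operator. -/
structure Realizations (X : HKVariety K ℂ_[ℓ]) where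
  B : Cohomology ℚ X.d X.c
  comp : ∀ i, (ℂ_[ℓ] ⊗[ℚ] B.H i) ≃ₗ[ℂ_[ℓ]] X.E.X.H i
  form : ∀ x y : B.H 2, X.E.X.q (comp 2 (1 ⊗ₜ x)) (comp 2 (1 ⊗ₜ y)) =
    algebraMap ℚ ℂ_[ℓ] (B.q x y)
  act : ∀ i A x, comp i (1 ⊗ₜ B.ρ i A x) =
    X.E.X.ρ i ((comp 2).conj (A.baseChange ℂ_[ℓ])) (comp i (1 ⊗ₜ x))
  J : ℂ ⊗[ℚ] Module.End ℚ (B.H 2)
  skew : J ∈ (so B.q).baseChange ℂ
  semisimple : ∀ i ≤ X.d, ∀ W : Submodule ℂ_[ℓ] (X.E.X.H i),
    (∀ A, Skew X.E.X.q A → ∀ x ∈ W, X.E.X.ρ i A x ∈ W) →
    ∃ W' : Submodule ℂ_[ℓ] (X.E.X.H i),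
      (∀ A, Skew X.E.X.q A → ∀ x ∈ W', X.E.X.ρ i A x ∈ W') ∧ IsCompl W W'
  monodromy : ∀ u : HeightOneSpectrum (𝓞 K), (ℓ : 𝓞 K) ∉ u.asIdeal →
    ∃ U : Subgroup (GK K), IsOpen (U : Set (GK K)) ∧ ∀ τ ∈ U, IsInert u τ →
      ∃ (L : LocalMonodromy X u) (t : ℂ_[ℓ]), ∀ i ≤ X.d, IsExp (t • L.data.N i) (X.E.Φ τ i)
  sen : ∀ u : HeightOneSpectrum (𝓞 K), (ℓ : 𝓞 K) ∈ u.asIdeal →
    ∃ U : Subgroup (GK K), IsOpen (U : Set (GK K)) ∧ ∀ τ ∈ U, IsInert u τ →
      ∃ J : Module.End ℂ_[ℓ] (X.E.X.H 2), Skew X.E.X.q J ∧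
        ∀ i ≤ X.d, ∀ a : Module.End ℚ (B.H i),
          Commute ((comp i).conj (a.baseChange ℂ_[ℓ]))
            (X.E.X.ρ i J + ((i : ℂ_[ℓ]) / 2) • (1 : Module.End ℂ_[ℓ] (X.E.X.H i))) →
          Commute ((comp i).conj (a.baseChange ℂ_[ℓ])) (X.E.Φ τ i)

variable {X : HKVariety K ℂ_[ℓ]}

/-- The Lie algebra of the image of the Galois group in the automorphisms of the sum of the `H^i(X)`
for `i` in `I`, as an `ℓ`-adic Lie group: the `A` with `exp (ℓ ^ n A)` in the image for all large
`n`. -/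
def lieImage (X : HKVariety K ℂ_[ℓ]) (I : Finset ℕ) :
    Set (∀ i : I, Module.End ℂ_[ℓ] (X.E.X.H i)) :=
  {A | ∃ n₀, ∀ n ≥ n₀, ∃ σ : GK K, ∀ i, IsExp ((ℓ : ℂ_[ℓ]) ^ n • A i) (X.E.Φ σ i)}

/-- The operator on the sum of the `H^i(X)`, for `i` in `I`, which acts as `p` on `H^{p,q}`. -/
noncomputable def Realizations.hodge (D : Realizations X) (I : Finset ℕ) :
    ℂ ⊗[ℚ] (∀ i : I, Module.End ℚ (D.B.H i)) :=
  (LinearMap.pi fun i : I => D.B.ρ i).baseChange ℂ D.J +
    (1 : ℂ) ⊗ₜ (fun i : I => ((i : ℚ) / 2) • (1 : Module.End ℚ (D.B.H i)))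

/-- The scalar extension of an endomorphism of the rational cohomology. -/
noncomputable def Realizations.ext (D : Realizations X) (I : Finset ℕ)
    (A : ∀ i : I, Module.End ℚ (D.B.H i)) : ∀ i : I, Module.End ℂ_[ℓ] (X.E.X.H i) :=
  fun i => (D.comp i).conj ((A i).baseChange ℂ_[ℓ])

/-- The Mumford-Tate conjecture for the sum of the `H^i(X)`, for `i` in `I`: the Lie algebra of the
image of the Galois group is the `ℚ_ℓ`-span of the Lie algebra of the Mumford-Tate group. -/
def Realizations.MumfordTate (D : Realizations X) (I : Finset ℕ) : Prop :=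
  lieImage X I = {A | A ∈ Submodule.span (algebraMap ℚ_[ℓ] ℂ_[ℓ]).range
    (D.ext I '' (mtLie (D.hodge I) : Set (∀ i : I, Module.End ℚ (D.B.H i))))}

/-- The element `σ` of the Galois group acts through the exponential of the action of an element
`A + t` of `so(H²) ⊕ ℚ_ℓ`, which acts on `H^i` as `ρ i A + i t / 2`. -/
def ActsThroughExp (X : HKVariety K ℂ_[ℓ]) (σ : GK K) : Prop :=
  ∃ (A : Module.End ℂ_[ℓ] (X.E.X.H 2)) (t : ℂ_[ℓ]), Skew X.E.X.q A ∧
    ∀ i ≤ X.d, IsExp (X.E.X.ρ i A + ((i : ℂ_[ℓ]) / 2 * t) • (1 : Module.End ℂ_[ℓ] (X.E.X.H i)))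
      (X.E.Φ σ i)

end Pool.Agent.T2h11.MT
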