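import Mathlib

/-!
# HQ (helper31 for helper11): the Herbrand quotient, in the form of an inequality
-/

set_option autoImplicit false

namespace Pool.Agent.T2h11.MT.HQ

section

variable {E : Type*} [CommGroup E] {ι : Type*} [Fintype ι]

/-- `∏_v ∏_{j < n} (s^j ε_v)^(d v j)` -/
def f (s : E →* E) (n : ℕ) (ε : ι → E) (d : ι → ℕ → ℤ) : E :=
  ∏ v, ∏ j ∈ Finset.range n, (s^[j] (ε v)) ^ (d v j)

/-- the iterates as homomorphisms -/
def it (s : E →* E) : ℕ → (E →* E)
  | 0 => MonoidHom.id E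
  | (j + 1) => s.comp (it s j)

theorem it_apply (s : E →* E) (j : ℕ) : ∀ u, it s j u = s^[j] u := by
  induction j with
  | zero => exact fun u => rfl
  | succ j ih =>
    intro u
    rw [Function.iterate_succ_apply', ← ih]
    rfl

/-- the cyclic shift -/
def sf (n : ℕ) (d : ι → ℕ → ℤ) : ι → ℕ → ℤ := fun v j => if j = 0 then d v (n - 1) else d v (j - 1)

theorem f_add (s : E →* E) (n : ℕ) (ε : ι → E) (d e : ι → ℕ → ℤ) :
    f s n ε (d + e) = f s n ε d * f s n ε e := by
  unfold f
  rw [← Finset.prod_mul_distrib]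
  refine Finset.prod_congr rfl fun v _ => ?_
  rw [← Finset.prod_mul_distrib]
  exact Finset.prod_congr rfl fun j _ => zpow_add _ _ _

theorem f_neg (s : E →* E) (n : ℕ) (ε : ι → E) (d : ι → ℕ → ℤ) :
    f s n ε (-d) = (f s n ε d)⁻¹ := by
  unfold f
  rw [← Finset.prod_inv_distrib]
  refine Finset.prod_congr rfl fun v _ => ?_
  rw [← Finset.prod_inv_distrib]
  exact Finset.prod_congr rfl fun j _ => zpow_neg _ _

theorem f_zero (s : E →* E) (n : ℕ) (ε : ι → E) : f s n ε 0 = 1 := by
  unfold f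
  simp

theorem f_sub (s : E →* E) (n : ℕ) (ε : ι → E) (d e : ι → ℕ → ℤ) :
    f s n ε (d - e) = f s n ε d / f s n ε e := by
  rw [sub_eq_add_neg, f_add, f_neg, div_eq_mul_inv]

theorem s_pow (s : E →* E) (j : ℕ) : ∀ u : E, s (s^[j] u) = s^[j + 1] u := fun u =>
  (Function.iterate_succ_apply' _ _ _).symm

theorem s_f (s : E →* E) {n : ℕ} (hn : 0 < n) (hs : ∀ u, s^[n] u = u) (ε : ι → E)
    (d : ι → ℕ → ℤ) : s (f s n ε d) = f s n ε (sf n d) := by
  obtain ⟨m, rfl⟩ : ∃ m, n = m + 1 := ⟨n - 1, (Nat.sub_add_cancel hn).symm⟩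
  unfold f
  rw [map_prod]
  refine Finset.prod_congr rfl fun v _ => ?_
  rw [map_prod, Finset.prod_range_succ, Finset.prod_range_succ']
  congr 1
  · refine Finset.prod_congr rfl fun j _ => ?_
    rw [map_zpow, s_pow]
    simp [sf]
  · rw [map_zpow, s_pow, hs]
    simp [sf]

theorem sum_sf {n : ℕ} (hn : 0 < n) (d : ι → ℕ → ℤ) (v : ι) :
    ∑ j ∈ Finset.range n, sf n d v j = ∑ j ∈ Finset.range n, d v j := by
  obtain ⟨m, rfl⟩ : ∃ m, n = m + 1 := ⟨n - 1, (Nat.sub_add_cancel hn).symm⟩
  rw [Finset.sum_range_succ', Finset.sum_range_succ]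
  simp [sf]

theorem pow_stable (s : E →* E) (S : Subgroup E) (hS : ∀ u ∈ S, s u ∈ S) (j : ℕ) :
    ∀ u ∈ S, s^[j] u ∈ S := by
  induction j with
  | zero => exact fun u hu => hu
  | succ j ih => exact fun u hu => by rw [Function.iterate_succ_apply']; exact hS _ (ih u hu)

theorem pow_mod (s : E →* E) {n : ℕ} (hs : ∀ u, s^[n] u = u) (j : ℕ) (u : E) :
    s^[j] u = s^[j % n] u := by
  conv_lhs => rw [← Nat.mod_add_div j n, Function.iterate_add_apply, Function.iterate_mul]
  have h : (s^[n])^[j / n] u = u := by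
    have h1 : (s^[n]) = id := funext hs
    rw [h1, Function.iterate_id, id]
  rw [h]

theorem mem_closure (s : E →* E) {n : ℕ} (hn : 0 < n) (hs : ∀ u, s^[n] u = u) (ε : ι → E)
    (u : E) (hu : u ∈ Subgroup.closure {u : E | ∃ v j, u = s^[j] (ε v)}) :
    ∃ d : ι → ℕ → ℤ, u = f s n ε d := by
  classical
  induction hu using Subgroup.closure_induction with
  | mem x hx =>
    obtain ⟨v, j, rfl⟩ := hx
    refine ⟨fun w i => if w = v ∧ i = j % n then 1 else 0, ?_⟩
    unfold f
    rw [Finset.prod_eq_single v, Finset.prod_eq_single (j % n)]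
    · simp [pow_mod s hs j]
    · intro i _ hi
      simp [hi]
    · intro h
      exact absurd (Finset.mem_range.2 (Nat.mod_lt _ hn)) h
    · intro w _ hw
      simp [hw]
    · intro h
      exact absurd (Finset.mem_univ _) h
  | one => exact ⟨0, (f_zero s n ε).symm⟩
  | mul x y _ _ hx hy =>
    obtain ⟨d, rfl⟩ := hx
    obtain ⟨e, rfl⟩ := hy
    exact ⟨d + e, (f_add s n ε d e).symm⟩
  | inv x _ hx =>
    obtain ⟨d, rfl⟩ := hx
    exact ⟨-d, (f_neg s n ε d).symm⟩

theorem f_mem (s : E →* E) (n : ℕ) (ε : ι → E) (d : ι → ℕ → ℤ) :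
    f s n ε d ∈ Subgroup.closure {u : E | ∃ v j, u = s^[j] (ε v)} := by
  unfold f
  refine Subgroup.prod_mem _ fun v _ => Subgroup.prod_mem _ fun j _ => ?_
  exact Subgroup.zpow_mem _ (Subgroup.subset_closure
    (show s^[j] (ε v) ∈ {u : E | ∃ v j, u = s^[j] (ε v)} from ⟨v, j, rfl⟩)) _

theorem s_mem (s : E →* E) (ε : ι → E) : ∀ u ∈ Subgroup.closure {u : E | ∃ v j, u = s^[j] (ε v)},
    s u ∈ Subgroup.closure {u : E | ∃ v j, u = s^[j] (ε v)} := by
  intro u hu
  induction hu using Subgroup.closure_induction with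
  | mem x hx =>
    obtain ⟨v, j, rfl⟩ := hx
    exact Subgroup.subset_closure ⟨v, j + 1, s_pow s j _⟩
  | one => rw [map_one]; exact Subgroup.one_mem _
  | mul x y _ _ hx hy => rw [map_mul]; exact Subgroup.mul_mem _ hx hy
  | inv x _ hx => rw [map_inv]; exact Subgroup.inv_mem _ hx

/-- `H.index = [ker : H ∩ ker] [D E : D H]` -/
theorem idx (D : E →* E) (H : Subgroup E) :
    H.index = H.relIndex D.ker * (H.map D).relIndex D.range := by
  have e1 : (H.map D).relIndex D.range = (H ⊔ D.ker).index := by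
    rw [MonoidHom.range_eq_map, Subgroup.relIndex_map_map, top_sup_eq, Subgroup.relIndex_top_right]
  have e2 : H.relIndex (H ⊔ D.ker) = H.relIndex D.ker := by
    exact Subgroup.relIndex_sup_left D.ker H
  rw [e1, ← e2, Subgroup.relIndex_mul_index le_sup_left]

theorem herb (s : E →* E) (n : ℕ) (hn : 0 < n) (hs : ∀ u, s^[n] u = u) (ε : ι → E) (c : ι → ℤ)
    (hc : c ≠ 0) (hidx : (Subgroup.closure {u : E | ∃ v j, u = s^[j] (ε v)}).index ≠ 0)
    (hrel : ∀ d : ι → ℕ → ℤ, (∏ v, ∏ j ∈ Finset.range n, (s^[j] (ε v)) ^ (d v j) = 1 ↔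
      ∃ t : ℤ, ∀ v, ∀ j < n, d v j = t * c v))
    (D N : E →* E) (hD : ∀ u, D u = s u / u) (hN : ∀ u, N u = ∏ j ∈ Finset.range n, s^[j] u) :
    n ∣ D.range.relIndex N.ker := by
  classical
  set H := Subgroup.closure {u : E | ∃ v j, u = s^[j] (ε v)} with hH
  obtain ⟨v₀, hv₀⟩ : ∃ v, c v ≠ 0 := by
    by_contra h
    push Not at h
    exact hc (funext h)
  have hsN : ∀ u, s (N u) = N u := by
    intro u
    rw [hN, map_prod]
    simp only [s_pow]
    have h2 : ∏ i ∈ Finset.range (n + 1), s^[i] u = (∏ i ∈ Finset.range n, s^[i + 1] u) * s^[0] u :=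
      Finset.prod_range_succ' _ _
    rw [Finset.prod_range_succ, hs] at h2
    exact (mul_right_cancel h2).symm
  have hNs : ∀ u, N (s u) = N u := by
    intro u
    rw [← hsN u, hN, hN, map_prod]
    refine Finset.prod_congr rfl fun i _ => ?_
    rw [← Function.iterate_succ_apply, Function.iterate_succ_apply']
  have hNV : N.range ≤ D.ker := by
    rintro _ ⟨u, rfl⟩
    rw [MonoidHom.mem_ker, hD, hsN, div_self']
  have hDR : D.range ≤ N.ker := by
    rintro _ ⟨u, rfl⟩
    rw [MonoidHom.mem_ker, hD, _root_.map_div, hNs, div_self']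
  -- the values of `D`
  have hDf : ∀ d, D (f s n ε d) = f s n ε (sf n d - d) := by
    intro d
    rw [hD, s_f s hn hs, f_sub]
  have hrel' : ∀ d : ι → ℕ → ℤ, f s n ε d = 1 → ∃ t : ℤ, ∀ v, ∀ j < n, d v j = t * c v :=
    fun d h => (hrel d).1 h
  -- the second claim
  have hC2 : H.map N = H ⊓ D.ker := by
    apply le_antisymm
    · rintro _ ⟨u, hu, rfl⟩
      refine ⟨?_, hNV ⟨u, rfl⟩⟩
      show N u ∈ H
      rw [hN]
      exact Subgroup.prod_mem _ fun j _ => pow_stable s H (s_mem s ε) j u hu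
    · rintro u ⟨hu, hu2⟩
      obtain ⟨d, rfl⟩ := mem_closure s hn hs ε u hu
      have h1 : D (f s n ε d) = 1 := hu2
      rw [hDf] at h1
      obtain ⟨t, ht⟩ := hrel' _ h1
      have ht0 : t = 0 := by
        have h2 : ∑ j ∈ Finset.range n, (sf n d - d) v₀ j = ∑ j ∈ Finset.range n, t * c v₀ :=
          Finset.sum_congr rfl fun j hj => ht v₀ j (Finset.mem_range.1 hj)
        simp only [Pi.sub_apply, Finset.sum_sub_distrib, sum_sf hn, sub_self, Finset.sum_const,
          Finset.card_range, nsmul_eq_mul] at h2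
        have h3 : (n : ℤ) ≠ 0 := by exact_mod_cast hn.ne'
        rcases mul_eq_zero.1 h2.symm with h | h
        · exact absurd h h3
        · exact (mul_eq_zero.1 h).resolve_right hv₀
      have hd : ∀ v, ∀ j < n, d v j = d v 0 := by
        intro v j
        induction j with
        | zero => exact fun _ => rfl
        | succ j ih =>
          intro hj
          have h4 := ht v (j + 1) hj
          rw [ht0, zero_mul] at h4
          have h5 : sf n d v (j + 1) = d v j := by simp [sf]
          have h6 : (sf n d - d) v (j + 1) = sf n d v (j + 1) - d v (j + 1) := rfl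
          rw [h6, h5] at h4
          rw [← ih (by omega)]
          omega
      refine ⟨∏ v, ε v ^ (d v 0), ?_, ?_⟩
      · exact Subgroup.prod_mem _ fun v _ => Subgroup.zpow_mem _
          (Subgroup.subset_closure (show ε v ∈ {u : E | ∃ v j, u = s^[j] (ε v)} from ⟨v, 0, rfl⟩)) _
      · rw [hN]
        unfold f
        rw [Finset.prod_comm]
        refine Finset.prod_congr rfl fun j hj => ?_
        rw [← it_apply, map_prod]
        refine Finset.prod_congr rfl fun v _ => ?_
        rw [map_zpow, it_apply, hd v j (Finset.mem_range.1 hj)]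
  -- the first claim
  have hDH : H.map D ≤ H ⊓ N.ker := by
    rintro _ ⟨u, hu, rfl⟩
    refine ⟨?_, hDR ⟨u, rfl⟩⟩
    show D u ∈ H
    rw [hD]
    exact Subgroup.div_mem _ (s_mem s ε u hu) hu
  have hC1 : n ∣ (H.map D).relIndex (H ⊓ N.ker) := by
    set w : E := ∏ v, ε v ^ (c v) with hw
    have hwk : ∀ k : ℕ, w ^ k = f s n ε (fun v j => if j = 0 then (k : ℤ) * c v else 0) := by
      intro k
      unfold f
      rw [hw, ← Finset.prod_pow]
      refine Finset.prod_congr rfl fun v _ => ?_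
      rw [Finset.prod_eq_single 0]
      · show (ε v ^ c v) ^ k = (ε v) ^ (if 0 = 0 then (k : ℤ) * c v else 0)
        rw [if_pos rfl, ← zpow_natCast, ← zpow_mul, mul_comm]
      · intro j _ hj
        show (s^[j] (ε v)) ^ (if j = 0 then (k : ℤ) * c v else 0) = 1
        rw [if_neg hj, zpow_zero]
      · intro h
        exact absurd (Finset.mem_range.2 hn) h
    have hwH : w ∈ H := Subgroup.prod_mem _ fun v _ => Subgroup.zpow_mem _
          (Subgroup.subset_closure (show ε v ∈ {u : E | ∃ v j, u = s^[j] (ε v)} from ⟨v, 0, rfl⟩)) _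
    have hwN : w ∈ N.ker := by
      rw [MonoidHom.mem_ker, hN]
      have h1 := (hrel fun v _ => c v).2 ⟨1, fun v j _ => (one_mul _).symm⟩
      rw [Finset.prod_comm] at h1
      rw [← h1]
      refine Finset.prod_congr rfl fun j _ => ?_
      rw [← it_apply, hw, map_prod]
      refine Finset.prod_congr rfl fun v _ => ?_
      rw [map_zpow, it_apply]
    have hwD : ∀ k : ℕ, w ^ k ∈ H.map D → n ∣ k := by
      rintro k ⟨u, hu, hk⟩
      obtain ⟨d, rfl⟩ := mem_closure s hn hs ε u hu
      rw [hDf, hwk] at hk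
      have h1 : f s n ε ((fun v j => if j = 0 then (k : ℤ) * c v else 0) - (sf n d - d)) = 1 := by
        rw [f_sub, hk, div_self']
      obtain ⟨t, ht⟩ := hrel' _ h1
      have h2 : ∑ j ∈ Finset.range n, ((if j = 0 then (k : ℤ) * c v₀ else 0) -
          (sf n d v₀ j - d v₀ j)) = ∑ j ∈ Finset.range n, t * c v₀ :=
        Finset.sum_congr rfl fun j hj => ht v₀ j (Finset.mem_range.1 hj)
      simp only [Finset.sum_sub_distrib, sum_sf hn, sub_self, Finset.sum_const,
        Finset.card_range, nsmul_eq_mul, sub_zero, Finset.sum_ite_eq', Finset.mem_range, hn,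
        if_true] at h2
      have h3 : (k : ℤ) = n * t := by
        have h4 : ((k : ℤ) - n * t) * c v₀ = 0 := by linear_combination h2
        have h5 := (mul_eq_zero.1 h4).resolve_right hv₀
        linarith
      have h6 : (n : ℤ) ∣ (k : ℤ) := ⟨t, h3⟩
      exact Int.natCast_dvd_natCast.1 h6
    -- the order of `w` in the quotient
    let G : Subgroup E := H ⊓ N.ker
    let w' : G := ⟨w, hwH, hwN⟩
    let K : Subgroup G := (H.map D).subgroupOf G
    have h1 : n ∣ orderOf (QuotientGroup.mk' K w') := by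
      apply hwD
      have h2 : (QuotientGroup.mk' K w') ^ orderOf (QuotientGroup.mk' K w') = 1 :=
        pow_orderOf_eq_one _
      rw [← map_pow, ← MonoidHom.mem_ker, QuotientGroup.ker_mk'] at h2
      exact Subgroup.mem_subgroupOf.1 h2
    have h2 : orderOf (QuotientGroup.mk' K w') ∣ Nat.card (G ⧸ K) := orderOf_dvd_natCard _
    exact h1.trans h2
  have e1 := idx D H
  have e2 := idx N H
  have e3 : (H.map D).relIndex D.range * D.range.relIndex N.ker = (H.map D).relIndex N.ker :=
    Subgroup.relIndex_mul_relIndex _ _ _ (Subgroup.map_le_range D H) hDR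
  have e4 : (H.map D).relIndex (H ⊓ N.ker) * (H ⊓ N.ker).relIndex N.ker =
      (H.map D).relIndex N.ker :=
    Subgroup.relIndex_mul_relIndex _ _ _ hDH inf_le_right
  have e5 : (H.map N).relIndex N.range * N.range.relIndex D.ker = (H.map N).relIndex D.ker :=
    Subgroup.relIndex_mul_relIndex _ _ _ (Subgroup.map_le_range N H) hNV
  rw [hC2] at e5
  rw [Subgroup.inf_relIndex_right] at e4 e5
  set a := (H.map D).relIndex D.range with ha
  set kN := H.relIndex N.ker with hkN
  set kD := H.relIndex D.ker with hkD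
  set A := D.range.relIndex N.ker with hA
  set B := N.range.relIndex D.ker with hB
  set X := (H.map D).relIndex (H ⊓ N.ker) with hX
  rw [hC2] at e2
  set b := (H ⊓ D.ker).relIndex N.range with hb
  have hb0 : b ≠ 0 := fun h => hidx (by rw [e2, h, mul_zero])
  have ha0 : a ≠ 0 := fun h => hidx (by rw [e1, h, mul_zero])
  have h1 : (a * b) * A = (a * b) * (X * B) := by
    calc (a * b) * A = (a * A) * b := by ring
      _ = (X * kN) * b := by rw [e3, e4]
      _ = X * (kN * b) := by ring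
      _ = X * (kD * a) := by rw [← e2, ← e1]
      _ = X * ((b * B) * a) := by rw [e5]
      _ = (a * b) * (X * B) := by ring
  have h2 : A = X * B := Nat.eq_of_mul_eq_mul_left (Nat.pos_of_ne_zero (mul_ne_zero ha0 hb0)) h1
  rw [h2]
  exact hC1.mul_right B

end

theorem core : ∀ (E : Type) [CommGroup E] (s : E →* E) (n : ℕ), 0 < n →
    (∀ u, s^[n] u = u) → ∀ (ι : Type) [Fintype ι] (ε : ι → E) (c : ι → ℤ), c ≠ 0 →
    (Subgroup.closure {u : E | ∃ v j, u = s^[j] (ε v)}).index ≠ 0 →
    (∀ d : ι → ℕ → ℤ, (∏ v, ∏ j ∈ Finset.range n, (s^[j] (ε v)) ^ (d v j) = 1 ↔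
      ∃ t : ℤ, ∀ v, ∀ j < n, d v j = t * c v)) →
    ∀ (C : Type) [CommGroup C] [Finite C] (φ : E → C),
    (∀ u w, ∏ j ∈ Finset.range n, s^[j] u = 1 → ∏ j ∈ Finset.range n, s^[j] w = 1 →
      φ (u * w) = φ u * φ w) →
    (∀ u, ∏ j ∈ Finset.range n, s^[j] u = 1 → φ u = 1 → ∃ e, u * e = s e) →
    n ≤ Nat.card C := by
  intro E _ s n hn hs ι _ ε c hc hidx hrel C _ _ φ hφ hinj
  let D : E →* E := s / MonoidHom.id E
  have hD : ∀ u, D u = s u / u := fun u => rfl
  let N : E →* E := ∏ j ∈ Finset.range n, it s j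
  have hN : ∀ u, N u = ∏ j ∈ Finset.range n, s^[j] u := by
    intro u
    show (∏ j ∈ Finset.range n, it s j : E →* E) u = _
    rw [MonoidHom.finsetProd_apply]
    exact Finset.prod_congr rfl fun j _ => it_apply s j u
  have hdvd := herb s n hn hs ε c hc hidx hrel D N hD hN
  -- the hom on the kernel
  let ψ : N.ker →* C := MonoidHom.mk' (fun u => φ u) (by
    intro u w
    exact hφ u w ((hN u).symm.trans u.2) ((hN w).symm.trans w.2))
  have hker : ψ.ker ≤ D.range.subgroupOf N.ker := by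
    intro u hu
    obtain ⟨e, he⟩ := hinj u ((hN u).symm.trans u.2) hu
    rw [Subgroup.mem_subgroupOf]
    refine ⟨e, ?_⟩
    rw [hD, ← he, mul_div_cancel_right]
  have h1 : D.range.relIndex N.ker ∣ ψ.ker.index := Subgroup.index_dvd_of_le hker
  have h2 : ψ.ker.index = Nat.card ψ.range := Subgroup.index_ker ψ
  have h3 : Nat.card ψ.range ≤ Nat.card C := Subgroup.card_le_card_group ψ.range
  have h4 : 0 < Nat.card ψ.range := Nat.card_pos
  rw [h2] at h1
  exact (Nat.le_of_dvd h4 (hdvd.trans h1)).trans h3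

end Pool.Agent.T2h11.MT.HQ
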