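import Pool.Agent.T2h11.MT.Stm

/-!
# The Mumford-Tate conjecture for hyperkähler varieties: lemmas on small endomorphisms
-/

set_option autoImplicit false

namespace Pool.Agent.T2h11.MT

open Module

section

variable {Ω V : Type} [NormedField Ω] [AddCommGroup V] [Module Ω V]

/-- Linear forms separate the endomorphisms. -/
lemma end_ext {A B : Module.End Ω V} (h : ∀ L : Module.End Ω V →ₗ[Ω] Ω, L A = L B) : A = B :=
  sub_eq_zero.1 ((Module.forall_dual_apply_eq_zero_iff Ω (A - B)).1 fun L => by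
    rw [map_sub]
    exact sub_eq_zero.2 (h L))

lemma IsExp.unique {A g h : Module.End Ω V} (hg : IsExp A g) (hh : IsExp A h) : g = h :=
  end_ext fun L => (hg L).unique (hh L)

lemma isExp_zero : IsExp (0 : Module.End Ω V) 1 := by
  intro L
  have h : (fun n : ℕ => ((n.factorial : ℕ) : Ω)⁻¹ * L ((0 : Module.End Ω V) ^ n)) =
      fun n => if n = 0 then L 1 else 0 := by
    funext n
    rcases n with _ | n
    · simp
    · simp
  rw [h]
  exact hasSum_ite_eq 0 (L 1)

lemma IsExp.comm {A g a : Module.End Ω V} (hg : IsExp A g) (ha : Commute a A) : Commute a g := by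
  refine end_ext fun L => ?_
  have h1 := hg (L ∘ₗ LinearMap.mulLeft Ω a)
  have h2 := hg (L ∘ₗ LinearMap.mulRight Ω a)
  have h3 : (fun n : ℕ => ((n.factorial : ℕ) : Ω)⁻¹ * (L ∘ₗ LinearMap.mulLeft Ω a) (A ^ n)) =
      fun n => ((n.factorial : ℕ) : Ω)⁻¹ * (L ∘ₗ LinearMap.mulRight Ω a) (A ^ n) := by
    funext n
    congr 1
    change L (a * A ^ n) = L (A ^ n * a)
    rw [(ha.pow_right n).eq]
  rw [h3] at h1
  exact h1.unique h2

/-- The exponential on the image of an idempotent. -/
lemma IsExp.idem {A g z : Module.End Ω V} (hg : IsExp A g) (ha : Commute A z) (hz : z * z = z) :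
    IsExp (A * z) (g * z + (1 - z)) := by
  intro L
  have h1 := hg (L ∘ₗ LinearMap.mulRight Ω z)
  have h2 : HasSum (fun n : ℕ => if n = 0 then L (1 - z) else 0) (L (1 - z)) :=
    hasSum_ite_eq 0 (L (1 - z))
  have h3 := h1.add h2
  have h4 : ∀ n : ℕ, (A * z) ^ (n + 1) = A ^ (n + 1) * z := by
    intro n
    rw [ha.mul_pow]
    congr 1
    induction n with
    | zero => rw [zero_add, pow_one]
    | succ n ih => rw [pow_succ, ih, hz]
  have h5 : (fun n : ℕ => ((n.factorial : ℕ) : Ω)⁻¹ * L ((A * z) ^ n)) =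
      fun n => ((n.factorial : ℕ) : Ω)⁻¹ * (L ∘ₗ LinearMap.mulRight Ω z) (A ^ n) +
        (if n = 0 then L (1 - z) else 0) := by
    funext n
    rcases n with _ | n
    · simp
    · rw [h4]
      simp
  rw [h5, map_add]
  exact h3

end

section

variable {Ω V W : Type} [NormedField Ω] [AddCommGroup V] [Module Ω V] [FiniteDimensional Ω V]
  [AddCommGroup W] [Module Ω W] [FiniteDimensional Ω W]

lemma Small.mono {ε ε' : ℝ} {A : Module.End Ω V} (h : Small ε A) (he : ε ≤ ε') : Small ε' A :=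
  fun i j => (h i j).trans he

lemma Small.add [IsUltrametricDist Ω] {ε : ℝ} {A B : Module.End Ω V} (hA : Small ε A)
    (hB : Small ε B) : Small ε (A + B) := by
  intro i j
  rw [map_add, Matrix.add_apply]
  exact (IsUltrametricDist.norm_add_le_max _ _).trans (max_le (hA i j) (hB i j))

lemma Small.neg {ε : ℝ} {A : Module.End Ω V} (hA : Small ε A) : Small ε (-A) := by
  intro i j
  rw [map_neg, Matrix.neg_apply, norm_neg]
  exact hA i j

lemma Small.smul {ε γ : ℝ} {A : Module.End Ω V} (hA : Small ε A) {c : Ω} (hc : ‖c‖ ≤ γ) :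
    Small (γ * ε) (c • A) := by
  intro i j
  rw [map_smul, Matrix.smul_apply, smul_eq_mul, norm_mul]
  exact mul_le_mul hc (hA i j) (norm_nonneg _) ((norm_nonneg _).trans hc)

lemma small_one : Small 1 (1 : Module.End Ω V) := by
  intro i j
  rw [LinearMap.toMatrix_one, Matrix.one_apply]
  split_ifs
  · rw [norm_one]
  · rw [norm_zero]; exact zero_le_one

lemma Small.mul [IsUltrametricDist Ω] {ε δ : ℝ} (hε : 0 ≤ ε) (hδ : 0 ≤ δ) {A B : Module.End Ω V}
    (hA : Small ε A) (hB : Small δ B) : Small (ε * δ) (A * B) := by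
  intro i j
  rw [LinearMap.toMatrix_mul, Matrix.mul_apply]
  refine IsUltrametricDist.norm_sum_le_of_forall_le_of_nonneg (mul_nonneg hε hδ) fun k _ => ?_
  rw [norm_mul]
  exact mul_le_mul (hA i k) (hB k j) (norm_nonneg _) hε

/-- A linear map between spaces of endomorphisms is bounded. -/
lemma small_lin [IsUltrametricDist Ω] (T : Module.End Ω V →ₗ[Ω] Module.End Ω W) :
    ∃ C : ℝ, 0 < C ∧ ∀ (ε : ℝ) (A : Module.End Ω V), 0 ≤ ε → Small ε A → Small (C * ε) (T A) := by
  set b := finBasis Ω V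
  set b' := finBasis Ω W
  let m : Fin (finrank Ω V) → Fin (finrank Ω V) → Fin (finrank Ω W) → Fin (finrank Ω W) → ℝ :=
    fun j k p q => ‖LinearMap.toMatrix b' b' (T ((LinearMap.toMatrix b b).symm
      (Matrix.single j k 1))) p q‖
  refine ⟨1 + ∑ j, ∑ k, ∑ p, ∑ q, m j k p q, ?_, fun ε A hε hA p q => ?_⟩
  · have : 0 ≤ ∑ j, ∑ k, ∑ p, ∑ q, m j k p q :=
      Finset.sum_nonneg fun _ _ => Finset.sum_nonneg fun _ _ => Finset.sum_nonneg fun _ _ =>
        Finset.sum_nonneg fun _ _ => norm_nonneg _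
    linarith
  have hm0 : ∀ j k p q, 0 ≤ m j k p q := fun j k p q => norm_nonneg _
  have hm : ∀ j k, m j k p q ≤ 1 + ∑ j, ∑ k, ∑ p, ∑ q, m j k p q := by
    intro j k
    have h1 : m j k p q ≤ ∑ q, m j k p q :=
      Finset.single_le_sum (f := fun q => m j k p q) (fun _ _ => hm0 _ _ _ _) (Finset.mem_univ q)
    have h2 : ∑ q, m j k p q ≤ ∑ p, ∑ q, m j k p q :=
      Finset.single_le_sum (f := fun p => ∑ q, m j k p q)
        (fun _ _ => Finset.sum_nonneg fun _ _ => hm0 _ _ _ _) (Finset.mem_univ p)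
    have h3 : ∑ p, ∑ q, m j k p q ≤ ∑ k, ∑ p, ∑ q, m j k p q :=
      Finset.single_le_sum (f := fun k => ∑ p, ∑ q, m j k p q)
        (fun _ _ => Finset.sum_nonneg fun _ _ => Finset.sum_nonneg fun _ _ => hm0 _ _ _ _)
        (Finset.mem_univ k)
    have h4 : ∑ k, ∑ p, ∑ q, m j k p q ≤ ∑ j, ∑ k, ∑ p, ∑ q, m j k p q :=
      Finset.single_le_sum (f := fun j => ∑ k, ∑ p, ∑ q, m j k p q)
        (fun _ _ => Finset.sum_nonneg fun _ _ => Finset.sum_nonneg fun _ _ =>
          Finset.sum_nonneg fun _ _ => hm0 _ _ _ _) (Finset.mem_univ j)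
    linarith
  have hexp : A = ∑ j, ∑ k, LinearMap.toMatrix b b A j k •
      (LinearMap.toMatrix b b).symm (Matrix.single j k 1) := by
    apply (LinearMap.toMatrix b b).injective
    rw [map_sum]
    conv_lhs => rw [Matrix.matrix_eq_sum_single (LinearMap.toMatrix b b A)]
    refine Finset.sum_congr rfl fun j _ => ?_
    rw [map_sum]
    refine Finset.sum_congr rfl fun k _ => ?_
    rw [map_smul, LinearEquiv.apply_symm_apply, Matrix.smul_single, smul_eq_mul, mul_one]
  have h5 : LinearMap.toMatrix b' b' (T A) p q = ∑ j, ∑ k, LinearMap.toMatrix b b A j k *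
      LinearMap.toMatrix b' b' (T ((LinearMap.toMatrix b b).symm (Matrix.single j k 1))) p q := by
    conv_lhs => rw [hexp]
    rw [map_sum, map_sum, Matrix.sum_apply]
    refine Finset.sum_congr rfl fun j _ => ?_
    rw [map_sum, map_sum, Matrix.sum_apply]
    refine Finset.sum_congr rfl fun k _ => ?_
    rw [map_smul, map_smul, Matrix.smul_apply, smul_eq_mul]
  have hpos : 0 ≤ (1 + ∑ j, ∑ k, ∑ p, ∑ q, m j k p q) * ε := by
    refine mul_nonneg ?_ hε
    have : 0 ≤ ∑ j, ∑ k, ∑ p, ∑ q, m j k p q :=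
      Finset.sum_nonneg fun _ _ => Finset.sum_nonneg fun _ _ => Finset.sum_nonneg fun _ _ =>
        Finset.sum_nonneg fun _ _ => norm_nonneg _
    linarith
  change ‖LinearMap.toMatrix b' b' (T A) p q‖ ≤ _
  rw [h5]
  refine IsUltrametricDist.norm_sum_le_of_forall_le_of_nonneg hpos fun j _ => ?_
  refine IsUltrametricDist.norm_sum_le_of_forall_le_of_nonneg hpos fun k _ => ?_
  rw [norm_mul, mul_comm]
  exact mul_le_mul (hm j k) (hA j k) (norm_nonneg _) ((hm0 j k p q).trans (hm j k))

/-- The eigenvalues of a small endomorphism are small. -/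
lemma Small.eig [IsUltrametricDist Ω] {ε : ℝ} {A : Module.End Ω V} (hA : Small ε A) {x : Ω}
    (hx : A.HasEigenvalue x) : ‖x‖ ≤ ε := by
  obtain ⟨v, hv⟩ := hx.exists_hasEigenvector
  set b := finBasis Ω V with hb
  have hv1 : A v = x • v := hv.apply_eq_smul
  have hv0 : v ≠ 0 := hv.2
  have hne : (Finset.univ : Finset (Fin (finrank Ω V))).Nonempty := by
    by_contra h
    rw [Finset.not_nonempty_iff_eq_empty] at h
    apply hv0
    apply b.repr.injective
    rw [map_zero]
    ext j
    exact absurd (Finset.mem_univ j) (by rw [h]; exact Finset.notMem_empty j)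
  obtain ⟨j, -, hj⟩ := Finset.exists_max_image Finset.univ (fun j => ‖b.repr v j‖) hne
  have hj0 : 0 < ‖b.repr v j‖ := by
    rw [norm_pos_iff]
    intro h0
    apply hv0
    apply b.repr.injective
    rw [map_zero]
    ext k
    have := hj k (Finset.mem_univ k)
    rw [h0, norm_zero] at this
    exact norm_le_zero_iff.1 this
  have hε : 0 ≤ ε := (norm_nonneg _).trans (hA j j)
  have h1 : b.repr (A v) j = ∑ k, LinearMap.toMatrix b b A j k * b.repr v k := by
    have := LinearMap.toMatrix_mulVec_repr b b A v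
    have h2 := congrFun this j
    rw [← h2]
    rfl
  have h2 : ‖x * b.repr v j‖ ≤ ε * ‖b.repr v j‖ := by
    have h3 : b.repr (A v) j = x * b.repr v j := by
      rw [hv1, map_smul]; rfl
    rw [← h3, h1]
    refine IsUltrametricDist.norm_sum_le_of_forall_le_of_nonneg (mul_nonneg hε hj0.le)
      fun k _ => ?_
    rw [norm_mul]
    exact mul_le_mul (hA j k) (hj k (Finset.mem_univ k)) (norm_nonneg _) hε
  rw [norm_mul] at h2
  exact le_of_mul_le_mul_right h2 hj0

end

section

variable {Ω : Type} [NormedField Ω]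

lemma SExp.unique {x y y' : Ω} (h : SExp x y) (h' : SExp x y') : y = y' := HasSum.unique h h'

lemma sExp_zero : SExp (0 : Ω) 1 := by
  have h : (fun n : ℕ => ((n.factorial : ℕ) : Ω)⁻¹ * (0 : Ω) ^ n) =
      fun n => if n = 0 then 1 else 0 := by
    funext n
    rcases n with _ | n
    · simp
    · simp
  rw [SExp, h]
  exact hasSum_ite_eq 0 1

lemma norm_nat_le [IsUltrametricDist Ω] (n : ℕ) : ‖(n : Ω)‖ ≤ 1 :=
  IsUltrametricDist.norm_natCast_le_one Ω n

end

end Pool.Agent.T2h11.MT
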