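import Pool.Agent.T2h11.MT.Stm
import Pool.Agent.T2h11.MT.Sm

/-!
# Lemmas for the tasks ACT and LIE
-/

set_option autoImplicit false

namespace Pool.Agent.T2h11.MT

open Module NumberField IsDedekindDomain TensorProduct Filter Topology
open Pool.Agent.W401.Cheb Pool.Agent.N184.HK

section

variable {Ω V : Type} [NormedField Ω] [AddCommGroup V] [Module Ω V] [FiniteDimensional Ω V]

/-- A matrix coefficient. -/
noncomputable def ent (i j : Fin (finrank Ω V)) : Module.End Ω V →ₗ[Ω] Ω where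
  toFun A := LinearMap.toMatrix (finBasis Ω V) (finBasis Ω V) A i j
  map_add' A B := by rw [map_add, Matrix.add_apply]
  map_smul' c A := by rw [map_smul, Matrix.smul_apply, RingHom.id_apply]

lemma small_iff {ε : ℝ} {A : Module.End Ω V} : Small ε A ↔ ∀ i j, ‖ent i j A‖ ≤ ε := Iff.rfl

lemma ent_ext {A B : Module.End Ω V} (h : ∀ i j, ent i j A = ent i j B) : A = B := by
  apply (LinearMap.toMatrix (finBasis Ω V) (finBasis Ω V)).injective
  ext i j
  exact h i j

/-- The coefficients of a continuous family are small near a point where it is `1`. -/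
lemma small_nhds {Γ : Type} [TopologicalSpace Γ] {g : Γ → Module.End Ω V} (hg : Cts g) {x : Γ}
    (hx : g x = 1) {δ : ℝ} (hδ : 0 < δ) : ∀ᶠ σ in 𝓝 x, Small δ (g σ - 1) := by
  have h : ∀ i j : Fin (finrank Ω V), ∀ᶠ σ in 𝓝 x, ‖ent i j (g σ - 1)‖ ≤ δ := by
    intro i j
    have h1 : Continuous fun σ => ‖ent i j (g σ - 1)‖ := by
      have h2 : (fun σ => ‖ent i j (g σ - 1)‖) =
          fun σ => ‖ent i j (g σ) - ent i j (1 : Module.End Ω V)‖ := by
        funext σ
        rw [map_sub]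
      rw [h2]
      exact ((hg _).sub continuous_const).norm
    have h3 : ‖ent i j (g x - 1)‖ < δ := by
      rw [hx, sub_self, map_zero, norm_zero]
      exact hδ
    exact ((h1.tendsto x).eventually (gt_mem_nhds h3)).mono fun σ hσ => hσ.le
  have h2 := (eventually_all.2 fun i => eventually_all.2 (h i))
  exact h2

/-- Every endomorphism is bounded. -/
lemma exists_small (A : Module.End Ω V) : ∃ C : ℝ, 0 < C ∧ Small C A := by
  refine ⟨1 + ∑ i, ∑ j, ‖ent i j A‖, ?_, fun i j => ?_⟩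
  · have : 0 ≤ ∑ i, ∑ j, ‖ent i j A‖ :=
      Finset.sum_nonneg fun _ _ => Finset.sum_nonneg fun _ _ => norm_nonneg _
    linarith
  · have h1 : ‖ent i j A‖ ≤ ∑ j, ‖ent i j A‖ :=
      Finset.single_le_sum (f := fun j => ‖ent i j A‖) (fun _ _ => norm_nonneg _)
        (Finset.mem_univ j)
    have h2 : ∑ j, ‖ent i j A‖ ≤ ∑ i, ∑ j, ‖ent i j A‖ :=
      Finset.single_le_sum (f := fun i => ∑ j, ‖ent i j A‖)
        (fun _ _ => Finset.sum_nonneg fun _ _ => norm_nonneg _) (Finset.mem_univ i)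
    change ‖ent i j A‖ ≤ _
    linarith

end

section

variable {ℓ : ℕ} [Fact ℓ.Prime]

lemma norm_l_lt : ‖(ℓ : ℂ_[ℓ])‖ < 1 := by
  have h := PadicComplex.norm_extends' (p := ℓ) (ℓ : ℚ_[ℓ])
  have h2 : (((ℓ : ℚ_[ℓ]) : PadicAlgCl ℓ) : ℂ_[ℓ]) = (ℓ : ℂ_[ℓ]) := by
    rw [← PadicComplex.coe_natCast]
    congr 1
  rw [h2] at h
  rw [h]
  exact Padic.norm_p_lt_one

lemma l_ne : (ℓ : ℂ_[ℓ]) ≠ 0 := Nat.cast_ne_zero.2 (Fact.out : ℓ.Prime).ne_zero

variable {V : Type} [AddCommGroup V] [Module ℂ_[ℓ] V] [FiniteDimensional ℂ_[ℓ] V]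

/-- The endomorphisms `ℓ ^ n A` are small for large `n`. -/
lemma small_pow (A : Module.End ℂ_[ℓ] V) {δ : ℝ} (hδ : 0 < δ) :
    ∀ᶠ n : ℕ in atTop, Small δ ((ℓ : ℂ_[ℓ]) ^ n • A) := by
  obtain ⟨C, hC, hA⟩ := exists_small A
  have h1 : Tendsto (fun n : ℕ => ‖(ℓ : ℂ_[ℓ])‖ ^ n * C) atTop (𝓝 (0 * C)) :=
    (tendsto_pow_atTop_nhds_zero_of_lt_one (norm_nonneg _) norm_l_lt).mul_const C
  rw [zero_mul] at h1
  refine (h1.eventually (gt_mem_nhds hδ)).mono fun n hn => ?_
  exact (hA.smul (norm_pow_le (ℓ : ℂ_[ℓ]) n)).mono hn.le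

/-- The exponential of a multiple. -/
lemma isExp_nsmul {r : ℝ} (hadd : ∀ A B g h : Module.End ℂ_[ℓ] V, Small r A → Small r B →
    Commute A B → IsExp A g → IsExp B h → IsExp (A + B) (g * h)) {A g : Module.End ℂ_[ℓ] V}
    (hA : Small r A) (hg : IsExp A g) (k : ℕ) : IsExp ((k : ℂ_[ℓ]) • A) (g ^ k) := by
  induction k with
  | zero =>
    rw [Nat.cast_zero, zero_smul, pow_zero]
    exact isExp_zero
  | succ k ih =>
    have h1 : Small r ((k : ℂ_[ℓ]) • A) := by
      have := hA.smul (norm_nat_le (Ω := ℂ_[ℓ]) k)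
      rwa [one_mul] at this
    have h2 := hadd _ _ _ _ h1 hA ((Commute.refl A).smul_left _) ih hg
    rw [Nat.cast_succ, add_smul, one_smul, pow_succ]
    exact h2

end

section

variable {K : Type} [Field K] [NumberField K] {Ω : Type} [NormedField Ω] {d : ℕ} {c : ℚ}
  (E : GaloisCohomology K Ω d c)

lemma Phi_one (i : ℕ) : E.Φ 1 i = 1 := by
  have h := E.mul 1 1 i
  rw [one_mul] at h
  refine LinearMap.ext fun x => ?_
  have h2 := congrArg (fun f => f x) h
  exact ((E.F 1).φ i).injective h2.symm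

lemma Phi_mul (σ τ : GK K) (i : ℕ) : E.Φ (σ * τ) i = E.Φ σ i * E.Φ τ i := by
  change en ((E.F (σ * τ)).φ i) = _
  rw [E.mul σ τ i]
  rfl

lemma Phi_pow (σ : GK K) (i k : ℕ) : E.Φ (σ ^ k) i = E.Φ σ i ^ k := by
  induction k with
  | zero => rw [pow_zero, pow_zero, Phi_one]
  | succ k ih => rw [pow_succ, pow_succ, Phi_mul, ih]

/-- The form `q` does not vanish. -/
lemma q_ne {Ω : Type} [Field Ω] {d : ℕ} {c : ℚ} (Y : Cohomology Ω d c) : ∃ x y, Y.q x y ≠ 0 := by
  by_contra h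
  push Not at h
  have h3 := Y.dim3
  have hsub : Subsingleton (Y.H 2) := by
    refine ⟨fun x y => ?_⟩
    apply (Y.q.toDual Y.nondeg).injective
    ext z
    change Y.q x z = Y.q y z
    rw [h, h]
  have h4 := finrank_zero_of_subsingleton (R := Ω) (M := Y.H 2)
  omega

lemma mu_one : E.mu 1 = 1 := by
  obtain ⟨x, y, hxy⟩ := q_ne E.X
  have h := (E.F 1).similar x y
  have h1 : (E.F 1).φ 2 x = x := LinearMap.congr_fun (Phi_one E 2) x
  have h2 : (E.F 1).φ 2 y = y := LinearMap.congr_fun (Phi_one E 2) y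
  rw [h1, h2] at h
  change (E.F 1).μ = 1
  have h3 : ((E.F 1).μ - 1) * E.X.q x y = 0 := by
    rw [sub_mul, one_mul, ← h, sub_self]
  rcases mul_eq_zero.1 h3 with h4 | h4
  · exact sub_eq_zero.1 h4
  · exact absurd h4 hxy

/-- A skew scalar endomorphism vanishes. -/
lemma skew_scalar {Ω : Type} [Field Ω] [CharZero Ω] {d : ℕ} {c : ℚ} (Y : Cohomology Ω d c) {x : Ω}
    (h : Skew Y.q (x • (1 : Module.End Ω (Y.H 2)))) : x = 0 := by
  obtain ⟨v, w, hvw⟩ := q_ne Y
  have h1 := h v w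
  rw [LinearMap.smul_apply, LinearMap.smul_apply, map_smul, map_smul, LinearMap.smul_apply,
    smul_eq_mul, smul_eq_mul] at h1
  change x * Y.q v w + x * Y.q v w = 0 at h1
  have h2 : 2 * (x * Y.q v w) = 0 := by rw [two_mul]; exact h1
  rcases mul_eq_zero.1 h2 with h3 | h3
  · exact absurd h3 two_ne_zero
  · rcases mul_eq_zero.1 h3 with h4 | h4
    · exact h4
    · exact absurd h4 hvw

omit [NumberField K] in
/-- A neighbourhood of `1` in the Galois group contains an open subgroup. -/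
lemma exists_open {s : Set (GK K)} (hs : s ∈ 𝓝 (1 : GK K)) :
    ∃ U : Subgroup (GK K), IsOpen (U : Set (GK K)) ∧ (U : Set (GK K)) ⊆ s := by
  obtain ⟨F, hF, hFs⟩ := (krullTopology_mem_nhds_one_iff K (AlgebraicClosure K) s).1 hs
  have : FiniteDimensional K F := hF
  exact ⟨F.fixingSubgroup, F.fixingSubgroup_isOpen, hFs⟩

/-- Elements of the Galois group which act through small endomorphisms can be changed into
elements of an open subgroup. -/
lemma near_lift (U : Subgroup (GK K)) (hU : IsOpen (U : Set (GK K))) (I : Finset ℕ) :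
    ∃ δ : ℝ, 0 < δ ∧ ∀ σ : GK K, (∀ i ∈ I, Small δ (E.Φ σ i - 1)) →
      ∃ τ ∈ U, ∀ i ∈ I, E.Φ τ i = E.Φ σ i := by
  classical
  set F : GK K → ℝ := fun σ => ∑ i ∈ I, ∑ j, ∑ k, ‖ent j k (E.Φ σ i - 1)‖ with hF
  have hFc : Continuous F := by
    refine continuous_finsetSum _ fun i _ => continuous_finsetSum _ fun j _ =>
      continuous_finsetSum _ fun k _ => ?_
    have h2 : (fun σ => ‖ent j k (E.Φ σ i - 1)‖) =
        fun σ => ‖ent j k (E.Φ σ i) - ent j k (1 : Module.End Ω (E.X.H i))‖ := by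
      funext σ
      rw [map_sub]
    rw [h2]
    exact ((E.cont i _).sub continuous_const).norm
  set O : Set (GK K) := {σ | ∃ h : GK K, (∀ i ∈ I, E.Φ h i = 1) ∧ h⁻¹ * σ ∈ U} with hO
  have hOo : IsOpen O := by
    have : O = ⋃ h ∈ {h : GK K | ∀ i ∈ I, E.Φ h i = 1}, (fun σ => h⁻¹ * σ) ⁻¹' (U : Set (GK K)) := by
      ext σ
      simp [hO]
    rw [this]
    exact isOpen_biUnion fun h _ => hU.preimage (continuous_const_mul _)
  have hOl : ∀ σ ∈ O, ∃ τ ∈ U, ∀ i ∈ I, E.Φ τ i = E.Φ σ i := by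
    rintro σ ⟨h, hh, hσ⟩
    refine ⟨h⁻¹ * σ, hσ, fun i hi => ?_⟩
    have h1 : E.Φ σ i = E.Φ h i * E.Φ (h⁻¹ * σ) i := by
      rw [← Phi_mul, mul_inv_cancel_left]
    rw [h1, hh i hi, one_mul]
  rcases Set.eq_empty_or_nonempty Oᶜ with hemp | hne
  · refine ⟨1, one_pos, fun σ _ => hOl σ ?_⟩
    by_contra h
    exact Set.notMem_empty σ (hemp ▸ h)
  · have hcomp : IsCompact Oᶜ := hOo.isClosed_compl.isCompact
    obtain ⟨σ0, hσ0, hmin⟩ := hcomp.exists_isMinOn hne hFc.continuousOn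
    have hpos : 0 < F σ0 := by
      have h0 : 0 ≤ F σ0 := Finset.sum_nonneg fun _ _ => Finset.sum_nonneg fun _ _ =>
        Finset.sum_nonneg fun _ _ => norm_nonneg _
      refine lt_of_le_of_ne h0 fun h => hσ0 ⟨σ0, fun i hi => ?_, ?_⟩
      · refine ent_ext fun j k => ?_
        have h1 := (Finset.sum_eq_zero_iff_of_nonneg (fun _ _ => Finset.sum_nonneg fun _ _ =>
          Finset.sum_nonneg fun _ _ => norm_nonneg _)).1 h.symm i hi
        have h2 := (Finset.sum_eq_zero_iff_of_nonneg (fun _ _ => 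
          Finset.sum_nonneg fun _ _ => norm_nonneg _)).1 h1 j (Finset.mem_univ j)
        have h3 := (Finset.sum_eq_zero_iff_of_nonneg (fun _ _ => norm_nonneg _)).1 h2 k
          (Finset.mem_univ k)
        rw [norm_eq_zero, map_sub, sub_eq_zero] at h3
        exact h3
      · rw [inv_mul_cancel]
        exact U.one_mem
    set N : ℝ := ∑ i ∈ I, ∑ _j : Fin (finrank Ω (E.X.H i)),
      ∑ _k : Fin (finrank Ω (E.X.H i)), (1 : ℝ) with hN
    have hN0 : 0 ≤ N := Finset.sum_nonneg fun _ _ => Finset.sum_nonneg fun _ _ =>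
        Finset.sum_nonneg fun _ _ => zero_le_one
    refine ⟨F σ0 / (N + 1), div_pos hpos (by linarith), fun σ hσ => hOl σ ?_⟩
    by_contra hc
    have h1 : F σ0 ≤ F σ := hmin hc
    have h2 : F σ ≤ N * (F σ0 / (N + 1)) := by
      rw [hN, Finset.sum_mul]
      refine Finset.sum_le_sum fun i hi => ?_
      rw [Finset.sum_mul]
      refine Finset.sum_le_sum fun j _ => ?_
      rw [Finset.sum_mul]
      refine Finset.sum_le_sum fun k _ => ?_
      rw [one_mul]
      exact hσ i hi j k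
    have h3 : N * (F σ0 / (N + 1)) < F σ0 := by
      rw [mul_div_assoc', div_lt_iff₀ (by linarith)]
      nlinarith
    linarith

end

end Pool.Agent.T2h11.MT
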