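import Pool.Agent.T2h11.MT.Defs

/-!
# The Mumford-Tate conjecture for hyperkähler varieties: statements of the tasks
-/

set_option autoImplicit false

namespace Pool.Agent.T2h11.MT

open Module NumberField IsDedekindDomain TensorProduct
open Pool.Agent.W401.Cheb Pool.Agent.N184.HK

/-! ## Part A: class groups -/

/-- HQ: the Herbrand quotient, in the form of an inequality. -/
def S_HQ : Prop := ∀ (E : Type) [CommGroup E] (s : E →* E) (n : ℕ), 0 < n →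
  (∀ u, s^[n] u = u) → ∀ (ι : Type) [Fintype ι] (ε : ι → E) (c : ι → ℤ), c ≠ 0 →
  (Subgroup.closure {u : E | ∃ v j, u = s^[j] (ε v)}).index ≠ 0 →
  (∀ d : ι → ℕ → ℤ, (∏ v, ∏ j ∈ Finset.range n, (s^[j] (ε v)) ^ (d v j) = 1 ↔
    ∃ t : ℤ, ∀ v, ∀ j < n, d v j = t * c v)) →
  ∀ (C : Type) [CommGroup C] [Finite C] (φ : E → C),
  (∀ u w, ∏ j ∈ Finset.range n, s^[j] u = 1 → ∏ j ∈ Finset.range n, s^[j] w = 1 →
    φ (u * w) = φ u * φ w) →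
  (∀ u, ∏ j ∈ Finset.range n, s^[j] u = 1 → φ u = 1 → ∃ e, u * e = s e) →
  n ≤ Nat.card C

/-- UNI: Herbrand's theorem on the units of a cyclic extension `L` of a totally complex field. -/
def S_UNI : Prop := ∀ (F L : Type) [Field F] [NumberField F] [IsTotallyComplex F] [Field L]
  [NumberField L] [Algebra F L] [IsGalois F L] (σ : Gal(L/F)),
  (∀ τ : Gal(L/F), τ ∈ Subgroup.zpowers σ) → ∀ s : (𝓞 L)ˣ →* (𝓞 L)ˣ,
  (∀ u : (𝓞 L)ˣ, (((s u : (𝓞 L)ˣ) : 𝓞 L) : L) = σ ((u : 𝓞 L) : L)) →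
  ∃ (ι : Type) (_ : Fintype ι) (ε : ι → (𝓞 L)ˣ) (c : ι → ℤ), c ≠ 0 ∧
    (Subgroup.closure {u : (𝓞 L)ˣ | ∃ v j, u = s^[j] (ε v)}).index ≠ 0 ∧
    ∀ d : ι → ℕ → ℤ, (∏ v, ∏ j ∈ Finset.range (finrank F L), (s^[j] (ε v)) ^ (d v j) = 1 ↔
      ∃ t : ℤ, ∀ v, ∀ j < finrank F L, d v j = t * c v)

/-- CAP: in an unramified cyclic extension, the first cohomology of the units is contained in the
class group of the base field. -/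
def S_CAP : Prop := ∀ (F L : Type) [Field F] [NumberField F] [Field L]
  [NumberField L] [Algebra F L] [IsGalois F L] (σ : Gal(L/F)),
  (∀ τ : Gal(L/F), τ ∈ Subgroup.zpowers σ) →
  (∀ P : Ideal (𝓞 L), P.IsMaximal → ∀ τ : Gal(L/F), (∀ x : 𝓞 L, τ • x - x ∈ P) → τ = 1) →
  ∃ φ : (𝓞 L)ˣ → ClassGroup (𝓞 F),
    (∀ u w : (𝓞 L)ˣ, Algebra.norm F ((u : 𝓞 L) : L) = 1 → Algebra.norm F ((w : 𝓞 L) : L) = 1 →
      φ (u * w) = φ u * φ w) ∧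
    ∀ u : (𝓞 L)ˣ, Algebra.norm F ((u : 𝓞 L) : L) = 1 → φ u = 1 →
      ∃ e : (𝓞 L)ˣ, ((u : 𝓞 L) : L) * ((e : 𝓞 L) : L) = σ ((e : 𝓞 L) : L)

/-- BND: the degree of an unramified cyclic extension is at most the class number. -/
def S_BND : Prop := ∀ (F L : Type) [Field F] [NumberField F] [IsTotallyComplex F] [Field L]
  [NumberField L] [Algebra F L] [IsGalois F L] (σ : Gal(L/F)),
  (∀ τ : Gal(L/F), τ ∈ Subgroup.zpowers σ) →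
  (∀ P : Ideal (𝓞 L), P.IsMaximal → ∀ τ : Gal(L/F), (∀ x : 𝓞 L, τ • x - x ∈ P) → τ = 1) →
  finrank F L ≤ Nat.card (ClassGroup (𝓞 F))

/-- INS: elements of the inertia group of a finite extension lift to inertia groups of the
algebraic closure. -/
def S_INS : Prop := ∀ (F A : Type) [Field F] [NumberField F] [Field A] [Algebra F A]
  [IsAlgClosure F A] (L : IntermediateField F A) [FiniteDimensional F L] [IsGalois F L]
  (P : Ideal (𝓞 L)), P.IsMaximal → ∀ τ : Gal(L/F), (∀ x : 𝓞 L, τ • x - x ∈ P) →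
  ∃ σ : Gal(A/F), (∀ x : L, σ (x : A) = ((τ x : L) : A)) ∧
    ∃ Q : Ideal (𝓞 A), Q.IsMaximal ∧ ∀ x : 𝓞 A, σ • x - x ∈ Q

/-- CHR: a compact group with a nonzero additive character with values in `ℂ_ℓ` has finite cyclic
quotients of arbitrarily large order. -/
def S_CHR : Prop := ∀ (G : Type) [Group G] [TopologicalSpace G] [IsTopologicalGroup G]
  [CompactSpace G] (ℓ : ℕ) [Fact ℓ.Prime] (a : G → ℂ_[ℓ]), Continuous a →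
  (∀ σ τ, a (σ * τ) = a σ + a τ) → (∃ σ, a σ ≠ 0) →
  ∀ N : ℕ, ∃ H : Subgroup G, H.Normal ∧ IsOpen (H : Set G) ∧ (∀ σ, a σ = 0 → σ ∈ H) ∧
    (∃ g : G, ∀ x : G, ∃ k : ℤ, (g ^ k)⁻¹ * x ∈ H) ∧ H.index ≠ 0 ∧ N < H.index

/-- UNF: an additive character of the absolute Galois group of a totally complex number field which
is unramified everywhere vanishes. -/
def S_UNF : Prop := ∀ (F A : Type) [Field F] [NumberField F] [IsTotallyComplex F] [Field A]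
  [Algebra F A] [IsAlgClosure F A] (ℓ : ℕ) [Fact ℓ.Prime] (a : Gal(A/F) → ℂ_[ℓ]), Continuous a →
  (∀ σ τ, a (σ * τ) = a σ + a τ) →
  (∀ Q : Ideal (𝓞 A), Q.IsMaximal → ∀ σ : Gal(A/F), (∀ x : 𝓞 A, σ • x - x ∈ Q) → a σ = 0) →
  ∀ σ, a σ = 0

/-- UNR: an additive character of an open subgroup of the absolute Galois group of a number field
which vanishes on the inertia groups vanishes. -/
def S_UNR : Prop := ∀ (K : Type) [Field K] [NumberField K] (ℓ : ℕ) [Fact ℓ.Prime]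
  (U : Subgroup (GK K)), IsOpen (U : Set (GK K)) → ∀ a : GK K → ℂ_[ℓ],
  ContinuousOn a (U : Set (GK K)) → (∀ σ ∈ U, ∀ τ ∈ U, a (σ * τ) = a σ + a τ) →
  (∀ (v : HeightOneSpectrum (𝓞 K)) (σ : GK K), σ ∈ U → IsInert v σ → a σ = 0) →
  ∀ σ ∈ U, a σ = 0

/-! ## Part B: the action on the commutant -/

/-- UNP: a quasi-unipotent continuous representation is unipotent on an open subgroup. -/
def S_UNP : Prop := ∀ (K V : Type) [Field K] (ℓ : ℕ) [Fact ℓ.Prime] [AddCommGroup V]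
  [Module ℂ_[ℓ] V] [FiniteDimensional ℂ_[ℓ] V] (g : GK K → Module.End ℂ_[ℓ] V), Cts g →
  g 1 = 1 → ∀ M m : ℕ, 0 < M → (∀ σ, ((g σ) ^ M - 1) ^ m = 0) →
  ∃ U : Subgroup (GK K), IsOpen (U : Set (GK K)) ∧ ∀ σ ∈ U, IsNilpotent (g σ - 1)

/-- KOL: a nontrivial unipotent representation has a nontrivial additive character. -/
def S_KOL : Prop := ∀ (Ω V G : Type) [Field Ω] [CharZero Ω] [IsAlgClosed Ω] [AddCommGroup V]
  [Module Ω V] [FiniteDimensional Ω V] [Group G] (U : Subgroup G) (g : G → Module.End Ω V),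
  (∀ σ ∈ U, ∀ τ ∈ U, g (σ * τ) = g σ * g τ) → (∀ σ ∈ U, IsNilpotent (g σ - 1)) →
  (∃ σ ∈ U, g σ ≠ 1) → ∃ L : Module.End Ω V →ₗ[Ω] Ω,
  (∀ σ ∈ U, ∀ τ ∈ U, L (g (σ * τ) - 1) = L (g σ - 1) + L (g τ - 1)) ∧
    ∃ σ ∈ U, L (g σ - 1) ≠ 0

/-- RAT: the commutant of `so(H²)` has a rational basis. -/
def S_RAT : Prop := ∀ (K : Type) [Field K] [NumberField K] (ℓ : ℕ) [Fact ℓ.Prime]
  (X : HKVariety K ℂ_[ℓ]) (D : Realizations X) (i : ℕ),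
  cen X.E.X i ≤ Submodule.span ℂ_[ℓ]
    {a | ∃ b ∈ cen D.B i, a = (D.comp i).conj (LinearMap.baseChange ℂ_[ℓ] b)}

/-- INR: an open subgroup of each inertia group acts trivially on the commutant. -/
def S_INR : Prop := ∀ (K : Type) [Field K] [NumberField K] (ℓ : ℕ) [Fact ℓ.Prime]
  (X : HKVariety K ℂ_[ℓ]) (_ : Realizations X) (u : HeightOneSpectrum (𝓞 K)),
  ∃ U : Subgroup (GK K), IsOpen (U : Set (GK K)) ∧ ∀ τ ∈ U, IsInert u τ →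
    ∀ i ≤ X.d, ∀ a ∈ cen X.E.X i, Commute a (X.E.Φ τ i)

/-- TRV: an open subgroup acts trivially on the commutant. -/
def S_TRV : Prop := ∀ (K : Type) [Field K] [NumberField K] (ℓ : ℕ) [Fact ℓ.Prime]
  (X : HKVariety K ℂ_[ℓ]) (_ : Realizations X),
  ∃ U : Subgroup (GK K), IsOpen (U : Set (GK K)) ∧ ∀ τ ∈ U,
    ∀ i ≤ X.d, ∀ a ∈ cen X.E.X i, Commute a (X.E.Φ τ i)

/-! ## Part C: exponentials -/

/-- The coefficients of the matrix of `A` have absolute value at most `ε`. -/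
def Small {Ω V : Type} [NormedField Ω] [AddCommGroup V] [Module Ω V] [FiniteDimensional Ω V]
    (ε : ℝ) (A : Module.End Ω V) : Prop :=
  ∀ i j, ‖LinearMap.toMatrix (finBasis Ω V) (finBasis Ω V) A i j‖ ≤ ε

/-- `y` is the exponential of `x`. -/
def SExp {Ω : Type} [NormedField Ω] (x y : Ω) : Prop :=
  HasSum (fun n : ℕ => ((n.factorial : ℕ) : Ω)⁻¹ * x ^ n) y

/-- EXP: the exponential of endomorphisms. -/
def S_EXP : Prop := ∀ (ℓ : ℕ) [Fact ℓ.Prime] (V : Type) [AddCommGroup V] [Module ℂ_[ℓ] V]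
  [FiniteDimensional ℂ_[ℓ] V], ∃ r : ℝ, 0 < r ∧
  (∀ A : Module.End ℂ_[ℓ] V, Small r A → ∃ g, IsExp A g) ∧
  (∀ A B g h : Module.End ℂ_[ℓ] V, Small r A → Small r B → Commute A B → IsExp A g → IsExp B h →
    IsExp (A + B) (g * h)) ∧
  (∀ A B g : Module.End ℂ_[ℓ] V, Small r A → Small r B → IsExp A g → IsExp B g → A = B) ∧
  (∀ ε > (0 : ℝ), ∃ δ > (0 : ℝ), ∀ g : Module.End ℂ_[ℓ] V, Small δ (g - 1) →
    ∃ A, Small ε A ∧ IsExp A g) ∧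
  (∀ ε > (0 : ℝ), ∃ δ > (0 : ℝ), ∀ A g : Module.End ℂ_[ℓ] V, Small δ A → IsExp A g →
    Small ε (g - 1))

/-- SXP: the exponential of numbers. -/
def S_SXP : Prop := ∀ (ℓ : ℕ) [Fact ℓ.Prime], ∃ r : ℝ, 0 < r ∧
  (∀ x : ℂ_[ℓ], ‖x‖ ≤ r → ∃ y, SExp x y ∧ y ≠ 0) ∧
  (∀ x y x' y' : ℂ_[ℓ], ‖x‖ ≤ r → ‖x'‖ ≤ r → SExp x y → SExp x' y' → SExp (x + x') (y * y')) ∧
  (∀ x x' y : ℂ_[ℓ], ‖x‖ ≤ r → ‖x'‖ ≤ r → SExp x y → SExp x' y → x = x') ∧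
  (∀ ε > (0 : ℝ), ∃ δ > (0 : ℝ), ∀ y : ℂ_[ℓ], ‖y - 1‖ ≤ δ → ∃ x, ‖x‖ ≤ ε ∧ SExp x y)

/-- DET: the determinant of the exponential. -/
def S_DET : Prop := ∀ (ℓ : ℕ) [Fact ℓ.Prime] (V : Type) [AddCommGroup V] [Module ℂ_[ℓ] V]
  [FiniteDimensional ℂ_[ℓ] V], ∃ r : ℝ, 0 < r ∧
  ∀ A g : Module.End ℂ_[ℓ] V, Small r A → IsExp A g →
    SExp (LinearMap.trace ℂ_[ℓ] V A) (LinearMap.det g)

/-- SIM: the logarithm of a similitude. -/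
def S_SIM : Prop := ∀ (ℓ : ℕ) [Fact ℓ.Prime] (V : Type) [AddCommGroup V] [Module ℂ_[ℓ] V]
  [FiniteDimensional ℂ_[ℓ] V] (q : LinearMap.BilinForm ℂ_[ℓ] V), q.IsSymm → q.Nondegenerate →
  ∀ ε > (0 : ℝ), ∃ δ > (0 : ℝ), ∀ (f : V ≃ₗ[ℂ_[ℓ]] V) (μ : ℂ_[ℓ]), Similar q f μ →
  Small δ (en f - 1) → ‖μ - 1‖ ≤ δ → ∃ (A : Module.End ℂ_[ℓ] V) (t : ℂ_[ℓ]), Skew q A ∧
    Small ε A ∧ ‖t‖ ≤ ε ∧ IsExp (A + t • (1 : Module.End ℂ_[ℓ] V)) (en f) ∧ SExp (2 * t) μ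

/-- CNJ: the exponential of the action of `so(H²)` and conjugation. -/
def S_CNJ : Prop := ∀ (ℓ : ℕ) [Fact ℓ.Prime] (d : ℕ) (c : ℚ) (Y : Cohomology ℂ_[ℓ] d c) (i : ℕ),
  ∃ r : ℝ, 0 < r ∧ ∀ (f : Y.H 2 ≃ₗ[ℂ_[ℓ]] Y.H 2) (A : Module.End ℂ_[ℓ] (Y.H 2)) (t s : ℂ_[ℓ])
    (g : Module.End ℂ_[ℓ] (Y.H i)), Skew Y.q A → Small r A → ‖t‖ ≤ r → ‖s‖ ≤ r →
    IsExp (A + t • (1 : Module.End ℂ_[ℓ] (Y.H 2))) (en f) →
    IsExp (Y.ρ i A + s • (1 : Module.End ℂ_[ℓ] (Y.H i))) g →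
    ∀ B, Skew Y.q B →
      g * Y.ρ i B = Y.ρ i (f.toLinearMap ∘ₗ B ∘ₗ f.symm.toLinearMap) * g

/-- ONE: an element close to one which acts trivially on the commutant acts through the
exponential. -/
def S_ONE : Prop := ∀ (K : Type) [Field K] [NumberField K] (ℓ : ℕ) [Fact ℓ.Prime]
  (X : HKVariety K ℂ_[ℓ]) (_ : Realizations X) (i : ℕ), i ≤ X.d → ∃ ε : ℝ, 0 < ε ∧
  ∀ (σ : GK K) (A : Module.End ℂ_[ℓ] (X.E.X.H 2)) (t : ℂ_[ℓ]), Skew X.E.X.q A → Small ε A →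
  ‖t‖ ≤ ε → Small ε (X.E.Φ σ i - 1) →
  IsExp (A + t • (1 : Module.End ℂ_[ℓ] (X.E.X.H 2))) (X.E.Φ σ 2) → SExp (2 * t) (X.E.mu σ) →
  (∀ a ∈ cen X.E.X i, Commute a (X.E.Φ σ i)) →
  IsExp (X.E.X.ρ i A + ((i : ℂ_[ℓ]) / 2 * t) • (1 : Module.End ℂ_[ℓ] (X.E.X.H i))) (X.E.Φ σ i)

/-- ACT: an open subgroup acts through the exponential. -/
def S_ACT : Prop := ∀ (K : Type) [Field K] [NumberField K] (ℓ : ℕ) [Fact ℓ.Prime]
  (X : HKVariety K ℂ_[ℓ]) (_ : Realizations X), ∀ ε > (0 : ℝ),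
  ∃ U : Subgroup (GK K), IsOpen (U : Set (GK K)) ∧ ∀ σ ∈ U,
  ∃ (A : Module.End ℂ_[ℓ] (X.E.X.H 2)) (t : ℂ_[ℓ]), Skew X.E.X.q A ∧ Small ε A ∧ ‖t‖ ≤ ε ∧
    ∀ i ≤ X.d, IsExp (X.E.X.ρ i A + ((i : ℂ_[ℓ]) / 2 * t) •
      (1 : Module.End ℂ_[ℓ] (X.E.X.H i))) (X.E.Φ σ i)

/-! ## Part D: Lie algebras -/

/-- The action of the element `A + t` of `so(H²) ⊕ K` on the sum of the `H^i` for `i` in `I`. -/
def RR {K : Type} [Field K] {d : ℕ} {c : ℚ} (Y : Cohomology K d c) (I : Finset ℕ)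
    (A : Module.End K (Y.H 2)) (t : K) : ∀ i : I, Module.End K (Y.H i) :=
  fun i => Y.ρ i A + ((i : K) / 2 * t) • (1 : Module.End K (Y.H i))

/-- LIE: the Lie algebra of the image of the Galois group. -/
def S_LIE : Prop := ∀ (K : Type) [Field K] [NumberField K] (ℓ : ℕ) [Fact ℓ.Prime]
  (X : HKVariety K ℂ_[ℓ]) (_ : Realizations X) (I : Finset ℕ), (∀ i ∈ I, i ≤ X.d) →
  ∀ Z : ∀ i : I, Module.End ℂ_[ℓ] (X.E.X.H i), Z ∈ lieImage X I ↔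
    ∃ (A : Module.End ℂ_[ℓ] (X.E.X.H 2)) (t : ℂ_[ℓ]), Skew X.E.X.q A ∧
      RR X.E.X {2} A t ∈ lieImage X {2} ∧ Z = RR X.E.X I A t

/-- MTL: the Lie algebra of the Mumford-Tate group. -/
def S_MTL : Prop := ∀ (K : Type) [Field K] [NumberField K] (ℓ : ℕ) [Fact ℓ.Prime]
  (X : HKVariety K ℂ_[ℓ]) (D : Realizations X) (I : Finset ℕ)
  (Z : ∀ i : I, Module.End ℚ (D.B.H i)), Z ∈ mtLie (D.hodge I) ↔
    ∃ (A : Module.End ℚ (D.B.H 2)) (t : ℚ), Skew D.B.q A ∧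
      RR D.B {2} A t ∈ mtLie (D.hodge {2}) ∧ Z = RR D.B I A t

/-- FIN: the conclusion. -/
def S_FIN : Prop := ∀ (K : Type) [Field K] [NumberField K] (ℓ : ℕ) [Fact ℓ.Prime]
  (X : HKVariety K ℂ_[ℓ]) (D : Realizations X) (I : Finset ℕ), (∀ i ∈ I, i ≤ X.d) →
  D.MumfordTate {2} → D.MumfordTate I

end Pool.Agent.T2h11.MT
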