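import Pool.Agent.T2h11.MT.Stm
import Pool.Agent.T2h11.MT.SmC

set_option autoImplicit false

namespace Pool.Agent.T2h11.MT.ACT

open Module NumberField IsDedekindDomain TensorProduct Filter Topology
open Pool.Agent.W401.Cheb Pool.Agent.N184.HK

theorem t_ACT (hT : S_TRV) (hS : S_SIM) (hO : S_ONE) : S_ACT := by
  classical
  intro K _ _ ℓ _ X D ε hε
  have hone : ∀ i : ℕ, ∃ e : ℝ, 0 < e ∧ (i ≤ X.d → 
      ∀ (σ : GK K) (A : Module.End ℂ_[ℓ] (X.E.X.H 2)) (t : ℂ_[ℓ]), Skew X.E.X.q A → Small e A →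
      ‖t‖ ≤ e → Small e (X.E.Φ σ i - 1) →
      IsExp (A + t • (1 : Module.End ℂ_[ℓ] (X.E.X.H 2))) (X.E.Φ σ 2) → SExp (2 * t) (X.E.mu σ) →
      (∀ a ∈ cen X.E.X i, Commute a (X.E.Φ σ i)) →
      IsExp (X.E.X.ρ i A + ((i : ℂ_[ℓ]) / 2 * t) • (1 : Module.End ℂ_[ℓ] (X.E.X.H i)))
        (X.E.Φ σ i)) := by
    intro i
    by_cases hi : i ≤ X.d
    · obtain ⟨e, he, h⟩ := hO K ℓ X D i hi
      exact ⟨e, he, fun _ => h⟩
    · exact ⟨1, one_pos, fun h => absurd h hi⟩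
  choose e he hone using hone
  obtain ⟨η, hη, hηε, hηe⟩ : ∃ η : ℝ, 0 < η ∧ η ≤ ε ∧ ∀ i ≤ X.d, η ≤ e i := by
    have hne : (Finset.range (X.d + 1)).Nonempty := ⟨0, Finset.mem_range.2 (Nat.succ_pos _)⟩
    refine ⟨min ε ((Finset.range (X.d + 1)).inf' hne e), lt_min hε ?_, min_le_left _ _,
      fun i hi => (min_le_right _ _).trans ?_⟩
    · rw [Finset.lt_inf'_iff]
      exact fun i _ => he i
    · exact Finset.inf'_le _ (Finset.mem_range.2 (Nat.lt_succ_of_le hi))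
  obtain ⟨δ, hδ, hsim⟩ := hS ℓ (X.E.X.H 2) X.E.X.q X.E.X.symm X.E.X.nondeg η hη
  obtain ⟨U0, hU0, hU0c⟩ := hT K ℓ X D
  have hn1 : ∀ᶠ σ in 𝓝 (1 : GK K), ∀ i ∈ Finset.range (X.d + 1),
      Small (min δ η) (X.E.Φ σ i - 1) :=
    (Finset.eventually_all _).2 fun i _ =>
      small_nhds (g := fun σ => X.E.Φ σ i) (X.E.cont i) (Phi_one X.E i) (lt_min hδ hη)
  have hn2 : ∀ᶠ σ in 𝓝 (1 : GK K), ‖X.E.mu σ - 1‖ ≤ δ := by
    have h1 : Continuous fun σ => ‖X.E.mu σ - 1‖ := (X.E.cont_μ.sub continuous_const).norm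
    have h2 : ‖X.E.mu 1 - 1‖ < δ := by
      rw [mu_one, sub_self, norm_zero]
      exact hδ
    exact ((h1.tendsto 1).eventually (gt_mem_nhds h2)).mono fun σ hσ => hσ.le
  obtain ⟨U1, hU1, hU1s⟩ := exists_open (hn1.and hn2)
  refine ⟨U1 ⊓ U0, hU1.inter hU0, fun σ hσ => ?_⟩
  obtain ⟨h1, h2⟩ := hU1s hσ.1
  have h2d : 2 ∈ Finset.range (X.d + 1) := Finset.mem_range.2 (Nat.lt_succ_of_le X.two_le)
  obtain ⟨A, t, hA, hAs, ht, hexp, hmu⟩ := hsim ((X.E.F σ).φ 2) (X.E.mu σ) (X.E.F σ).similar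
    ((h1 2 h2d).mono (min_le_left _ _)) h2
  refine ⟨A, t, hA, hAs.mono hηε, ht.trans hηε, fun i hi => ?_⟩
  exact hone i hi σ A t hA (hAs.mono (hηe i hi)) (ht.trans (hηe i hi))
    ((h1 i (Finset.mem_range.2 (Nat.lt_succ_of_le hi))).mono ((min_le_right _ _).trans (hηe i hi)))
    hexp hmu (hU0c σ hσ.2 i hi)

end Pool.Agent.T2h11.MT.ACT
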