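import Pool.Agent.T2h11.MT.Stm

set_option autoImplicit false

namespace Pool.Agent.T2h11.MT.BND

open Module NumberField Pool.Agent.T2h11.MT

theorem t_BND (hQ : S_HQ) (hU : S_UNI) (hC : S_CAP) : S_BND := by
  classical
  intro F L _ _ _ _ _ _ _ σ hσ H
  have hfin : FiniteDimensional F L := Module.Finite.of_restrictScalars_finite ℚ F L
  have hord : orderOf σ = finrank F L := by
    rw [orderOf_eq_card_of_forall_mem_zpowers hσ, IsGalois.card_aut_eq_finrank]
  let s : (𝓞 L)ˣ →* (𝓞 L)ˣ := Units.map (RingOfIntegers.mapRingHom (σ : L →+* L)).toMonoidHom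
  have hs : ∀ u : (𝓞 L)ˣ, (((s u : (𝓞 L)ˣ) : 𝓞 L) : L) = σ ((u : 𝓞 L) : L) := fun u => rfl
  have hsiter : ∀ (k : ℕ) (x : (𝓞 L)ˣ),
      (((s^[k] x : (𝓞 L)ˣ) : 𝓞 L) : L) = (σ ^ k) ((x : 𝓞 L) : L) := by
    intro k
    induction k with
    | zero => intro x; simp
    | succ k ih =>
      intro x
      rw [Function.iterate_succ_apply', hs, ih, pow_succ', AlgEquiv.mul_apply]
  have hsn : ∀ x : (𝓞 L)ˣ, s^[finrank F L] x = x := by
    intro x
    apply Units.ext
    apply RingOfIntegers.ext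
    rw [hsiter, ← hord, pow_orderOf_eq_one]
    rfl
  have hnorm : ∀ u : (𝓞 L)ˣ, ∏ j ∈ Finset.range (finrank F L), s^[j] u = 1 →
      Algebra.norm F ((u : 𝓞 L) : L) = 1 := by
    intro u hu
    have h1 : (((∏ j ∈ Finset.range (finrank F L), s^[j] u : (𝓞 L)ˣ) : 𝓞 L) : L) = 1 := by
      rw [hu]; simp
    have h2 : (((∏ j ∈ Finset.range (finrank F L), s^[j] u : (𝓞 L)ˣ) : 𝓞 L) : L) =
        ∏ j ∈ Finset.range (finrank F L), (σ ^ j) ((u : 𝓞 L) : L) := by
      rw [Units.coe_prod]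
      change algebraMap (𝓞 L) L _ = _
      rw [map_prod]
      exact Finset.prod_congr rfl (fun j _ => hsiter j u)
    have h3 : algebraMap F L (Algebra.norm F ((u : 𝓞 L) : L)) =
        ∏ j ∈ Finset.range (finrank F L), (σ ^ j) ((u : 𝓞 L) : L) := by
      rw [Algebra.norm_eq_prod_automorphisms]
      symm
      rw [← hord]
      apply Finset.prod_bij (fun j _ => σ ^ j)
      · intro j _
        exact Finset.mem_univ _
      · intro i hi j hj h
        exact pow_injOn_Iio_orderOf (by simpa using hi) (by simpa using hj) h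
      · intro τ _
        have h1 : τ ∈ Submonoid.powers σ := mem_powers_iff_mem_zpowers.mpr (hσ τ)
        rw [mem_powers_iff_mem_range_orderOf, Finset.mem_image] at h1
        obtain ⟨j, hj, hj'⟩ := h1
        exact ⟨j, hj, hj'⟩
      · intro j _
        rfl
    rw [← h2, h1] at h3
    exact (algebraMap F L).injective (by rw [h3, map_one])
  obtain ⟨ι, _, ε, c, hc, hidx, hrel⟩ := hU F L σ hσ s hs
  obtain ⟨φ, hφm, hφk⟩ := hC F L σ hσ H
  refine hQ (𝓞 L)ˣ s (finrank F L) finrank_pos hsn ι ε c hc hidx hrel (ClassGroup (𝓞 F)) φ ?_ ?_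
  · intro u w hu hw
    exact hφm u w (hnorm u hu) (hnorm w hw)
  · intro u hu h1
    obtain ⟨e, he⟩ := hφk u (hnorm u hu) h1
    refine ⟨e, ?_⟩
    apply Units.ext
    apply RingOfIntegers.ext
    rw [hs, ← he]
    simp

end Pool.Agent.T2h11.MT.BND
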