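import Pool.Agent.T2h11.MT.Stm

set_option autoImplicit false

namespace Pool.Agent.T2h11.MT.CAP

open Module NumberField Pool.Agent.T2h11.MT
open scoped Pointwise nonZeroDivisors

section

variable {F L : Type} [Field F] [NumberField F] [Field L] [NumberField L] [Algebra F L]
  [IsGalois F L]

omit [NumberField F] [NumberField L] [IsGalois F L] in
theorem smul_coe (τ : Gal(L/F)) (x : 𝓞 L) : ((τ • x : 𝓞 L) : L) = τ (x : L) := rfl

theorem ram_one
    (H : ∀ P : Ideal (𝓞 L), P.IsMaximal → ∀ τ : Gal(L/F), (∀ x : 𝓞 L, τ • x - x ∈ P) → τ = 1)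
    (p : Ideal (𝓞 F)) [p.IsMaximal] (P : Ideal (𝓞 L)) [P.IsMaximal] [P.LiesOver p] :
    P.ramificationIdx (𝓞 F) = 1 := by
  have h1 : Nat.card (P.inertia Gal(L/F)) = 1 := by
    have : P.inertia Gal(L/F) = ⊥ := by
      rw [eq_bot_iff]
      intro τ hτ
      exact H P inferInstance τ hτ
    rw [this]
    exact Subgroup.card_bot
  rw [← Ideal.ramificationIdxIn_eq_ramificationIdx p P Gal(L/F),
    ← Ideal.card_inertia_eq_ramificationIdxIn (G := Gal(L/F)) p P, h1]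

theorem smul_map (τ : Gal(L/F)) (J : Ideal (𝓞 F)) :
    τ • (J.map (algebraMap (𝓞 F) (𝓞 L))) = J.map (algebraMap (𝓞 F) (𝓞 L)) := by
  rw [Ideal.pointwise_smul_def, Ideal.map_map]
  congr 1
  ext x
  simp

omit [NumberField F] [NumberField L] [IsGalois F L] in
theorem smul_mul (τ : Gal(L/F)) (A B : Ideal (𝓞 L)) : τ • (A * B) = (τ • A) * (τ • B) := by
  rw [Ideal.pointwise_smul_def, Ideal.pointwise_smul_def, Ideal.pointwise_smul_def, Ideal.map_mul]

theorem dvd_aux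
    (H : ∀ P : Ideal (𝓞 L), P.IsMaximal → ∀ τ : Gal(L/F), (∀ x : 𝓞 L, τ • x - x ∈ P) → τ = 1)
    (I : Ideal (𝓞 L)) (hI : I ≠ ⊥) (hst : ∀ τ : Gal(L/F), τ • I = I)
    (P : Ideal (𝓞 L)) (hP : P.IsMaximal) (hle : I ≤ P) :
    (P.under (𝓞 F)).map (algebraMap (𝓞 F) (𝓞 L)) ∣ I := by
  classical
  have hp : (P.under (𝓞 F)).IsMaximal := inferInstance
  have hpne : P.under (𝓞 F) ≠ ⊥ := Ring.ne_bot_of_isMaximal_of_not_isField hp (RingOfIntegers.not_isField F)
  have hmap : (P.under (𝓞 F)).map (algebraMap (𝓞 F) (𝓞 L)) ≠ ⊥ := by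
    intro h
    rw [Ideal.map_eq_bot_iff_of_injective (FaithfulSMul.algebraMap_injective (𝓞 F) (𝓞 L))] at h
    exact hpne h
  rw [UniqueFactorizationMonoid.dvd_iff_normalizedFactors_le_normalizedFactors hmap hI,
    Multiset.le_iff_count]
  intro Q
  by_cases hQ : Q ∈ UniqueFactorizationMonoid.normalizedFactors
      ((P.under (𝓞 F)).map (algebraMap (𝓞 F) (𝓞 L)))
  · have hQ' := (Ideal.mem_primesOver_iff_mem_normalizedFactors (𝓞 L) hpne).mpr hQ
    obtain ⟨hQp, hQo⟩ := hQ'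
    have hQprime : Prime Q := UniqueFactorizationMonoid.prime_of_normalized_factor Q hQ
    have hQne : Q ≠ ⊥ := hQprime.ne_zero
    have hQmax : Q.IsMaximal := hQp.isMaximal hQne
    rw [← Ideal.IsDedekindDomain.ramificationIdx_eq_normalizedFactors_count (P.under (𝓞 F)) Q hmap,
      ram_one H (P.under (𝓞 F)) Q, Nat.one_le_iff_ne_zero, Multiset.count_ne_zero]
    obtain ⟨τ, hτ⟩ := Ideal.exists_smul_eq_of_isGaloisGroup (P.under (𝓞 F)) P Q Gal(L/F)
    have hIQ : I ≤ Q := by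
      rw [← hτ, ← hst τ, Ideal.pointwise_smul_def, Ideal.pointwise_smul_def]
      exact Ideal.map_mono hle
    obtain ⟨Q', hQ', hass⟩ := UniqueFactorizationMonoid.exists_mem_normalizedFactors_of_dvd hI
      hQprime.irreducible (Ideal.dvd_iff_le.mpr hIQ)
    rw [associated_iff_eq] at hass
    rw [hass]
    exact hQ'
  · rw [Multiset.count_eq_zero_of_notMem hQ]
    exact Nat.zero_le _

theorem extended
    (H : ∀ P : Ideal (𝓞 L), P.IsMaximal → ∀ τ : Gal(L/F), (∀ x : 𝓞 L, τ • x - x ∈ P) → τ = 1)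
    (I : Ideal (𝓞 L)) : I ≠ ⊥ → (∀ τ : Gal(L/F), τ • I = I) →
    ∃ J : Ideal (𝓞 F), J.map (algebraMap (𝓞 F) (𝓞 L)) = I := by
  induction I using WellFoundedGT.induction with
  | ind I ih =>
    intro hI hst
    by_cases htop : I = ⊤
    · exact ⟨⊤, by rw [htop, Ideal.map_top]⟩
    · obtain ⟨P, hP, hle⟩ := Ideal.exists_le_maximal I htop
      obtain ⟨I', hI'⟩ := dvd_aux H I hI hst P hP hle
      have hp : (P.under (𝓞 F)).IsMaximal := inferInstance
      have hpne : P.under (𝓞 F) ≠ ⊥ :=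
        Ring.ne_bot_of_isMaximal_of_not_isField hp (RingOfIntegers.not_isField F)
      have hmap : (P.under (𝓞 F)).map (algebraMap (𝓞 F) (𝓞 L)) ≠ ⊥ := by
        intro h
        rw [Ideal.map_eq_bot_iff_of_injective (FaithfulSMul.algebraMap_injective (𝓞 F) (𝓞 L))] at h
        exact hpne h
      have hI'ne : I' ≠ ⊥ := by
        rintro rfl
        apply hI
        rw [hI', Ideal.mul_bot]
      have hlt : I < I' := by
        refine lt_of_le_of_ne (by
        rw [hI']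
        exact Ideal.mul_le_right (I := (P.under (𝓞 F)).map (algebraMap (𝓞 F) (𝓞 L))) (J := I')) ?_
        intro h
        rw [h] at hI'
        have h1 : (P.under (𝓞 F)).map (algebraMap (𝓞 F) (𝓞 L)) = 1 := by
          have : 1 * I' = (P.under (𝓞 F)).map (algebraMap (𝓞 F) (𝓞 L)) * I' := by
            rw [one_mul]; exact hI'
          exact (mul_right_cancel₀ hI'ne this).symm
        have h2 : (P.under (𝓞 F)).map (algebraMap (𝓞 F) (𝓞 L)) ≤ P := Ideal.map_comap_le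
        rw [h1, Ideal.one_eq_top, top_le_iff] at h2
        exact hP.ne_top h2
      have hst' : ∀ τ : Gal(L/F), τ • I' = I' := by
        intro τ
        have h1 := hst τ
        rw [hI', smul_mul, smul_map] at h1
        exact mul_left_cancel₀ hmap h1
      obtain ⟨J', hJ'⟩ := ih I' hlt hI'ne hst'
      exact ⟨P.under (𝓞 F) * J', by rw [Ideal.map_mul, hJ', ← hI']⟩

/-- the relation between a unit and a class -/
def Rel (σ : Gal(L/F)) (u : (𝓞 L)ˣ) (C : ClassGroup (𝓞 F)) : Prop :=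
  ∃ x : 𝓞 L, x ≠ 0 ∧ σ • x = u * x ∧ ∃ J : (Ideal (𝓞 F))⁰,
    (J : Ideal (𝓞 F)).map (algebraMap (𝓞 F) (𝓞 L)) = Ideal.span {x} ∧ C = ClassGroup.mk0 J

theorem rel_exists (σ : Gal(L/F)) (hσ : ∀ τ : Gal(L/F), τ ∈ Subgroup.zpowers σ)
    (H : ∀ P : Ideal (𝓞 L), P.IsMaximal → ∀ τ : Gal(L/F), (∀ x : 𝓞 L, τ • x - x ∈ P) → τ = 1)
    (u : (𝓞 L)ˣ) (hu : Algebra.norm F ((u : 𝓞 L) : L) = 1) : ∃ C, Rel σ u C := by
  have hu' : Algebra.norm F (algebraMap (𝓞 L) L ((u⁻¹ : (𝓞 L)ˣ) : 𝓞 L)) = 1 := by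
    have h1 : Algebra.norm F (algebraMap (𝓞 L) L ((u⁻¹ : (𝓞 L)ˣ) : 𝓞 L)) *
        Algebra.norm F (algebraMap (𝓞 L) L (u : 𝓞 L)) = 1 := by
      rw [← map_mul, ← map_mul, Units.inv_mul, map_one, map_one]
    have h2 : Algebra.norm F (algebraMap (𝓞 L) L (u : 𝓞 L)) = 1 := hu
    rwa [h2, mul_one] at h1
  have hcyc : IsCyclic Gal(L/F) := ⟨σ, hσ⟩
  obtain ⟨x, hx, hxx⟩ := groupCohomology.exists_mul_galRestrict_of_norm_eq_one (A := 𝓞 F) (B := 𝓞 L)
    (K := F) (L := L) hσ hu'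
  have hσx : σ • x = u * x := by
    have h1 : galRestrict (𝓞 F) F L (𝓞 L) σ x = σ • x := by
      apply RingOfIntegers.ext
      rw [smul_coe]
      exact algebraMap_galRestrict_apply (𝓞 F) σ x
    rw [h1] at hxx
    nth_rewrite 2 [← hxx]
    rw [← mul_assoc, Units.mul_inv, one_mul]
  have hst : ∀ τ : Gal(L/F), τ • (Ideal.span {x} : Ideal (𝓞 L)) = Ideal.span {x} := by
    have h1 : σ • (Ideal.span {x} : Ideal (𝓞 L)) = Ideal.span {x} := by
      rw [Ideal.pointwise_smul_def, Ideal.map_span, Set.image_singleton]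
      change Ideal.span {σ • x} = _
      rw [hσx]
      exact Ideal.span_singleton_mul_left_unit u.isUnit x
    have h2 : Subgroup.zpowers σ ≤ MulAction.stabilizer Gal(L/F) (Ideal.span {x} : Ideal (𝓞 L)) := by
      rw [Subgroup.zpowers_le]
      exact h1
    intro τ
    exact h2 (hσ τ)
  obtain ⟨J, hJ⟩ := extended H (Ideal.span {x}) (by simpa using hx) hst
  have hJne : J ≠ ⊥ := by
    rintro rfl
    rw [Ideal.map_bot] at hJ
    exact hx (by simpa using hJ.symm)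
  exact ⟨_, x, hx, hσx, ⟨J, mem_nonZeroDivisors_of_ne_zero hJne⟩, hJ, rfl⟩

omit [NumberField L] [IsGalois F L] in
theorem rel_mul (σ : Gal(L/F)) (u w : (𝓞 L)ˣ) (C D : ClassGroup (𝓞 F)) (h : Rel σ u C)
    (h' : Rel σ w D) : Rel σ (u * w) (C * D) := by
  obtain ⟨x, hx, hσx, J, hJ, rfl⟩ := h
  obtain ⟨y, hy, hσy, K, hK, rfl⟩ := h'
  refine ⟨x * y, mul_ne_zero hx hy, ?_, J * K, ?_, (map_mul _ _ _).symm⟩
  · rw [smul_mul', hσx, hσy]
    push_cast
    ring
  · rw [Submonoid.coe_mul, Ideal.map_mul, hJ, hK, Ideal.span_singleton_mul_span_singleton]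

theorem rel_unique (σ : Gal(L/F)) (hσ : ∀ τ : Gal(L/F), τ ∈ Subgroup.zpowers σ)
    (u : (𝓞 L)ˣ) (C D : ClassGroup (𝓞 F)) (h : Rel σ u C)
    (h' : Rel σ u D) : C = D := by
  obtain ⟨x, hx, hσx, J, hJ, rfl⟩ := h
  obtain ⟨y, hy, hσy, K, hK, rfl⟩ := h'
  have hxL : (x : L) ≠ 0 := by simpa using hx
  have hyL : (y : L) ≠ 0 := by simpa using hy
  have huL : ((u : 𝓞 L) : L) ≠ 0 := by simp
  have hfix : σ ((x : L) / y) = (x : L) / y := by
    have h1 : σ (x : L) = ((u : 𝓞 L) : L) * x := by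
      rw [← smul_coe, hσx]; simp
    have h2 : σ (y : L) = ((u : 𝓞 L) : L) * y := by
      rw [← smul_coe, hσy]; simp
    rw [map_div₀, h1, h2, mul_div_mul_left _ _ huL]
  have hfix' : ∀ τ : Gal(L/F), τ ((x : L) / y) = (x : L) / y := by
    have h2 : Subgroup.zpowers σ ≤ MulAction.stabilizer Gal(L/F) ((x : L) / y) := by
      rw [Subgroup.zpowers_le]
      exact hfix
    intro τ
    exact h2 (hσ τ)
  obtain ⟨z, hz⟩ := (IsGalois.mem_range_algebraMap_iff_fixed (F := F) ((x : L) / y)).mpr hfix'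
  obtain ⟨a, b, hb, hab⟩ := IsFractionRing.div_surjective (A := 𝓞 F) z
  have hb0 : b ≠ 0 := nonZeroDivisors.ne_zero hb
  have hbF : (algebraMap (𝓞 F) F b) ≠ 0 := by simpa using hb0
  have hbL : (algebraMap F L (algebraMap (𝓞 F) F b)) ≠ 0 := by simpa using hb0
  have key : algebraMap (𝓞 F) (𝓞 L) b * x = algebraMap (𝓞 F) (𝓞 L) a * y := by
    apply RingOfIntegers.ext
    change algebraMap (𝓞 L) L (algebraMap (𝓞 F) (𝓞 L) b * x) =
      algebraMap (𝓞 L) L (algebraMap (𝓞 F) (𝓞 L) a * y)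
    rw [map_mul, map_mul]
    have e1 : ∀ c : 𝓞 F, (algebraMap (𝓞 L) L) (algebraMap (𝓞 F) (𝓞 L) c) =
        algebraMap F L (algebraMap (𝓞 F) F c) := fun c => rfl
    rw [e1, e1]
    have e2 : (x : L) / y = algebraMap F L (algebraMap (𝓞 F) F a) /
        algebraMap F L (algebraMap (𝓞 F) F b) := by
      rw [← hz, ← hab, map_div₀]
    rw [div_eq_div_iff hyL hbL] at e2
    rw [mul_comm]
    exact e2
  have ha0 : a ≠ 0 := by
    rintro rfl
    rw [map_zero, zero_mul] at key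
    rcases mul_eq_zero.mp key with h | h
    · exact hb0 (FaithfulSMul.algebraMap_injective (𝓞 F) (𝓞 L) (by rw [h, map_zero]))
    · exact hx h
  rw [ClassGroup.mk0_eq_mk0_iff]
  refine ⟨b, a, hb0, ha0, ?_⟩
  have hinj : ∀ A B : Ideal (𝓞 F), A.map (algebraMap (𝓞 F) (𝓞 L)) = B.map (algebraMap (𝓞 F) (𝓞 L)) →
      A = B := by
    intro A B h
    rw [← Ideal.comap_map_eq_self_of_faithfullyFlat (B := 𝓞 L) A, h,
      Ideal.comap_map_eq_self_of_faithfullyFlat]
  apply hinj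
  rw [Ideal.map_mul, Ideal.map_mul, hJ, hK, Ideal.map_span, Ideal.map_span, Set.image_singleton,
    Set.image_singleton, Ideal.span_singleton_mul_span_singleton,
    Ideal.span_singleton_mul_span_singleton, key]

end

theorem t_CAP : S_CAP := by
  classical
  intro F L _ _ _ _ _ _ σ hσ H
  let φ : (𝓞 L)ˣ → ClassGroup (𝓞 F) := fun u =>
    if h : Algebra.norm F ((u : 𝓞 L) : L) = 1 then (rel_exists σ hσ H u h).choose else 1
  have hφ : ∀ u : (𝓞 L)ˣ, Algebra.norm F ((u : 𝓞 L) : L) = 1 → Rel σ u (φ u) := by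
    intro u hu
    simp only [φ, dif_pos hu]
    exact (rel_exists σ hσ H u hu).choose_spec
  refine ⟨φ, ?_, ?_⟩
  · intro u w hu hw
    have huw : Algebra.norm F (((u * w : (𝓞 L)ˣ) : 𝓞 L) : L) = 1 := by
      have e1 : (((u * w : (𝓞 L)ˣ) : 𝓞 L) : L) = ((u : 𝓞 L) : L) * ((w : 𝓞 L) : L) := by simp
      rw [e1, map_mul, hu, hw, one_mul]
    exact rel_unique σ hσ _ _ _ (hφ _ huw) (rel_mul σ u w _ _ (hφ u hu) (hφ w hw))
  · intro u hu h1
    obtain ⟨x, hx, hσx, J, hJ, hJ1⟩ := hφ u hu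
    rw [h1] at hJ1
    have hprin : Submodule.IsPrincipal (J : Ideal (𝓞 F)) :=
      (ClassGroup.mk0_eq_one_iff J.2).mp hJ1.symm
    obtain ⟨y, hy⟩ := hprin
    have hy' : (J : Ideal (𝓞 F)) = Ideal.span {y} := hy
    rw [hy', Ideal.map_span, Set.image_singleton, Ideal.span_singleton_eq_span_singleton] at hJ
    obtain ⟨e, he⟩ := hJ
    refine ⟨e, ?_⟩
    have hy0 : algebraMap (𝓞 F) (𝓞 L) y ≠ 0 := by
      intro h
      rw [h, zero_mul] at he
      exact hx he.symm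
    have hσy : σ • algebraMap (𝓞 F) (𝓞 L) y = algebraMap (𝓞 F) (𝓞 L) y := by
      simp
    have h2 : algebraMap (𝓞 F) (𝓞 L) y * (σ • (e : 𝓞 L)) = algebraMap (𝓞 F) (𝓞 L) y * (u * e) := by
      rw [← he, smul_mul', hσy] at hσx
      rw [hσx]
      ring
    have h3 := mul_left_cancel₀ hy0 h2
    rw [← smul_coe, h3]
    simp

end Pool.Agent.T2h11.MT.CAP
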