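import Pool.Agent.T2h11.MT.Stm

/-!
# CHR: finite cyclic quotients of a compact group with a nonzero additive character

By helper57. Let `a σ₀ ≠ 0`, and let `ℓ ^ k > N`. The elements `σ` with `|a σ| ≤ |ℓ ^ k a σ₀|` form an
open normal subgroup of finite index with abelian quotient, and `σ₀` has order `ℓ ^ k` in the
quotient. There is a character of the quotient which is nontrivial at `σ₀ ^ (ℓ ^ (k - 1))`, and its
kernel has the required properties.
-/

set_option autoImplicit false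

namespace Pool.Agent.T2h11.MT.CHR

open Module

theorem norm_nat {ℓ : ℕ} [Fact ℓ.Prime] (n : ℕ) : ‖(n : ℂ_[ℓ])‖ = ‖(n : ℚ_[ℓ])‖ := by
  rw [← norm_algebraMap' ℂ_[ℓ] (n : ℚ_[ℓ]), map_natCast]

theorem t_CHR : S_CHR := by
  intro G _ _ _ _ ℓ _ a ha hadd hne N
  classical
  obtain ⟨σ₀, hσ₀⟩ := hne
  have hℓ : 1 < ℓ := (Fact.out : ℓ.Prime).one_lt
  have hone : a 1 = 0 := by
    have h := hadd 1 1
    rw [one_mul] at h
    exact (left_eq_add.1 h)
  have hinv : ∀ σ, a σ⁻¹ = - a σ := by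
    intro σ
    have h := hadd σ⁻¹ σ
    rw [inv_mul_cancel, hone] at h
    exact (eq_neg_of_add_eq_zero_left h.symm)
  obtain ⟨k, hk⟩ : ∃ k : ℕ, N < ℓ ^ (k + 1) := 
    ⟨N, (Nat.lt_pow_self hℓ).trans (Nat.pow_lt_pow_right hℓ (Nat.lt_succ_self N))⟩
  have hnorm : ∀ j : ℕ, ‖((ℓ ^ j : ℕ) : ℂ_[ℓ])‖ = ((ℓ : ℝ)⁻¹) ^ j := by
    intro j
    rw [Nat.cast_pow, norm_pow, norm_nat, Padic.norm_p]
  set r : ℝ := ‖((ℓ ^ (k + 1) : ℕ) : ℂ_[ℓ])‖ * ‖a σ₀‖ with hr
  have hr0 : 0 < r := by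
    rw [hr, hnorm]
    have : (0 : ℝ) < ℓ := by positivity
    have : 0 < ‖a σ₀‖ := norm_pos_iff.2 hσ₀
    positivity
  let Gr : Subgroup G :=
    { carrier := {σ | ‖a σ‖ ≤ r}
      mul_mem' := by
        intro x y hx hy
        have hx' : ‖a x‖ ≤ r := hx
        have hy' : ‖a y‖ ≤ r := hy
        change ‖a (x * y)‖ ≤ r
        rw [hadd]
        exact (IsUltrametricDist.norm_add_le_max _ _).trans (max_le hx' hy')
      one_mem' := by
        change ‖a 1‖ ≤ r
        rw [hone, norm_zero]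
        exact hr0.le
      inv_mem' := by
        intro x hx
        have hx' : ‖a x‖ ≤ r := hx
        change ‖a x⁻¹‖ ≤ r
        rw [hinv, norm_neg]
        exact hx' }
  have hGr : ∀ σ, σ ∈ Gr ↔ ‖a σ‖ ≤ r := fun σ => Iff.rfl
  have hN : Gr.Normal := by
    refine ⟨fun n hn g => ?_⟩
    rw [hGr] at hn ⊢
    rw [hadd, hadd, hinv]
    have : a g + a n + -a g = a n := by ring
    rw [this]
    exact hn
  have hopen : IsOpen (Gr : Set G) := by
    have h1 : (Gr : Set G) = a ⁻¹' (Metric.closedBall 0 r) := by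
      ext σ
      rw [Set.mem_preimage, mem_closedBall_zero_iff]
      rfl
    rw [h1]
    exact (IsUltrametricDist.isOpen_closedBall (0 : ℂ_[ℓ]) hr0.ne').preimage ha
  have hfin : Finite (G ⧸ Gr) := Subgroup.quotient_finite_of_isOpen Gr hopen
  have hcomm : ∀ x y : G ⧸ Gr, x * y = y * x := by
    intro x y
    obtain ⟨x, rfl⟩ := QuotientGroup.mk_surjective x
    obtain ⟨y, rfl⟩ := QuotientGroup.mk_surjective y
    rw [← QuotientGroup.mk_mul, ← QuotientGroup.mk_mul, QuotientGroup.eq, hGr, hadd, hadd, hinv,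
      hadd]
    have : -(a x + a y) + (a y + a x) = 0 := by ring
    rw [this, norm_zero]
    exact hr0.le
  let _ : CommGroup (G ⧸ Gr) := { (inferInstance : Group (G ⧸ Gr)) with mul_comm := hcomm }
  have hapow : ∀ (n : ℕ) (σ : G), a (σ ^ n) = n * a σ := by
    intro n σ
    induction n with
    | zero => rw [pow_zero, hone, Nat.cast_zero, zero_mul]
    | succ n ih => rw [pow_succ, hadd, ih, Nat.cast_succ]; ring
  have hq1 : (QuotientGroup.mk σ₀ : G ⧸ Gr) ^ (ℓ ^ (k + 1)) = 1 := by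
    rw [← QuotientGroup.mk_pow, QuotientGroup.eq_one_iff, hGr, hapow, norm_mul]
  have hq2 : (QuotientGroup.mk σ₀ : G ⧸ Gr) ^ (ℓ ^ k) ≠ 1 := by
    rw [← QuotientGroup.mk_pow, Ne, QuotientGroup.eq_one_iff, hGr, hapow, norm_mul, hr, not_le]
    refine mul_lt_mul_of_pos_right ?_ (norm_pos_iff.2 hσ₀)
    rw [hnorm, hnorm]
    refine pow_lt_pow_right_of_lt_one₀ ?_ ?_ (Nat.lt_succ_self k)
    · have : (0 : ℝ) < ℓ := by positivity
      positivity
    · exact inv_lt_one_of_one_lt₀ (by exact_mod_cast hℓ)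
  obtain ⟨χ, hχ⟩ := CommGroup.exists_apply_ne_one_of_hasEnoughRootsOfUnity (G ⧸ Gr) ℂ hq2
  let ψ : G →* ℂˣ := χ.comp (QuotientGroup.mk' Gr)
  have hψ : ∀ x, ψ x = χ (QuotientGroup.mk x) := fun _ => rfl
  have hfr : Finite ψ.range := by
    have h1 : (ψ.range : Set ℂˣ) ⊆ Set.range χ := by
      rintro _ ⟨x, rfl⟩
      exact ⟨_, rfl⟩
    exact ((Set.finite_range χ).subset h1).to_subtype
  have hindex : ψ.ker.index = Nat.card ψ.range := Subgroup.index_ker ψ
  refine ⟨ψ.ker, inferInstance, ?_, ?_, ?_, ?_, ?_⟩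
  · refine Subgroup.isOpen_mono (H₁ := Gr) ?_ hopen
    intro x hx
    rw [MonoidHom.mem_ker, hψ, (QuotientGroup.eq_one_iff x).2 hx, map_one]
  · intro σ hσ
    have hx : σ ∈ Gr := by
      rw [hGr, hσ, norm_zero]
      exact hr0.le
    rw [MonoidHom.mem_ker, hψ, (QuotientGroup.eq_one_iff σ).2 hx, map_one]
  · obtain ⟨⟨y, g, hg⟩, hy⟩ := IsCyclic.exists_generator (α := ψ.range)
    refine ⟨g, fun x => ?_⟩
    obtain ⟨j, hj⟩ := Subgroup.mem_zpowers_iff.1 (hy ⟨ψ x, x, rfl⟩)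
    refine ⟨j, ?_⟩
    have hj' : y ^ j = ψ x := congrArg Subtype.val hj
    rw [MonoidHom.mem_ker, map_mul, map_inv, map_zpow, hg, hj', inv_mul_cancel]
  · rw [hindex]
    exact Nat.card_pos.ne'
  · rw [hindex]
    refine hk.trans_le ?_
    have h1 : orderOf (⟨ψ σ₀, σ₀, rfl⟩ : ψ.range) = ℓ ^ (k + 1) := by
      refine orderOf_eq_prime_pow ?_ ?_
      · intro h
        apply hχ
        have h2 : (ψ σ₀) ^ (ℓ ^ k) = 1 := congrArg Subtype.val h
        rw [map_pow]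
        exact h2
      · apply Subtype.ext
        change (ψ σ₀) ^ (ℓ ^ (k + 1)) = 1
        rw [hψ, ← map_pow, hq1, map_one]
    rw [← h1]
    exact orderOf_le_card

end Pool.Agent.T2h11.MT.CHR
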