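import Pool.Agent.T2h11.MT.T_MTL

/-!
# FIN: the conclusion
-/

set_option autoImplicit false

namespace Pool.Agent.T2h11.MT.FIN

open Module NumberField IsDedekindDomain TensorProduct
open Pool.Agent.W401.Cheb Pool.Agent.N184.HK

section

variable {K : Type} [Field K] {d : ℕ} {c : ℚ} (Y : Cohomology K d c) (I : Finset ℕ)

lemma RR_add (A A' : Module.End K (Y.H 2)) (t t' : K) :
    RR Y I (A + A') (t + t') = RR Y I A t + RR Y I A' t' := by
  funext i
  simp only [RR, Pi.add_apply, map_add, mul_add, add_smul]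
  abel

lemma RR_zero : RR Y I 0 0 = 0 := by
  funext i
  simp [RR]

lemma RR_smul (r : K) (A : Module.End K (Y.H 2)) (t : K) :
    RR Y I (r • A) (r * t) = r • RR Y I A t := by
  funext i
  simp only [RR, Pi.smul_apply, map_smul, smul_add, smul_smul]
  rw [mul_left_comm]

lemma skew_add {A B : Module.End K (Y.H 2)} (hA : Skew Y.q A) (hB : Skew Y.q B) :
    Skew Y.q (A + B) := (so Y.q).add_mem hA hB

lemma skew_smul {A : Module.End K (Y.H 2)} (r : K) (hA : Skew Y.q A) :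
    Skew Y.q (r • A) := (so Y.q).smul_mem r hA

end

variable {K : Type} [Field K] [NumberField K] {ℓ : ℕ} [Fact ℓ.Prime] {X : HKVariety K ℂ_[ℓ]}
  (D : Realizations X)

/-- the extension of scalars of an endomorphism of `H²` -/
noncomputable def up (A : Module.End ℚ (D.B.H 2)) : Module.End ℂ_[ℓ] (X.E.X.H 2) :=
  (D.comp 2).conj (A.baseChange ℂ_[ℓ])

lemma up_apply (A : Module.End ℚ (D.B.H 2)) (x : D.B.H 2) :
    up D A (D.comp 2 ((1 : ℂ_[ℓ]) ⊗ₜ x)) = D.comp 2 ((1 : ℂ_[ℓ]) ⊗ₜ A x) := by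
  rw [up, LinearEquiv.conj_apply_apply, LinearEquiv.symm_apply_apply, LinearMap.baseChange_tmul]

lemma comp_ind (i : ℕ) {p : X.E.X.H i → Prop} (h0 : p 0)
    (h1 : ∀ x y, p x → p y → p (x + y)) (h2 : ∀ (r : ℂ_[ℓ]) x, p x → p (r • x))
    (h3 : ∀ x : D.B.H i, p (D.comp i ((1 : ℂ_[ℓ]) ⊗ₜ x))) (x : X.E.X.H i) : p x := by
  obtain ⟨P, rfl⟩ := (D.comp i).surjective x
  induction P with
  | zero => rw [map_zero]; exact h0
  | tmul z m =>
    have e : z ⊗ₜ[ℚ] m = z • ((1 : ℂ_[ℓ]) ⊗ₜ[ℚ] m) := by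
      rw [TensorProduct.smul_tmul', smul_eq_mul, mul_one]
    rw [e, map_smul]
    exact h2 _ _ (h3 m)
  | add x y hx hy => rw [map_add]; exact h1 _ _ hx hy

lemma up_skew {A : Module.End ℚ (D.B.H 2)} (hA : Skew D.B.q A) : Skew X.E.X.q (up D A) := by
  intro x y
  refine comp_ind D 2 (p := fun x => X.E.X.q (up D A x) y + X.E.X.q x (up D A y) = 0)
    ?_ ?_ ?_ ?_ x
  · simp
  · intro x x' hx hx'
    simp only [map_add, LinearMap.add_apply]
    linear_combination hx + hx'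
  · intro r x hx
    simp only [map_smul, LinearMap.smul_apply, smul_eq_mul]
    linear_combination r * hx
  intro x
  refine comp_ind D 2 (p := fun y => X.E.X.q (up D A (D.comp 2 ((1 : ℂ_[ℓ]) ⊗ₜ x))) y +
    X.E.X.q (D.comp 2 ((1 : ℂ_[ℓ]) ⊗ₜ x)) (up D A y) = 0) ?_ ?_ ?_ ?_ y
  · simp
  · intro x x' hx hx'
    simp only [map_add]
    linear_combination hx + hx'
  · intro r x hx
    simp only [map_smul, smul_eq_mul]
    linear_combination r * hx
  intro y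
  rw [up_apply, up_apply, D.form, D.form, ← map_add, hA x y, map_zero]

lemma ext_RR (I : Finset ℕ) (A : Module.End ℚ (D.B.H 2)) (t : ℚ) :
    D.ext I (RR D.B I A t) = RR X.E.X I (up D A) (algebraMap ℚ ℂ_[ℓ] t) := by
  funext i
  refine LinearMap.ext fun x => ?_
  refine comp_ind D i (p := fun x => D.ext I (RR D.B I A t) i x =
    RR X.E.X I (up D A) (algebraMap ℚ ℂ_[ℓ] t) i x) ?_ ?_ ?_ ?_ x
  · simp
  · intro x y hx hy
    rw [map_add, map_add, hx, hy]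
  · intro r x hx
    rw [map_smul, map_smul, hx]
  intro x
  simp only [Realizations.ext, RR]
  rw [LinearEquiv.conj_apply_apply, LinearEquiv.symm_apply_apply, LinearMap.baseChange_tmul,
    LinearMap.add_apply, LinearMap.add_apply, tmul_add, map_add]
  rw [D.act i A x]
  congr 1
  rw [LinearMap.smul_apply, LinearMap.smul_apply, Module.End.one_apply, Module.End.one_apply]
  have e : (((i : ℕ) : ℂ_[ℓ]) / 2 * algebraMap ℚ ℂ_[ℓ] t) =
      algebraMap ℚ ℂ_[ℓ] (((i : ℕ) : ℚ) / 2 * t) := by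
    rw [map_mul, map_div₀, map_natCast, map_ofNat]
  rw [e, ← map_smul, TensorProduct.tmul_smul, algebraMap_smul]

variable (I : Finset ℕ)

/-- the span of the Lie algebra of the Mumford-Tate group -/
noncomputable def sp : Submodule (algebraMap ℚ_[ℓ] ℂ_[ℓ]).range (∀ i : I, Module.End ℂ_[ℓ] (X.E.X.H i)) :=
  Submodule.span (algebraMap ℚ_[ℓ] ℂ_[ℓ]).range
    (D.ext I '' (mtLie (D.hodge I) : Set (∀ i : I, Module.End ℚ (D.B.H i))))

lemma sp_iff (hM : S_MTL) (Z : ∀ i : I, Module.End ℂ_[ℓ] (X.E.X.H i)) : Z ∈ sp D I ↔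
    ∃ (A : Module.End ℂ_[ℓ] (X.E.X.H 2)) (t : ℂ_[ℓ]), Skew X.E.X.q A ∧
      RR X.E.X {2} A t ∈ sp D {2} ∧ Z = RR X.E.X I A t := by
  constructor
  · intro h
    refine Submodule.span_induction ?_ ?_ ?_ ?_ h
    · rintro _ ⟨m, hm, rfl⟩
      obtain ⟨A, t, hA, h2, rfl⟩ := (hM K ℓ X D I m).1 hm
      refine ⟨up D A, algebraMap ℚ ℂ_[ℓ] t, up_skew D hA, ?_, ext_RR D I A t⟩
      rw [← ext_RR]
      exact Submodule.subset_span ⟨_, h2, rfl⟩
    · refine ⟨0, 0, (so X.E.X.q).zero_mem, ?_, (RR_zero _ _).symm⟩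
      rw [RR_zero]
      exact Submodule.zero_mem _
    · rintro _ _ _ _ ⟨A, t, hA, h2, rfl⟩ ⟨A', t', hA', h2', rfl⟩
      refine ⟨A + A', t + t', skew_add _ hA hA', ?_, (RR_add _ _ _ _ _ _).symm⟩
      rw [RR_add]
      exact Submodule.add_mem _ h2 h2'
    · rintro r _ _ ⟨A, t, hA, h2, rfl⟩
      refine ⟨(r : ℂ_[ℓ]) • A, (r : ℂ_[ℓ]) * t, skew_smul _ _ hA, ?_, ?_⟩
      · rw [RR_smul]
        exact Submodule.smul_mem _ r h2
      · rw [RR_smul]
        rfl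
  · rintro ⟨A, t, hA, h2, rfl⟩
    have key : ∀ P ∈ sp D {2}, ∃ (A : Module.End ℂ_[ℓ] (X.E.X.H 2)) (t : ℂ_[ℓ]),
        Skew X.E.X.q A ∧ P = RR X.E.X {2} A t ∧ RR X.E.X I A t ∈ sp D I := by
      intro P hP
      refine Submodule.span_induction ?_ ?_ ?_ ?_ hP
      · rintro _ ⟨m, hm, rfl⟩
        obtain ⟨A, t, hA, h2, rfl⟩ := (hM K ℓ X D {2} m).1 hm
        refine ⟨up D A, algebraMap ℚ ℂ_[ℓ] t, up_skew D hA, ext_RR D {2} A t, ?_⟩
        rw [← ext_RR]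
        exact Submodule.subset_span ⟨_, (hM K ℓ X D I _).2 ⟨A, t, hA, h2, rfl⟩, rfl⟩
      · refine ⟨0, 0, (so X.E.X.q).zero_mem, (RR_zero _ _).symm, ?_⟩
        rw [RR_zero]
        exact Submodule.zero_mem _
      · rintro _ _ _ _ ⟨A, t, hA, rfl, h2⟩ ⟨A', t', hA', rfl, h2'⟩
        refine ⟨A + A', t + t', skew_add _ hA hA', (RR_add _ _ _ _ _ _).symm, ?_⟩
        rw [RR_add]
        exact Submodule.add_mem _ h2 h2'
      · rintro r _ _ ⟨A, t, hA, rfl, h2⟩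
        refine ⟨(r : ℂ_[ℓ]) • A, (r : ℂ_[ℓ]) * t, skew_smul _ _ hA, ?_, ?_⟩
        · rw [RR_smul]
          rfl
        · rw [RR_smul]
          exact Submodule.smul_mem _ r h2
    obtain ⟨A', t', hA', h1, h3⟩ := key _ h2
    obtain ⟨rfl, rfl⟩ := MTL.RR_two_inj X.E.X hA hA' h1
    exact h3

theorem t_FIN (hL : S_LIE) (hM : S_MTL) : S_FIN := by
  intro K _ _ ℓ _ X D I hI h2
  have h2' : ∀ Z, Z ∈ lieImage X {2} ↔ Z ∈ sp D {2} := fun Z => by
    rw [h2]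
    rfl
  change lieImage X I = {A | A ∈ sp D I}
  ext Z
  rw [hL K ℓ X D I hI Z, Set.mem_ofPred_eq, sp_iff D I hM Z]
  simp only [h2']

end Pool.Agent.T2h11.MT.FIN
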