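import Pool.Agent.T2h11.MT.Stm
import Pool.Agent.T2h11.MT.HQ0

/-!
# Task HQ (helper31): the Herbrand quotient, in the form of an inequality
-/

set_option autoImplicit false

namespace Pool.Agent.T2h11.MT.HQ

theorem t_HQ : S_HQ := core

end Pool.Agent.T2h11.MT.HQ
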