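import Pool.Agent.T2h11.MT.Sm

/-!
# Task INR: an open subgroup of each inertia group acts trivially on the commutant
-/

set_option autoImplicit false

namespace Pool.Agent.T2h11.MT.INR

open Module Module.End NumberField IsDedekindDomain TensorProduct
open Pool.Agent.W401.Cheb Pool.Agent.N184.HK Pool.Agent.T2h11.PHK Pool.Agent.T2h11.MT

section

variable {K V : Type} [Field K] [CharZero K] [AddCommGroup V] [Module K V] [FiniteDimensional K V]

/-- `so(V, q)` is spanned by the elements which come from an orthogonal basis. -/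
lemma so_span {ι : Type} [Fintype ι] (q : LinearMap.BilinForm K V)
    (hq : ∀ x y, q x y = q y x) (e : Basis ι K V) (hc : ∀ i, q (e i) (e i) ≠ 0)
    (ho : ∀ i j, i ≠ j → q (e i) (e j) = 0) {A : Module.End K V} (hA : Skew q A) :
    A ∈ Submodule.span K {C | ∃ i j, C = P_PERF.E q (e i) (e j)} := by
  classical
  have hrep : ∀ x, x = ∑ j, (q (e j) x / q (e j) (e j)) • e j := by
    intro x
    conv_lhs => rw [← e.sum_repr x]
    refine Finset.sum_congr rfl fun j _ => ?_
    congr 1
    have : q (e j) x = e.repr x j * q (e j) (e j) := by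
      conv_lhs => rw [← e.sum_repr x]
      rw [map_sum, Finset.sum_eq_single j]
      · rw [map_smul, smul_eq_mul]
      · intro k _ hk
        rw [map_smul, ho j k (Ne.symm hk), smul_zero]
      · simp
    rw [this, mul_div_cancel_right₀ _ (hc j)]
  set m : ι → ι → K := fun i j =>
    q (e j) (A (e i)) / (q (e i) (e i) * q (e j) (e j)) with hm
  have hanti : ∀ i j, m j i = -m i j := by
    intro i j
    rw [hm]
    show q (e i) (A (e j)) / (q (e j) (e j) * q (e i) (e i)) =
      -(q (e j) (A (e i)) / (q (e i) (e i) * q (e j) (e j)))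
    have h := hA (e i) (e j)
    rw [hq (A (e i))] at h
    rw [eq_neg_of_add_eq_zero_right h, mul_comm (q (e j) (e j)), neg_div]
  have hAx : ∀ x, A x = ∑ i, ∑ j, (m i j * q (e i) x) • e j := by
    intro x
    conv_lhs => rw [hrep x]
    rw [map_sum]
    refine Finset.sum_congr rfl fun i _ => ?_
    rw [map_smul]
    conv_lhs => rw [hrep (A (e i))]
    rw [Finset.smul_sum]
    refine Finset.sum_congr rfl fun j _ => ?_
    rw [smul_smul]
    congr 1
    show _ = q (e j) (A (e i)) / (q (e i) (e i) * q (e j) (e j)) * q (e i) x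
    have h1 := hc i
    have h2 := hc j
    field_simp
  have h2 : (2 : K) • A = ∑ i, ∑ j, m i j • P_PERF.E q (e i) (e j) := by
    ext x
    rw [LinearMap.smul_apply, LinearMap.sum_apply]
    simp only [LinearMap.sum_apply, LinearMap.smul_apply, P_PERF.E_apply]
    rw [two_smul]
    conv_lhs =>
      rw [hAx x]
      arg 2
      rw [Finset.sum_comm]
    rw [← Finset.sum_add_distrib]
    refine Finset.sum_congr rfl fun i _ => ?_
    rw [← Finset.sum_add_distrib]
    refine Finset.sum_congr rfl fun j _ => ?_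
    rw [hanti i j]
    module
  have h3 : A = (2 : K)⁻¹ • ∑ i, ∑ j, m i j • P_PERF.E q (e i) (e j) := by
    rw [← h2, smul_smul, inv_mul_cancel₀ two_ne_zero, one_smul]
  rw [h3]
  exact Submodule.smul_mem _ _ (Submodule.sum_mem _ fun i _ => Submodule.sum_mem _ fun j _ =>
    Submodule.smul_mem _ _ (Submodule.subset_span ⟨i, j, rfl⟩))

end

variable {K : Type} [Field K] [NumberField K] {ℓ : ℕ} [Fact ℓ.Prime] {X : HKVariety K ℂ_[ℓ]}
  (D : Realizations X)

lemma comp_ext (i : ℕ) {f g : Module.End ℂ_[ℓ] (X.E.X.H i)}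
    (h : ∀ x : D.B.H i, f (D.comp i (1 ⊗ₜ x)) = g (D.comp i (1 ⊗ₜ x))) : f = g := by
  have h1 : ∀ y, f (D.comp i y) = g (D.comp i y) := by
    intro y
    induction y with
    | zero => rw [map_zero, map_zero, map_zero]
    | tmul z x =>
      have h2 : (z ⊗ₜ[ℚ] x : ℂ_[ℓ] ⊗[ℚ] D.B.H i) = z • (1 ⊗ₜ[ℚ] x) := by
        rw [TensorProduct.smul_tmul', smul_eq_mul, mul_one]
      rw [h2, map_smul, map_smul, map_smul, h x]
    | add a b ha hb => rw [map_add, map_add, map_add, ha, hb]
  ext x
  have h2 := h1 ((D.comp i).symm x)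
  simpa using h2

lemma conj_apply (i : ℕ) (b : Module.End ℚ (D.B.H i)) (x : D.B.H i) :
    (D.comp i).conj (b.baseChange ℂ_[ℓ]) (D.comp i (1 ⊗ₜ x)) = D.comp i (1 ⊗ₜ b x) := by
  rw [LinearEquiv.conj_apply, LinearMap.comp_apply, LinearMap.comp_apply, LinearEquiv.coe_coe,
    LinearEquiv.coe_coe, LinearEquiv.symm_apply_apply, LinearMap.baseChange_tmul]

lemma act_conj (i : ℕ) (A : Module.End ℚ (D.B.H 2)) :
    X.E.X.ρ i ((D.comp 2).conj (A.baseChange ℂ_[ℓ])) =
      (D.comp i).conj ((D.B.ρ i A).baseChange ℂ_[ℓ]) := by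
  refine comp_ext D i fun x => ?_
  rw [conj_apply, ← D.act]

/-- A rational element of the commutant is in the commutant. -/
lemma rat_cen (i : ℕ) {b : Module.End ℚ (D.B.H i)} (hb : b ∈ cen D.B i) :
    (D.comp i).conj (b.baseChange ℂ_[ℓ]) ∈ cen X.E.X i := by
  classical
  have : Invertible (2 : ℚ) := invertibleOfNonzero two_ne_zero
  obtain ⟨e, he⟩ := LinearMap.BilinForm.exists_orthogonal_basis
    (LinearMap.BilinForm.isSymm_iff.mp D.B.symm)
  have hc : ∀ j, D.B.q (e j) (e j) ≠ 0 :=
    LinearMap.BilinForm.iIsOrtho.not_isOrtho_basis_self_of_nondegenerate he D.B.nondeg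
  have ho : ∀ j k, j ≠ k → D.B.q (e j) (e k) = 0 := fun j k hjk => he hjk
  have hqB : ∀ x y, D.B.q x y = D.B.q y x := fun x y => D.B.symm.eq x y
  have hqX : ∀ x y, X.E.X.q x y = X.E.X.q y x := fun x y => X.E.X.symm.eq x y
  -- the basis of the extended space
  let f : Basis (Fin (finrank ℚ (D.B.H 2))) ℂ_[ℓ] (X.E.X.H 2) :=
    (e.baseChange ℂ_[ℓ]).map (D.comp 2)
  have hf : ∀ j, f j = D.comp 2 (1 ⊗ₜ e j) := fun j => by
    simp [f]
  have hfc : ∀ j, X.E.X.q (f j) (f j) ≠ 0 := fun j => by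
    rw [hf, D.form]
    exact (map_ne_zero _).2 (hc j)
  have hfo : ∀ j k, j ≠ k → X.E.X.q (f j) (f k) = 0 := fun j k hjk => by
    rw [hf, hf, D.form, ho j k hjk, map_zero]
  have hE : ∀ j k, P_PERF.E X.E.X.q (f j) (f k) =
      (D.comp 2).conj ((P_PERF.E D.B.q (e j) (e k)).baseChange ℂ_[ℓ]) := by
    intro j k
    refine comp_ext D 2 fun x => ?_
    rw [conj_apply, P_PERF.E_apply, P_PERF.E_apply, hf, hf, D.form, D.form,
      TensorProduct.tmul_sub, map_sub, TensorProduct.tmul_smul, TensorProduct.tmul_smul]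
    congr 1
    · rw [← map_smul]
      congr 1
    · rw [← map_smul]
      congr 1
  intro A hA
  have hspan := so_span X.E.X.q hqX f hfc hfo hA
  refine Submodule.span_induction (p := fun A _ => Commute (X.E.X.ρ i A)
    ((D.comp i).conj (b.baseChange ℂ_[ℓ]))) ?_ ?_ ?_ ?_ hspan
  · rintro _ ⟨j, k, rfl⟩
    rw [hE, act_conj]
    refine comp_ext D i fun x => ?_
    rw [Module.End.mul_apply, Module.End.mul_apply, conj_apply, conj_apply, conj_apply,
      conj_apply]
    have h1 := hb _ (P_PERF.E_skew hqB (e j) (e k))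
    have h2 := congrArg (fun F => F x) h1.eq
    simp only [Module.End.mul_apply] at h2
    rw [h2]
  · rw [map_zero]
    exact Commute.zero_left _
  · intro x y _ _ hx hy
    rw [map_add]
    exact hx.add_left hy
  · intro a x _ hx
    rw [map_smul]
    exact hx.smul_left a

theorem t_INR (hR : S_RAT) : S_INR := by
  intro K _ _ ℓ _ X D u
  by_cases hu : (ℓ : 𝓞 K) ∈ u.asIdeal
  · obtain ⟨U, hU, h⟩ := D.sen u hu
    refine ⟨U, hU, fun τ hτ hτu i hi a ha => ?_⟩
    obtain ⟨J, hJ, h2⟩ := h τ hτ hτu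
    have h3 := hR K ℓ X D i ha
    refine Submodule.span_induction (p := fun a _ => Commute a (X.E.Φ τ i)) ?_ ?_ ?_ ?_ h3
    · rintro _ ⟨b, hb, rfl⟩
      refine h2 i hi b ?_
      have h4 := rat_cen D i hb
      exact ((h4 J hJ).symm).add_right ((Commute.one_right _).smul_right _)
    · exact Commute.zero_left _
    · intro x y _ _ hx hy
      exact hx.add_left hy
    · intro r x _ hx
      exact hx.smul_left r
  · obtain ⟨U, hU, h⟩ := D.monodromy u hu
    refine ⟨U, hU, fun τ hτ hτu i hi a ha => ?_⟩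
    obtain ⟨L, t, hL⟩ := h τ hτ hτu
    refine (hL i hi).comm ?_
    rw [N_eq L hi]
    exact ((ha _ L.data.skew).symm).smul_right t

end Pool.Agent.T2h11.MT.INR
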