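import Pool.Agent.T2h11.MT.Stm

set_option autoImplicit false

namespace Pool.Agent.T2h11.MT.INS

open Module NumberField IsDedekindDomain TensorProduct Topology
open Pool.Agent.W401.Cheb

open scoped Pointwise

section aux

variable {L Ω : Type} [Field L] [CharZero L] [Field Ω] [Algebra L Ω] [IsAlgClosure L Ω]

theorem ins_comm : SMulCommClass (Gal(Ω/L)) (𝓞 L) (𝓞 Ω) where
  smul_comm σ a x := by
    apply RingOfIntegers.ext
    have h : ∀ (σ : Gal(Ω/L)) (x : 𝓞 Ω), ((σ • x : 𝓞 Ω) : Ω) = σ (x : Ω) := fun _ _ => rfl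
    rw [h]
    simp only [Algebra.smul_def, map_mul]
    exact congrArg₂ (· * ·) (σ.commutes (a : L)) rfl

theorem ins_inv : Algebra.IsInvariant (𝓞 L) (𝓞 Ω) (Gal(Ω/L)) where
  isInvariant x hx := by
    have : IsGalois L Ω := IsAlgClosure.isGalois L Ω
    have h : (x : Ω) ∈ Set.range (algebraMap L Ω) := by
      rw [InfiniteGalois.mem_range_algebraMap_iff_fixed]
      intro σ
      exact congrArg (fun y : 𝓞 Ω => (y : Ω)) (hx σ)
    obtain ⟨k, hk⟩ := h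
    have hint : IsIntegral ℤ k := by
      have h1 : IsIntegral ℤ (x : Ω) := x.isIntegral_coe
      rw [← hk] at h1
      exact (isIntegral_algebraMap_iff (algebraMap L Ω).injective).mp h1
    refine ⟨⟨k, hint⟩, ?_⟩
    apply RingOfIntegers.ext
    exact hk

/-- transitivity and surjectivity for the decomposition groups -/
theorem ins_trans (P : Ideal (𝓞 L)) (Q Q0 : Ideal (𝓞 Ω)) [Q.IsPrime] [Q0.IsPrime]
    (hQ : Q.comap (algebraMap (𝓞 L) (𝓞 Ω)) = P) (hQ0 : Q0.comap (algebraMap (𝓞 L) (𝓞 Ω)) = P) :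
    ∃ ν : Gal(Ω/L), ∀ x : 𝓞 Ω, x ∈ Q0 ↔ ν⁻¹ • x ∈ Q := by
  have : IsGalois L Ω := IsAlgClosure.isGalois L Ω
  have := ins_comm (L := L) (Ω := Ω)
  have := ins_inv (L := L) (Ω := Ω)
  let _ : TopologicalSpace (𝓞 Ω) := ⊥
  have : DiscreteTopology (𝓞 Ω) := ⟨rfl⟩
  have : ContinuousSMul (Gal(Ω/L)) (𝓞 Ω) := by
    rw [continuousSMul_iff_stabilizer_isOpen]
    intro x
    have := stabilizer_isOpen_of_isIntegral (K := L) (L := Ω) (x : Ω)
    convert this using 1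
    ext σ
    simp only [SetLike.mem_coe, MulAction.mem_stabilizer_iff]
    constructor
    · intro h
      exact congrArg (fun y : 𝓞 Ω => (y : Ω)) h
    · intro h
      exact RingOfIntegers.ext h
  obtain ⟨ν, hν⟩ := Algebra.IsInvariant.exists_smul_of_under_eq_of_profinite (A := 𝓞 L)
    (G := Gal(Ω/L)) Q Q0 (hQ.trans hQ0.symm)
  refine ⟨ν, fun x => ?_⟩
  rw [hν]
  exact Ideal.mem_pointwise_smul_iff_inv_smul_mem

theorem ins_surj (P : Ideal (𝓞 L)) (Q : Ideal (𝓞 Ω)) [Q.IsPrime]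
    (hQ : Q.comap (algebraMap (𝓞 L) (𝓞 Ω)) = P) (s : 𝓞 Ω ≃+* 𝓞 Ω) (hs : ∀ x, s x ∈ Q ↔ x ∈ Q)
    (hsP : ∀ y : 𝓞 L, s (algebraMap (𝓞 L) (𝓞 Ω) y) - algebraMap (𝓞 L) (𝓞 Ω) y ∈ Q) :
    ∃ g : Gal(Ω/L), (∀ x : 𝓞 Ω, g • x ∈ Q ↔ x ∈ Q) ∧ ∀ x : 𝓞 Ω, g • x - s x ∈ Q := by
  have : IsGalois L Ω := IsAlgClosure.isGalois L Ω
  have := ins_comm (L := L) (Ω := Ω)
  have := ins_inv (L := L) (Ω := Ω)
  let _ : TopologicalSpace (𝓞 Ω) := ⊥
  have : DiscreteTopology (𝓞 Ω) := ⟨rfl⟩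
  have : ContinuousSMul (Gal(Ω/L)) (𝓞 Ω) := by
    rw [continuousSMul_iff_stabilizer_isOpen]
    intro x
    have := stabilizer_isOpen_of_isIntegral (K := L) (L := Ω) (x : Ω)
    convert this using 1
    ext σ
    simp only [SetLike.mem_coe, MulAction.mem_stabilizer_iff]
    constructor
    · intro h
      exact congrArg (fun y : 𝓞 Ω => (y : Ω)) h
    · intro h
      exact RingOfIntegers.ext h
  have : Q.LiesOver P := ⟨hQ.symm⟩
  have hmap : Q = Q.map (s : 𝓞 Ω →+* 𝓞 Ω) := by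
    ext x
    constructor
    · intro hx
      have h1 : s (s.symm x) ∈ Q := by rwa [s.apply_symm_apply]
      have h2 := Ideal.mem_map_of_mem (s : 𝓞 Ω →+* 𝓞 Ω) ((hs _).1 h1)
      rwa [RingEquiv.coe_toRingHom, s.apply_symm_apply] at h2
    · intro hx
      have h1 : Q.map (s : 𝓞 Ω →+* 𝓞 Ω) ≤ Q := by
        rw [Ideal.map_le_iff_le_comap]
        intro y hy
        exact (hs y).2 hy
      exact h1 hx
  let e : (𝓞 Ω ⧸ Q) ≃+* (𝓞 Ω ⧸ Q) := Ideal.quotientEquiv Q Q s hmap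
  let l : (𝓞 Ω ⧸ Q) ≃ₐ[𝓞 L ⧸ P] 𝓞 Ω ⧸ Q := AlgEquiv.ofRingEquiv (f := e) (by
    intro r
    obtain ⟨y, rfl⟩ := Ideal.Quotient.mk_surjective r
    change Ideal.Quotient.mk Q (s (algebraMap (𝓞 L) (𝓞 Ω) y)) =
      Ideal.Quotient.mk Q (algebraMap (𝓞 L) (𝓞 Ω) y)
    rw [Ideal.Quotient.eq]
    exact hsP y)
  obtain ⟨g, hg⟩ := Ideal.Quotient.stabilizerHom_surjective_of_profinite (G := Gal(Ω/L)) P Q l
  refine ⟨g.1, fun x => ?_, fun x => ?_⟩
  · have h1 : g.1 • Q = Q := g.2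
    have h2 : g.1 • x ∈ g.1 • Q ↔ x ∈ Q := Ideal.smul_mem_pointwise_smul_iff
    rw [h1] at h2
    exact h2
  · rw [← Ideal.Quotient.eq]
    exact DFunLike.congr_fun hg (Ideal.Quotient.mk Q x)

end aux

theorem t_INS : S_INS := by
  intro F A _ _ _ _ hA L _ _ P hP τ hτ
  have : IsAlgClosed A := hA.isAlgClosed
  have : Algebra.IsAlgebraic F A := hA.isAlgebraic
  have : IsGalois F A := IsAlgClosure.isGalois F A
  have : CharZero L := charZero_of_injective_algebraMap (algebraMap F L).injective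
  have : Algebra.IsAlgebraic L A := Algebra.IsAlgebraic.tower_top (K := F) L
  have : IsAlgClosure L A := ⟨inferInstance, inferInstance⟩
  have hint : Algebra.IsIntegral (𝓞 L) (𝓞 A) :=
    ⟨fun x => (Algebra.IsIntegral.isIntegral (R := ℤ) x).tower_top⟩
  obtain ⟨σ0, hσ0⟩ := AlgEquiv.restrictNormalHom_surjective (F := F) (K₁ := L) A τ
  have hσ0' : ∀ x : L, σ0 (x : A) = ((τ x : L) : A) := by
    intro x
    rw [← hσ0]
    exact (AlgEquiv.restrictNormal_commutes σ0 L x).symm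
  obtain ⟨Q, hQm, hQP⟩ := Ideal.exists_ideal_over_maximal_of_isIntegral (S := 𝓞 A) P (by
    rw [(RingHom.injective_iff_ker_eq_bot _).1 (FaithfulSMul.algebraMap_injective (𝓞 L) (𝓞 A))]
    exact bot_le)
  have hQp : Q.IsPrime := hQm.isPrime
  have hcoe : ∀ (σ : Gal(A/F)) (x : 𝓞 A), ((σ • x : 𝓞 A) : A) = σ (x : A) := fun _ _ => rfl
  have hcoeL : ∀ (σ : Gal(A/L)) (x : 𝓞 A), ((σ • x : 𝓞 A) : A) = σ (x : A) := fun _ _ => rfl
  have halg : ∀ (σ : Gal(A/F)), (∀ x : L, σ (x : A) = ((τ x : L) : A)) → ∀ y : 𝓞 L,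
      σ • (algebraMap (𝓞 L) (𝓞 A) y) = algebraMap (𝓞 L) (𝓞 A) (τ • y) := by
    intro σ hσ y
    apply RingOfIntegers.ext
    exact hσ (y : L)
  have hτP : ∀ y : 𝓞 L, τ • y ∈ P ↔ y ∈ P := by
    intro y
    constructor
    · intro h
      have := P.sub_mem h (hτ y)
      rwa [sub_sub_cancel] at this
    · intro h
      have := P.add_mem (hτ y) h
      rwa [sub_add_cancel] at this
  set Q0 : Ideal (𝓞 A) := Q.comap (MulSemiringAction.toRingHom Gal(A/F) (𝓞 A) σ0) with hQ0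
  have hQ0m : ∀ x, x ∈ Q0 ↔ σ0 • x ∈ Q := fun x => Iff.rfl
  have hQ0p : Q0.IsPrime := Ideal.comap_isPrime _ _
  have hQ0P : Q0.comap (algebraMap (𝓞 L) (𝓞 A)) = P := by
    ext y
    rw [Ideal.mem_comap, hQ0m, halg σ0 hσ0', ← Ideal.mem_comap, hQP, hτP]
  obtain ⟨ν, hν⟩ := ins_trans P Q Q0 hQP hQ0P
  set σ1 : Gal(A/F) := σ0 * AlgEquiv.restrictScalars F ν with hσ1
  have hσ1s : ∀ x : 𝓞 A, σ1 • x = σ0 • (ν • x) := by
    intro x
    rfl
  have hσ1L : ∀ x : L, σ1 (x : A) = ((τ x : L) : A) := by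
    intro x
    rw [← hσ0' x]
    change σ0 (ν (algebraMap L A x)) = σ0 (algebraMap L A x)
    rw [ν.commutes]
  have hσ1Q : ∀ x : 𝓞 A, σ1 • x ∈ Q ↔ x ∈ Q := by
    intro x
    rw [hσ1s, ← hQ0m, hν, smul_smul, inv_mul_cancel, one_smul]
  obtain ⟨g, hgQ, hg⟩ := ins_surj P Q hQP (MulSemiringAction.toRingEquiv Gal(A/F) (𝓞 A) σ1) hσ1Q (by
    intro y
    change σ1 • (algebraMap (𝓞 L) (𝓞 A) y) - _ ∈ Q
    rw [halg σ1 hσ1L, ← map_sub, ← Ideal.mem_comap, hQP]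
    exact hτ y)
  refine ⟨(AlgEquiv.restrictScalars F g)⁻¹ * σ1, ?_, Q, hQm, ?_⟩
  · intro x
    rw [AlgEquiv.mul_apply, hσ1L]
    have h1 : (AlgEquiv.restrictScalars F g) ((τ x : L) : A) = ((τ x : L) : A) := g.commutes (τ x)
    conv_lhs => rw [← h1]
    exact (AlgEquiv.restrictScalars F g).symm_apply_apply _
  · intro x
    have h1 : σ1 • x - g • x ∈ Q := by
      have := Q.neg_mem (hg x)
      rwa [neg_sub] at this
    have h2 : g • ((((AlgEquiv.restrictScalars F g)⁻¹ * σ1 : Gal(A/F)) • x) - x) =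
        σ1 • x - g • x := by
      rw [smul_sub]
      congr 1
      apply RingOfIntegers.ext
      exact (AlgEquiv.restrictScalars F g).apply_symm_apply _
    rw [← hgQ, h2]
    exact h1

end Pool.Agent.T2h11.MT.INS
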