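import Pool.Agent.T2h11.MT.Stm
import Pool.Agent.Y759.TS.Kol

/-!
# KOL: a nontrivial unipotent representation has a nontrivial additive character

By helper57. By Kolchin's theorem the products of `dim V` elements `g σ - 1` vanish. Let
`P = (g σ₁ - 1) Q` be a nonzero product of the largest possible length `≥ 1`, let `P x ≠ 0`, and let
`l` be a linear form with `l (P x) ≠ 0`. Then `L A = l (A (Q x))` has the required properties, since
`g (σ τ) - 1 = (g σ - 1) (g τ - 1) + (g σ - 1) + (g τ - 1)`.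
-/

set_option autoImplicit false

namespace Pool.Agent.T2h11.MT.KOL

open Module

theorem t_KOL : S_KOL := by
  intro Ω V G _ _ _ _ _ _ _ U g hmul hnil hne
  classical
  -- `g 1 = 1`
  have hone : g 1 = 1 := by
    have h1 : g 1 * g 1 = g 1 := by
      have h := hmul 1 U.one_mem 1 U.one_mem
      rw [one_mul] at h
      exact h.symm
    obtain ⟨r, hr⟩ := hnil 1 U.one_mem
    have h2 : ∀ n : ℕ, (1 - g 1) ^ (n + 1) = 1 - g 1 := by
      intro n
      induction n with
      | zero => rw [zero_add, pow_one]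
      | succ n ih =>
        rw [pow_succ, ih]
        calc (1 - g 1) * (1 - g 1) = 1 - g 1 - g 1 + g 1 * g 1 := by noncomm_ring
          _ = 1 - g 1 := by rw [h1]; abel
    have h3 : (1 - g 1) ^ (r + 1) = 0 := by
      have h4 : (1 - g 1) = -(g 1 - 1) := by abel
      rw [h4, neg_pow, pow_succ (g 1 - 1), hr, zero_mul, mul_zero]
    rw [h2 r, sub_eq_zero] at h3
    exact h3.symm
  let φ : U →* Module.End Ω V :=
    { toFun := fun σ => g σ
      map_one' := hone
      map_mul' := fun σ τ => hmul σ σ.2 τ τ.2 }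
  have hφ : ∀ σ : U, φ σ = g σ := fun _ => rfl
  have hnil' : ∀ σ : U, IsNilpotent (φ σ - 1) := fun σ => hnil σ σ.2
  have hK := Pool.Agent.Y759.TS.prod_zero (k := Ω) (G := U) (finrank Ω V) V φ hnil' le_rfl
  -- longest nonzero product
  let T : ℕ → Prop := fun n => ∃ l : List U, l.length = n ∧ (l.map fun σ => φ σ - 1).prod ≠ 0
  have hT1 : T 1 := by
    obtain ⟨σ, hσ, hσ1⟩ := hne
    refine ⟨[⟨σ, hσ⟩], rfl, ?_⟩
    rw [List.map_cons, List.map_nil, List.prod_singleton, hφ]
    exact sub_ne_zero.2 hσ1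
  have hTlt : ∀ n, T n → n < finrank Ω V := by
    rintro n ⟨l, hl, hl0⟩
    by_contra hc
    push Not at hc
    apply hl0
    have h1 : l = l.take (finrank Ω V) ++ l.drop (finrank Ω V) := (List.take_append_drop _ _).symm
    rw [h1, List.map_append, List.prod_append, hK (l.take (finrank Ω V))
      (by rw [List.length_take, hl]; exact min_eq_left hc), zero_mul]
  have hex : ∃ n, 1 ≤ n ∧ T n ∧ ¬ T (n + 1) := by
    by_contra hc
    push Not at hc
    have h1 : ∀ n, T (n + 1) := by
      intro n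
      induction n with
      | zero => exact hT1
      | succ n ih => exact hc (n + 1) (by omega) ih
    have := hTlt _ (h1 (finrank Ω V))
    omega
  obtain ⟨n, hn1, ⟨l, hl, hl0⟩, hTn⟩ := hex
  have hmax : ∀ l' : List U, l'.length = n + 1 → (l'.map fun σ => φ σ - 1).prod = 0 := by
    intro l' hl'
    by_contra hc
    exact hTn ⟨l', hl', hc⟩
  obtain ⟨σ₁, Q, rfl⟩ : ∃ σ Q, l = σ :: Q := by
    cases l with
    | nil => simp at hl; omega
    | cons σ Q => exact ⟨σ, Q, rfl⟩
  have hQl : Q.length + 1 = n := by simpa using hl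
  set q : Module.End Ω V := (Q.map fun σ => φ σ - 1).prod with hq
  rw [List.map_cons, List.prod_cons, ← hq] at hl0
  obtain ⟨x, hx⟩ : ∃ x, ((φ σ₁ - 1) * q) x ≠ 0 := by
    by_contra hc
    push Not at hc
    exact hl0 (LinearMap.ext hc)
  obtain ⟨f, hf⟩ : ∃ f : Module.Dual Ω V, f (((φ σ₁ - 1) * q) x) ≠ 0 := by
    by_contra hc
    push Not at hc
    exact hx ((Module.forall_dual_apply_eq_zero_iff Ω _).1 hc)
  have hzero : ∀ σ τ : U, (φ σ - 1) * (φ τ - 1) * q = 0 := by
    intro σ τ
    have := hmax (σ :: τ :: Q) (by simp; omega)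
    rw [List.map_cons, List.prod_cons, List.map_cons, List.prod_cons, ← hq, ← mul_assoc] at this
    exact this
  refine ⟨f.comp (LinearMap.applyₗ (q x)), ?_, ⟨σ₁, σ₁.2, ?_⟩⟩
  · intro σ hσ τ hτ
    have h1 : g (σ * τ) - 1 = (g σ - 1) * (g τ - 1) + (g σ - 1) + (g τ - 1) := by
      rw [hmul σ hσ τ hτ]
      noncomm_ring
    have h2 : ((g σ - 1) * (g τ - 1)) (q x) = 0 := by
      exact congrArg (fun A : Module.End Ω V => A x) (hzero ⟨σ, hσ⟩ ⟨τ, hτ⟩)
    rw [h1, map_add, map_add]
    have h3 : (f.comp (LinearMap.applyₗ (q x))) ((g σ - 1) * (g τ - 1)) = 0 := by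
      rw [LinearMap.comp_apply, LinearMap.applyₗ_apply_apply, h2, map_zero]
    rw [h3, zero_add]
  · rw [LinearMap.comp_apply, LinearMap.applyₗ_apply_apply]
    exact hf

end Pool.Agent.T2h11.MT.KOL
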