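import Pool.Agent.T2h11.MT.Stm
import Pool.Agent.T2h11.MT.SmC

set_option autoImplicit false

namespace Pool.Agent.T2h11.MT.LIE

open Module NumberField IsDedekindDomain TensorProduct Filter Topology
open Pool.Agent.W401.Cheb Pool.Agent.N184.HK

section

variable {Ω : Type} [Field Ω] {d : ℕ} {c : ℚ} (Y : Cohomology Ω d c)

/-- The action of `A + t` on `H^i`. -/
noncomputable def act (i : ℕ) (A : Module.End Ω (Y.H 2)) (t : Ω) : Module.End Ω (Y.H i) :=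
  Y.ρ i A + ((i : Ω) / 2 * t) • (1 : Module.End Ω (Y.H i))

lemma act_smul (i : ℕ) (A : Module.End Ω (Y.H 2)) (t x : Ω) :
    act Y i (x • A) (x * t) = x • act Y i A t := by
  rw [act, act, map_smul, smul_add, smul_smul]
  congr 2
  ring

lemma act_two [CharZero Ω] {A : Module.End Ω (Y.H 2)} (hA : Skew Y.q A) (t : Ω) :
    act Y 2 A t = A + t • (1 : Module.End Ω (Y.H 2)) := by
  rw [act, Y.ρ_two A hA]
  congr 2
  rw [Nat.cast_ofNat, div_self two_ne_zero, one_mul]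

/-- Skew endomorphisms and scalars are independent. -/
lemma act_two_inj [CharZero Ω] {A B : Module.End Ω (Y.H 2)} (hA : Skew Y.q A) (hB : Skew Y.q B)
    {t s : Ω} (h : act Y 2 A t = act Y 2 B s) : A = B ∧ t = s := by
  rw [act_two Y hA, act_two Y hB] at h
  have h1 : A - B = (s - t) • (1 : Module.End Ω (Y.H 2)) := by
    rw [sub_smul, sub_eq_sub_iff_add_eq_add, h, add_comm]
  have h2 : Skew Y.q (A - B) := by
    intro x y
    have h3 := hA x y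
    have h4 := hB x y
    rw [LinearMap.sub_apply, LinearMap.sub_apply, map_sub, map_sub, LinearMap.sub_apply]
    linear_combination h3 - h4
  rw [h1] at h2
  have h3 := skew_scalar Y h2
  rw [h3, zero_smul] at h1
  exact ⟨sub_eq_zero.1 h1, (sub_eq_zero.1 h3).symm⟩

end

section

variable {Ω : Type} [NormedField Ω] [IsUltrametricDist Ω] {d : ℕ} {c : ℚ} (Y : Cohomology Ω d c)

/-- The action is bounded. -/
lemma small_act (i : ℕ) {r : ℝ} (hr : 0 < r) : ∃ ε : ℝ, 0 < ε ∧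
    ∀ (A : Module.End Ω (Y.H 2)) (t : Ω), Small ε A → ‖t‖ ≤ ε → Small r (act Y i A t) := by
  obtain ⟨C, hC, h⟩ := small_lin (Y.ρ i)
  set k : ℝ := ‖(i : Ω) / 2‖ + 1 with hk
  have hk0 : 0 < k := by positivity
  refine ⟨min (r / C) (r / k), lt_min (div_pos hr hC) (div_pos hr hk0), fun A t hA ht => ?_⟩
  have h1 : Small r (Y.ρ i A) := by
    have h2 := h _ A (div_pos hr hC).le (hA.mono (min_le_left _ _))
    have h3 : C * (r / C) = r := by field_simp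
    rwa [h3] at h2
  have h2 : ‖(i : Ω) / 2 * t‖ ≤ r := by
    rw [norm_mul]
    calc ‖(i : Ω) / 2‖ * ‖t‖ ≤ k * (r / k) :=
          mul_le_mul (by linarith) (ht.trans (min_le_right _ _)) (norm_nonneg _) hk0.le
      _ = r := by field_simp
  have h3 : Small r (((i : Ω) / 2 * t) • (1 : Module.End Ω (Y.H i))) := by
    have := (small_one (Ω := Ω) (V := Y.H i)).smul h2
    rwa [mul_one] at this
  exact h1.add h3

end

theorem t_LIE (hE : S_EXP) (_hS : S_SXP) (hA : S_ACT) : S_LIE := by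
  classical
  intro K _ _ ℓ _ X D I hI Z
  -- the radii
  have hr : ∀ i : ℕ, ∃ r : ℝ, 0 < r ∧ 
      (∀ A B g h : Module.End ℂ_[ℓ] (X.E.X.H i), Small r A → Small r B → Commute A B →
        IsExp A g → IsExp B h → IsExp (A + B) (g * h)) ∧
      (∀ A B g : Module.End ℂ_[ℓ] (X.E.X.H i), Small r A → Small r B → IsExp A g → IsExp B g →
        A = B) ∧
      (∀ ε > (0 : ℝ), ∃ δ > (0 : ℝ), ∀ A g : Module.End ℂ_[ℓ] (X.E.X.H i), Small δ A →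
        IsExp A g → Small ε (g - 1)) := by
    intro i
    obtain ⟨r, hr, -, h1, h2, -, h3⟩ := hE ℓ (X.E.X.H i)
    exact ⟨r, hr, h1, h2, h3⟩
  choose r hr hadd hinj hsm using hr
  have he : ∀ i : ℕ, ∃ e : ℝ, 0 < e ∧ ∀ (A : Module.End ℂ_[ℓ] (X.E.X.H 2)) (t : ℂ_[ℓ]),
      Small e A → ‖t‖ ≤ e → Small (r i) (act X.E.X i A t) :=
    fun i => small_act X.E.X i (hr i)
  choose e he hact using he
  obtain ⟨η, hη, hηe⟩ : ∃ η : ℝ, 0 < η ∧ ∀ i ≤ X.d, η ≤ e i := by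
    have hne : (Finset.range (X.d + 1)).Nonempty := ⟨0, Finset.mem_range.2 (Nat.succ_pos _)⟩
    refine ⟨(Finset.range (X.d + 1)).inf' hne e, ?_, fun i hi => ?_⟩
    · rw [Finset.lt_inf'_iff]
      exact fun i _ => he i
    · exact Finset.inf'_le _ (Finset.mem_range.2 (Nat.lt_succ_of_le hi))
  obtain ⟨U, hU, hUact⟩ := hA K ℓ X D η hη
  have hUact' : ∀ σ ∈ U, ∃ (A : Module.End ℂ_[ℓ] (X.E.X.H 2)) (t : ℂ_[ℓ]), Skew X.E.X.q A ∧
      ∀ i ≤ X.d, Small (r i) (act X.E.X i A t) ∧ IsExp (act X.E.X i A t) (X.E.Φ σ i) := by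
    intro σ hσ
    obtain ⟨A, t, hA, hAs, ht, h⟩ := hUact σ hσ
    exact ⟨A, t, hA, fun i hi => ⟨hact i A t (hAs.mono (hηe i hi)) (ht.trans (hηe i hi)), h i hi⟩⟩
  -- the elements of the image which are close to one
  have near : ∀ (J : Finset ℕ), (∀ i ∈ J, i ≤ X.d) → ∀ B : ∀ i : J, Module.End ℂ_[ℓ] (X.E.X.H i),
      B ∈ lieImage X J → ∀ᶠ n : ℕ in atTop, ∃ (A : Module.End ℂ_[ℓ] (X.E.X.H 2)) (t : ℂ_[ℓ]),
        Skew X.E.X.q A ∧ (∃ σ : GK K, ∀ i ≤ X.d, Small (r i) (act X.E.X i A t) ∧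
          IsExp (act X.E.X i A t) (X.E.Φ σ i)) ∧ ∀ i : J, (ℓ : ℂ_[ℓ]) ^ n • B i =
            act X.E.X i A t := by
    intro J hJ B hB
    obtain ⟨n₀, hn₀⟩ := hB
    obtain ⟨δ, hδ, hlift⟩ := near_lift X.E U hU J
    have h1 : ∀ᶠ n : ℕ in atTop, ∀ i : J, Small (r i) ((ℓ : ℂ_[ℓ]) ^ n • B i) :=
      eventually_all.2 fun i => small_pow (B i) (hr i)
    have h2 : ∀ᶠ n : ℕ in atTop, ∀ i : J, ∀ g : Module.End ℂ_[ℓ] (X.E.X.H i),
        IsExp ((ℓ : ℂ_[ℓ]) ^ n • B i) g → Small δ (g - 1) := by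
      refine eventually_all.2 fun i => ?_
      obtain ⟨δ', hδ', h⟩ := hsm i δ hδ
      exact (small_pow (B i) hδ').mono fun n hn g hg => h _ g hn hg
    filter_upwards [h1, h2, eventually_ge_atTop n₀] with n hn1 hn2 hn3
    obtain ⟨σ, hσ⟩ := hn₀ n hn3
    obtain ⟨τ, hτ, hτσ⟩ := hlift σ fun i hi => hn2 ⟨i, hi⟩ _ (hσ ⟨i, hi⟩)
    obtain ⟨A, t, hA, h⟩ := hUact' τ hτ
    refine ⟨A, t, hA, ⟨τ, h⟩, fun i => ?_⟩
    have h3 := h i (hJ i i.2)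
    rw [hτσ i i.2] at h3
    exact hinj i _ _ _ (hn1 i) h3.1 (hσ i) h3.2
  have h2d : ∀ i ∈ ({2} : Finset ℕ), i ≤ X.d := fun i hi => by
    rw [Finset.mem_singleton.1 hi]; exact X.two_le
  constructor
  · intro hZ
    obtain ⟨n, A, t, hA, ⟨σ, hσ⟩, hZn⟩ := (near I hI Z hZ).exists
    have hl : (ℓ : ℂ_[ℓ]) ^ n ≠ 0 := pow_ne_zero _ l_ne
    have hAsk : Skew X.E.X.q (((ℓ : ℂ_[ℓ]) ^ n)⁻¹ • A) := by
      intro x y
      have := hA x y
      rw [LinearMap.smul_apply, LinearMap.smul_apply, map_smul, map_smul, LinearMap.smul_apply,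
        smul_eq_mul, smul_eq_mul, ← mul_add, this, mul_zero]
    refine ⟨((ℓ : ℂ_[ℓ]) ^ n)⁻¹ • A, ((ℓ : ℂ_[ℓ]) ^ n)⁻¹ * t, hAsk, ?_, ?_⟩
    · refine ⟨n, fun m hm => ⟨σ ^ (ℓ ^ (m - n)), fun i => ?_⟩⟩
      have hi := hσ i (h2d i i.2)
      have h1 := isExp_nsmul (hadd i) hi.1 hi.2 (ℓ ^ (m - n))
      rw [Phi_pow]
      have h3 : (ℓ : ℂ_[ℓ]) ^ m • RR X.E.X {2} (((ℓ : ℂ_[ℓ]) ^ n)⁻¹ • A)
          (((ℓ : ℂ_[ℓ]) ^ n)⁻¹ * t) i = ((ℓ ^ (m - n) : ℕ) : ℂ_[ℓ]) • act X.E.X i A t := by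
        change (ℓ : ℂ_[ℓ]) ^ m • act X.E.X i (((ℓ : ℂ_[ℓ]) ^ n)⁻¹ • A)
          (((ℓ : ℂ_[ℓ]) ^ n)⁻¹ * t) = _
        rw [act_smul, smul_smul]
        congr 1
        rw [Nat.cast_pow, eq_comm, eq_mul_inv_iff_mul_eq₀ hl, ← pow_add, Nat.sub_add_cancel hm]
      rw [h3]
      exact h1
    · funext i
      change Z i = act X.E.X i (((ℓ : ℂ_[ℓ]) ^ n)⁻¹ • A) (((ℓ : ℂ_[ℓ]) ^ n)⁻¹ * t)
      rw [act_smul, ← hZn i, smul_smul, inv_mul_cancel₀ hl, one_smul]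
  · rintro ⟨A, t, hA, hR, rfl⟩
    have h1 := near {2} h2d _ hR
    obtain ⟨n₁, hn₁⟩ := eventually_atTop.1 h1
    refine ⟨n₁, fun n hn => ?_⟩
    obtain ⟨A', t', hA', ⟨σ, hσ⟩, h⟩ := hn₁ n hn
    refine ⟨σ, fun i => ?_⟩
    have h2 : act X.E.X 2 ((ℓ : ℂ_[ℓ]) ^ n • A) ((ℓ : ℂ_[ℓ]) ^ n * t) = act X.E.X 2 A' t' := by
      rw [act_smul]
      exact h ⟨2, Finset.mem_singleton_self 2⟩
    have hAsk : Skew X.E.X.q ((ℓ : ℂ_[ℓ]) ^ n • A) := by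
      intro x y
      have := hA x y
      rw [LinearMap.smul_apply, LinearMap.smul_apply, map_smul, map_smul, LinearMap.smul_apply,
        smul_eq_mul, smul_eq_mul, ← mul_add, this, mul_zero]
    obtain ⟨h3, h4⟩ := act_two_inj X.E.X hAsk hA' h2
    change IsExp ((ℓ : ℂ_[ℓ]) ^ n • act X.E.X i A t) _
    rw [← act_smul, h3, h4]
    exact (hσ i (hI i i.2)).2

end Pool.Agent.T2h11.MT.LIE
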