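import Pool.Agent.T2h11.MT.Stm

/-!
# MTL: the Lie algebra of the Mumford-Tate group
-/

set_option autoImplicit false

namespace Pool.Agent.T2h11.MT.MTL

open Module NumberField IsDedekindDomain TensorProduct
open Pool.Agent.W401.Cheb Pool.Agent.N184.HK

section

variable {M N : Type} [AddCommGroup M] [Module ℚ M] [AddCommGroup N] [Module ℚ N]

/-- the coefficient of `P` for the functional `φ` -/
noncomputable def cf (φ : ℂ →ₗ[ℚ] ℚ) : ℂ ⊗[ℚ] M →ₗ[ℚ] M :=
  (TensorProduct.lid ℚ M).toLinearMap ∘ₗ LinearMap.rTensor M φ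

lemma cf_tmul (φ : ℂ →ₗ[ℚ] ℚ) (z : ℂ) (m : M) : cf φ (z ⊗ₜ[ℚ] m) = φ z • m := by
  simp [cf]

lemma cf_map (φ : ℂ →ₗ[ℚ] ℚ) (f : M →ₗ[ℚ] N) (P : ℂ ⊗[ℚ] M) :
    cf φ (f.baseChange ℂ P) = f (cf φ P) := by
  induction P with
  | zero => simp
  | tmul z m => simp [cf_tmul]
  | add x y hx hy => simp [map_add, hx, hy]

lemma mem_bc_iff (L : Submodule ℚ M) (P : ℂ ⊗[ℚ] M) :
    P ∈ L.baseChange ℂ ↔ ∀ φ : ℂ →ₗ[ℚ] ℚ, cf φ P ∈ L := by
  constructor
  · rintro ⟨P', rfl⟩ φ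
    rw [cf_map]
    exact (cf φ P').2
  · classical
    intro h
    have b := Module.Free.chooseBasis ℚ ℂ
    have e : P = ((TensorProduct.equivFinsuppOfBasisLeft b) P).sum fun i m => b i ⊗ₜ[ℚ] m := by
      rw [← TensorProduct.equivFinsuppOfBasisLeft_symm_apply, LinearEquiv.symm_apply_apply]
    rw [e]
    refine Submodule.sum_mem _ fun i _ => ?_
    rw [TensorProduct.equivFinsuppOfBasisLeft_apply]
    exact Submodule.tmul_mem_baseChange_of_mem _ (h (b.coord i))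

/-- the smallest subspace closed under the bracket `br` -/
def gen (br : M → M → M) (j : ℂ ⊗[ℚ] M) : Submodule ℚ M :=
  sInf {L | (∀ A ∈ L, ∀ B ∈ L, br A B ∈ L) ∧ j ∈ L.baseChange ℂ}

lemma gen_br (br : M → M → M) (j : ℂ ⊗[ℚ] M) {A B : M} (hA : A ∈ gen br j) (hB : B ∈ gen br j) :
    br A B ∈ gen br j := by
  rw [gen, Submodule.mem_sInf] at hA hB ⊢
  intro L hL
  exact hL.1 _ (hA L hL) _ (hB L hL)

lemma mem_gen (br : M → M → M) (j : ℂ ⊗[ℚ] M) : j ∈ (gen br j).baseChange ℂ := by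
  rw [mem_bc_iff]
  intro φ
  rw [gen, Submodule.mem_sInf]
  intro L hL
  exact (mem_bc_iff L j).1 hL.2 φ

end

theorem mtLie_map {M R : Type} [AddCommGroup M] [Module ℚ M] [Ring R] [Algebra ℚ R]
    (br : M → M → M) (j : ℂ ⊗[ℚ] M) (f : M →ₗ[ℚ] R)
    (hf : ∀ x y, f (br x y) = f x * f y - f y * f x) :
    mtLie (f.baseChange ℂ j) = (gen br j).map f := by
  apply le_antisymm
  · refine sInf_le ⟨?_, ?_⟩
    · rintro _ ⟨x, hx, rfl⟩ _ ⟨y, hy, rfl⟩
      exact ⟨br x y, gen_br br j hx hy, hf x y⟩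
    · rw [mem_bc_iff]
      intro φ
      rw [cf_map]
      exact ⟨_, (mem_bc_iff _ _).1 (mem_gen br j) φ, rfl⟩
  · refine le_sInf ?_
    rintro L ⟨h1, h2⟩
    rw [Submodule.map_le_iff_le_comap]
    refine sInf_le ⟨?_, ?_⟩
    · intro x hx y hy
      change f (br x y) ∈ L
      rw [hf]
      exact h1 _ hx _ hy
    · rw [mem_bc_iff]
      intro φ
      change f (cf φ j) ∈ L
      rw [← cf_map]
      exact (mem_bc_iff _ _).1 h2 φ

section

variable {d : ℕ} {c : ℚ}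

lemma skew_comm {V : Type} [AddCommGroup V] [Module ℚ V] {q : LinearMap.BilinForm ℚ V}
    {A B : Module.End ℚ V} (hA : Skew q A) (hB : Skew q B) : Skew q (A * B - B * A) := by
  intro x y
  have h1 := hA (B x) y
  have h2 := hB x (A y)
  have h3 := hB (A x) y
  have h4 := hA x (B y)
  simp only [LinearMap.sub_apply, Module.End.mul_apply, map_sub, LinearMap.sub_apply]
  linear_combination h1 - h2 - h3 + h4

/-- the bracket of `so(H²) ⊕ ℚ` -/
def br (Y : Cohomology ℚ d c) (x y : (so Y.q) × ℚ) : (so Y.q) × ℚ :=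
  (⟨x.1.1 * y.1.1 - y.1.1 * x.1.1, skew_comm x.1.2 y.1.2⟩, 0)

/-- the action of `so(H²) ⊕ ℚ` -/
noncomputable def fI (Y : Cohomology ℚ d c) (I : Finset ℕ) :
    (so Y.q) × ℚ →ₗ[ℚ] (∀ i : I, Module.End ℚ (Y.H i)) :=
  (LinearMap.pi fun i : I => Y.ρ i) ∘ₗ (so Y.q).subtype ∘ₗ LinearMap.fst ℚ _ _ +
    (LinearMap.toSpanSingleton ℚ _
      (fun i : I => ((i : ℚ) / 2) • (1 : Module.End ℚ (Y.H i)))) ∘ₗ LinearMap.snd ℚ _ _

lemma fI_apply (Y : Cohomology ℚ d c) (I : Finset ℕ) (x : (so Y.q) × ℚ) :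
    fI Y I x = RR Y I x.1.1 x.2 := by
  funext i
  simp only [fI, RR, LinearMap.add_apply, LinearMap.comp_apply, LinearMap.pi_apply,
    LinearMap.fst_apply, LinearMap.snd_apply, Submodule.subtype_apply,
    LinearMap.toSpanSingleton_apply, Pi.add_apply, Pi.smul_apply, smul_smul]
  rw [mul_comm x.2]

lemma fI_br (Y : Cohomology ℚ d c) (I : Finset ℕ) (x y : (so Y.q) × ℚ) :
    fI Y I (br Y x y) = fI Y I x * fI Y I y - fI Y I y * fI Y I x := by
  funext i
  rw [Pi.sub_apply, Pi.mul_apply, Pi.mul_apply, fI_apply, fI_apply, fI_apply]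
  simp only [RR, br, mul_zero, zero_smul, add_zero]
  rw [Y.bracket i x.1.1 y.1.1 x.1.2 y.1.2]
  simp only [add_mul, mul_add, smul_mul_assoc, mul_smul_comm, one_mul, mul_one, smul_add,
    smul_smul]
  rw [mul_comm ((i : ℚ) / 2 * y.2) ((i : ℚ) / 2 * x.2)]
  abel

/-- the action on `H²` is faithful -/
lemma RR_two_inj {K : Type} [Field K] [CharZero K] (Y : Cohomology K d c)
    {A A' : Module.End K (Y.H 2)} {t t' : K} (hA : Skew Y.q A) (hA' : Skew Y.q A')
    (h : RR Y {2} A t = RR Y {2} A' t') : A = A' ∧ t = t' := by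
  have h2 := congrFun h ⟨2, Finset.mem_singleton_self 2⟩
  simp only [RR] at h2
  rw [Y.ρ_two A hA, Y.ρ_two A' hA'] at h2
  have hd := Y.dim3
  have : Nontrivial (Y.H 2) := Module.nontrivial_of_finrank_pos (R := K) (by omega)
  obtain ⟨u, hu⟩ := exists_ne (0 : Y.H 2)
  have hv : ∃ v, Y.q u v ≠ 0 := by
    by_contra hc
    push Not at hc
    exact hu (Y.nondeg.1 u hc)
  obtain ⟨v, hv⟩ := hv
  have e1 : ∀ w, A w = A' w + (t' - t) • w := by
    intro w
    have h3 := congrArg (fun f : Module.End K (Y.H 2) => f w) h2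
    simp only [LinearMap.add_apply, LinearMap.smul_apply, Module.End.one_apply] at h3
    have h4 : (((2 : ℕ) : K) / 2) = 1 := by
      rw [Nat.cast_ofNat]
      exact div_self two_ne_zero
    rw [h4, one_mul, one_mul] at h3
    rw [sub_smul, ← add_sub_assoc, ← h3, add_sub_cancel_right]
  have hx := hA u v
  have hy := hA' u v
  rw [e1 u, e1 v] at hx
  simp only [map_add, map_smul, LinearMap.add_apply, LinearMap.smul_apply, smul_eq_mul] at hx
  have h5 : 2 * (t' - t) * Y.q u v = 0 := by linear_combination hx - hy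
  have h6 : t' = t := by
    rcases mul_eq_zero.1 h5 with h | h
    · rcases mul_eq_zero.1 h with h | h
      · exact absurd h two_ne_zero
      · exact sub_eq_zero.1 h
    · exact absurd h hv
  refine ⟨LinearMap.ext fun w => ?_, h6.symm⟩
  rw [e1 w, h6, sub_self, zero_smul, add_zero]

lemma fI_two_inj (Y : Cohomology ℚ d c) {x y : (so Y.q) × ℚ} (h : fI Y {2} x = fI Y {2} y) :
    x = y := by
  rw [fI_apply, fI_apply] at h
  obtain ⟨h1, h2⟩ := RR_two_inj Y x.1.2 y.1.2 h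
  exact Prod.ext (Subtype.ext h1) h2

end

variable {K : Type} [Field K] [NumberField K] {ℓ : ℕ} [Fact ℓ.Prime] {X : HKVariety K ℂ_[ℓ]}

lemma exists_j (D : Realizations X) : ∃ j : ℂ ⊗[ℚ] ((so D.B.q) × ℚ),
    ∀ I : Finset ℕ, D.hodge I = (fI D.B I).baseChange ℂ j := by
  obtain ⟨J', hJ⟩ := D.skew
  refine ⟨(LinearMap.inl ℚ (so D.B.q) ℚ).baseChange ℂ J' + (1 : ℂ) ⊗ₜ ((0, 1) : (so D.B.q) × ℚ), ?_⟩
  intro I
  rw [map_add, LinearMap.baseChange_tmul, Realizations.hodge, ← hJ]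
  congr 1
  · rw [← LinearMap.comp_apply, ← LinearMap.comp_apply, ← LinearMap.baseChange_comp,
      ← LinearMap.baseChange_comp]
    congr 2
    refine LinearMap.ext fun A => ?_
    rw [LinearMap.comp_apply, LinearMap.comp_apply, LinearMap.inl_apply, fI_apply]
    funext i
    simp [RR]
  · congr 1
    rw [fI_apply]
    funext i
    simp [RR]

theorem t_MTL : S_MTL := by
  intro K _ _ ℓ _ X D I Z
  obtain ⟨j, hj⟩ := exists_j D
  rw [hj I, hj {2}, mtLie_map (br D.B) j _ (fI_br D.B I), mtLie_map (br D.B) j _ (fI_br D.B {2})]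
  constructor
  · rintro ⟨x, hx, rfl⟩
    refine ⟨x.1.1, x.2, x.1.2, ⟨x, hx, fI_apply _ _ _⟩, fI_apply _ _ _⟩
  · rintro ⟨A, t, hA, ⟨x, hx, h⟩, rfl⟩
    have e : fI D.B {2} (⟨A, hA⟩, t) = RR D.B {2} A t := fI_apply D.B {2} (⟨A, hA⟩, t)
    rw [← e] at h
    rw [fI_two_inj D.B h] at hx
    exact ⟨(⟨A, hA⟩, t), hx, fI_apply _ _ _⟩

end Pool.Agent.T2h11.MT.MTL
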