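import Pool.Agent.T2h11.MT.Sm

/-!
# Task ONE: an element close to one which acts trivially on the commutant acts through the
exponential
-/

set_option autoImplicit false

namespace Pool.Agent.T2h11.MT.ONE

open Module Module.End NumberField IsDedekindDomain TensorProduct Polynomial
open Pool.Agent.W401.Cheb Pool.Agent.N184.HK Pool.Agent.T2h11.PHK Pool.Agent.T2h11.MT
open scoped Classical

section alg

variable {Ω H : Type} [Field Ω] [AddCommGroup H] [Module Ω H] [FiniteDimensional Ω H]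

lemma det_scalar [CharZero Ω] [IsAlgClosed Ω] {z : Module.End Ω H} (hz : z * z = z) {n : ℕ}
    (hn : LinearMap.trace Ω H z = n) (x : Ω) :
    LinearMap.det (x • z + (1 - z)) = x ^ n := by
  obtain ⟨s, hs, hcard, hdet, -⟩ := t_detp Ω H (x • (1 : Module.End Ω H)) z
    ((Commute.one_left z).smul_left x) hz
  have h1 : ∀ e ∈ s, e = x := by
    intro e he
    have h2 := hs e he
    rw [Polynomial.mem_roots (LinearMap.charpoly_monic _).ne_zero,
      ← Module.End.hasEigenvalue_iff_isRoot_charpoly] at h2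
    obtain ⟨v, hv⟩ := h2.exists_hasEigenvector
    have h3 : x • v = e • v := by
      have := hv.apply_eq_smul
      simpa using this
    have h4 : (x - e) • v = 0 := by rw [sub_smul, h3, sub_self]
    rcases smul_eq_zero.1 h4 with h5 | h5
    · exact (sub_eq_zero.1 h5).symm
    · exact absurd h5 hv.2
  have h2 : Multiset.card s = n := by
    have : ((Multiset.card s : ℕ) : Ω) = n := by rw [← hcard, hn]
    exact_mod_cast this
  have h3 : s = Multiset.replicate n x := by
    rw [← h2]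
    exact Multiset.eq_replicate_card.2 h1
  rw [smul_mul_assoc, one_mul] at hdet
  rw [hdet, h3, Multiset.prod_replicate]

/-- A central nilpotent element of the commutant of a completely reducible family vanishes. -/
lemma nil_zero_sq {S : Set (Module.End Ω H)}
    (hss : ∀ W : Submodule Ω H, (∀ s ∈ S, ∀ x ∈ W, s x ∈ W) →
      ∃ W' : Submodule Ω H, (∀ s ∈ S, ∀ x ∈ W', s x ∈ W') ∧ IsCompl W W')
    {m : Module.End Ω H} (hm : ∀ s ∈ S, Commute s m)
    (hmc : ∀ a : Module.End Ω H, (∀ s ∈ S, Commute s a) → Commute a m) (hmm : m * m = 0) :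
    m = 0 := by
  obtain ⟨W', hW', hc⟩ := hss (LinearMap.ker m) (fun s hs x hx => by
    rw [LinearMap.mem_ker] at hx ⊢
    have h1 : (m * s) x = (s * m) x := by rw [(hm s hs).eq]
    rw [Module.End.mul_apply, Module.End.mul_apply, hx, map_zero] at h1
    exact h1)
  set W := LinearMap.ker m with hW
  set p : Module.End Ω H := W.subtype ∘ₗ W.projectionOnto W' hc with hp
  have hpW : ∀ x ∈ W, p x = x := fun x hx => by
    rw [hp, LinearMap.comp_apply]
    have := Submodule.projectionOnto_apply_left hc ⟨x, hx⟩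
    exact congrArg Subtype.val this
  have hpW' : ∀ x ∈ W', p x = 0 := fun x hx => by
    rw [hp, LinearMap.comp_apply]
    have := Submodule.projectionOnto_apply_right hc ⟨x, hx⟩
    exact congrArg Subtype.val this
  have hpm : ∀ x, p x ∈ W := fun x => (W.projectionOnto W' hc x).2
  have hWst : ∀ s ∈ S, ∀ x ∈ W, s x ∈ W := fun s hs x hx => by
    rw [hW, LinearMap.mem_ker] at hx ⊢
    have h1 : (m * s) x = (s * m) x := by rw [(hm s hs).eq]
    rw [Module.End.mul_apply, Module.End.mul_apply, hx, map_zero] at h1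
    exact h1
  have hps : ∀ s ∈ S, Commute s p := by
    intro s hs
    ext x
    obtain ⟨w, hw, w', hw', rfl⟩ : ∃ w ∈ W, ∃ w' ∈ W', w + w' = x := by
      have := hc.sup_eq_top
      have h1 : x ∈ W ⊔ W' := by rw [this]; exact Submodule.mem_top
      exact Submodule.mem_sup.1 h1
    rw [Module.End.mul_apply, Module.End.mul_apply, map_add, map_add, map_add, map_add, hpW w hw,
      hpW' w' hw', hpW _ (hWst s hs w hw), hpW' _ (hW' s hs w' hw'), map_zero]
  have hcm := hmc p hps
  have h1 : m * p = 0 := by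
    ext x
    exact LinearMap.mem_ker.1 (hpm x)
  have h2 : p * m = m := by
    ext x
    refine hpW _ ?_
    rw [hW, LinearMap.mem_ker]
    exact congrArg (fun f : Module.End Ω H => f x) hmm
  rw [← h2, hcm.eq, h1]

lemma nil_zero {S : Set (Module.End Ω H)}
    (hss : ∀ W : Submodule Ω H, (∀ s ∈ S, ∀ x ∈ W, s x ∈ W) →
      ∃ W' : Submodule Ω H, (∀ s ∈ S, ∀ x ∈ W', s x ∈ W') ∧ IsCompl W W')
    {m : Module.End Ω H} (hm : ∀ s ∈ S, Commute s m)
    (hmc : ∀ a : Module.End Ω H, (∀ s ∈ S, Commute s a) → Commute a m) (hn : IsNilpotent m) :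
    m = 0 := by
  by_contra h0
  obtain ⟨k, hk⟩ := hn
  have hex : ∃ k, m ^ k = 0 := ⟨k, hk⟩
  set j := Nat.find hex with hj
  have hj0 : m ^ j = 0 := Nat.find_spec hex
  have hj1 : j ≠ 0 := by
    intro h
    rw [h, pow_zero] at hj0
    exact h0 (by rw [← mul_one m, hj0, mul_zero])
  have hj2 : j ≠ 1 := by
    intro h
    rw [h, pow_one] at hj0
    exact h0 hj0
  have h1 : m ^ (j - 1) = 0 := by
    refine nil_zero_sq hss (fun s hs => (hm s hs).pow_right _)
      (fun a ha => (hmc a ha).pow_right _) ?_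
    rw [← pow_add]
    have : j - 1 + (j - 1) = j + (j - 2) := by omega
    rw [this, pow_add, hj0, zero_mul]
  exact Nat.find_min hex (m := j - 1) (by omega) h1

lemma fin_idem_ring (R : Type) [CommRing R] [Algebra Ω R] [Module.Finite Ω R] :
    Finite {e : R // IsIdempotentElem e} := by
  have : IsArtinianRing R := IsArtinianRing.of_finite Ω R
  have : Finite (PrimeSpectrum R) := inferInstance
  have : Finite (TopologicalSpace.Clopens (PrimeSpectrum R)) :=
    Finite.of_injective (fun s => (s : Set (PrimeSpectrum R))) SetLike.coe_injective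
  exact Finite.of_equiv _ (PrimeSpectrum.isIdempotentElemEquivClopens (R := R)).toEquiv.symm

lemma finite_idem (S : Set (Module.End Ω H)) :
    {z : Module.End Ω H | (∀ s ∈ S, Commute s z) ∧
      (∀ a : Module.End Ω H, (∀ s ∈ S, Commute s a) → Commute a z) ∧ z * z = z}.Finite := by
  let A := Subalgebra.centralizer Ω S
  let R := Subalgebra.center Ω A
  have : Finite {e : R // IsIdempotentElem e} := fin_idem_ring (Ω := Ω) R
  have hmemA : ∀ z : Module.End Ω H, (∀ s ∈ S, Commute s z) → z ∈ A := fun z hz =>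
    (Subalgebra.mem_centralizer_iff Ω).2 fun s hs => (hz s hs).eq
  refine Set.Finite.subset (Set.finite_range
    (fun e : {e : R // IsIdempotentElem e} => ((e.1 : A) : Module.End Ω H))) ?_
  rintro z ⟨h1, h2, h3⟩
  have h4 : (⟨z, hmemA z h1⟩ : A) ∈ R := by
    rw [Subalgebra.mem_center_iff]
    rintro ⟨b, hb⟩
    apply Subtype.ext
    exact (h2 b fun s hs => ((Subalgebra.mem_centralizer_iff Ω).1 hb) s hs).eq
  exact ⟨⟨⟨⟨z, hmemA z h1⟩, h4⟩, by
    apply Subtype.ext
    apply Subtype.ext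
    exact h3⟩, rfl⟩

end alg

lemma finite_bound {Ω H : Type} [NormedField Ω] [AddCommGroup H] [Module Ω H]
    [FiniteDimensional Ω H] {F : Set (Module.End Ω H)} (hF : F.Finite) :
    ∃ C : ℝ, 0 < C ∧ ∀ z ∈ F, Small C z := by
  induction F, hF using Set.Finite.induction_on with
  | empty => exact ⟨1, one_pos, fun z hz => absurd hz (Set.notMem_empty z)⟩
  | insert _ _ ih =>
    rename_i a s _ _
    obtain ⟨C, hC, h⟩ := ih
    refine ⟨C + ∑ j, ∑ k, ‖LinearMap.toMatrix (finBasis Ω H) (finBasis Ω H) a j k‖, ?_, ?_⟩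
    · have : 0 ≤ ∑ j, ∑ k, ‖LinearMap.toMatrix (finBasis Ω H) (finBasis Ω H) a j k‖ :=
        Finset.sum_nonneg fun _ _ => Finset.sum_nonneg fun _ _ => norm_nonneg _
      linarith
    · have h0 : 0 ≤ ∑ j, ∑ k, ‖LinearMap.toMatrix (finBasis Ω H) (finBasis Ω H) a j k‖ :=
        Finset.sum_nonneg fun _ _ => Finset.sum_nonneg fun _ _ => norm_nonneg _
      rintro z (rfl | hz)
      · intro j k
        have h1 : ‖LinearMap.toMatrix (finBasis Ω H) (finBasis Ω H) z j k‖ ≤
            ∑ k, ‖LinearMap.toMatrix (finBasis Ω H) (finBasis Ω H) z j k‖ :=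
          Finset.single_le_sum (f := fun k =>
            ‖LinearMap.toMatrix (finBasis Ω H) (finBasis Ω H) z j k‖)
            (fun _ _ => norm_nonneg _) (Finset.mem_univ k)
        have h2 : ∑ k, ‖LinearMap.toMatrix (finBasis Ω H) (finBasis Ω H) z j k‖ ≤
            ∑ j, ∑ k, ‖LinearMap.toMatrix (finBasis Ω H) (finBasis Ω H) z j k‖ :=
          Finset.single_le_sum (f := fun j => ∑ k,
            ‖LinearMap.toMatrix (finBasis Ω H) (finBasis Ω H) z j k‖)
            (fun _ _ => Finset.sum_nonneg fun _ _ => norm_nonneg _) (Finset.mem_univ j)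
        linarith
      · exact (h z hz).mono (by linarith)

lemma root_close {Ω : Type} [NormedField Ω] (B : ℕ) (hB : 0 < B) :
    ∃ δ : ℝ, 0 < δ ∧ ∀ x : Ω, x ^ B = 1 → ‖x - 1‖ ≤ δ → x = 1 := by
  set S : Finset Ω := (nthRoots B (1 : Ω)).toFinset.erase 1 with hS
  have hcl : IsOpen ((S : Set Ω)ᶜ) := S.finite_toSet.isClosed.isOpen_compl
  have h1 : (1 : Ω) ∈ ((S : Set Ω)ᶜ) := by
    intro h
    exact (Finset.mem_erase.1 (Finset.mem_coe.1 h)).1 rfl
  obtain ⟨δ, hδ, hball⟩ := Metric.isOpen_iff.1 hcl 1 h1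
  refine ⟨δ / 2, half_pos hδ, fun x hx hx1 => ?_⟩
  by_contra hne
  have h2 : x ∈ Metric.ball (1 : Ω) δ := by
    rw [Metric.mem_ball, dist_eq_norm]
    exact lt_of_le_of_lt hx1 (half_lt_self hδ)
  refine hball h2 ?_
  rw [Finset.mem_coe, hS, Finset.mem_erase, Multiset.mem_toFinset, mem_nthRoots hB]
  exact ⟨hne, hx⟩

theorem t_ONE (hE : S_EXP) (hS : S_SXP) (hD : S_DET) (hC : S_CNJ) : S_ONE := by
  intro K _ _ ℓ _ X D i hi
  obtain ⟨rE, hrE, E1, E2, E3, E4, E5⟩ := hE ℓ (X.E.X.H i)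
  obtain ⟨rS, hrS, S1, S2, S3, S4⟩ := hS ℓ
  obtain ⟨rD, hrD, D1⟩ := hD ℓ (X.E.X.H i)
  obtain ⟨rC, hrC, C1⟩ := hC ℓ X.d X.c X.E.X i
  obtain ⟨Cρ, hCρ, hρ⟩ := small_lin (X.E.X.ρ i)
  set S : Set (Module.End ℂ_[ℓ] (X.E.X.H i)) := {s | ∃ A, Skew X.E.X.q A ∧ s = X.E.X.ρ i A} with hSdef
  obtain ⟨Cz, hCz, hz⟩ := finite_bound (finite_idem S)
  set κ : ℝ := ‖(i : ℂ_[ℓ]) / 2‖ + 1 with hκ
  have hκ0 : 0 < κ := by positivity
  set N := finrank ℂ_[ℓ] (X.E.X.H i) with hN
  set B : ℕ := ∏ n ∈ Finset.Icc 1 N, (4 * expo2 X i n * n) with hB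
  have hB0 : 0 < B := Finset.prod_pos fun n hn => by
    have h1 := expo2_pos X i n
    have h2 := (Finset.mem_Icc.1 hn).1
    positivity
  obtain ⟨δ, hδ, hroot⟩ := root_close (Ω := ℂ_[ℓ]) B hB0
  obtain ⟨δ', hδ', hE5⟩ := E5 (min δ 1) (lt_min hδ one_pos)
  set ρ0 : ℝ := min rE (min δ' (min rC (min rD (min rS (min δ 1))))) with hρ0
  have hρpos : 0 < ρ0 := lt_min hrE (lt_min hδ' (lt_min hrC (lt_min hrD (lt_min hrS
    (lt_min hδ one_pos)))))
  have l1 : ρ0 ≤ rE := min_le_left _ _
  have l2 : ρ0 ≤ δ' := (min_le_right _ _).trans (min_le_left _ _)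
  have l3 : ρ0 ≤ rC := (min_le_right _ _).trans ((min_le_right _ _).trans (min_le_left _ _))
  have l4 : ρ0 ≤ rD := (min_le_right _ _).trans ((min_le_right _ _).trans
    ((min_le_right _ _).trans (min_le_left _ _)))
  have l5 : ρ0 ≤ rS := (min_le_right _ _).trans ((min_le_right _ _).trans
    ((min_le_right _ _).trans ((min_le_right _ _).trans (min_le_left _ _))))
  have l6 : ρ0 ≤ min δ 1 := (min_le_right _ _).trans ((min_le_right _ _).trans
    ((min_le_right _ _).trans ((min_le_right _ _).trans (min_le_right _ _))))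
  set m : ℝ := (1 + Cρ) * (1 + κ) with hm
  have hm1 : 1 ≤ m := by rw [hm]; nlinarith
  have hmC : Cρ ≤ m := by rw [hm]; nlinarith
  have hmκ : κ ≤ m := by rw [hm]; nlinarith
  set ε : ℝ := ρ0 / (m * (1 + Cz)) with hε
  have hden : 0 < m * (1 + Cz) := by positivity
  have hεpos : 0 < ε := div_pos hρpos hden
  have hεm : m * (1 + Cz) * ε = ρ0 := by rw [hε]; field_simp
  have h1m : m * ε ≤ ρ0 := by
    rw [← hεm]
    have : m * ε ≤ m * ε * (1 + Cz) := le_mul_of_one_le_right (by positivity) (by linarith)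
    linarith [this, mul_right_comm m ε (1 + Cz)]
  have h1z : m * ε * Cz ≤ ρ0 := by
    rw [← hεm]
    have h9 : 0 ≤ m * ε := by positivity
    nlinarith
  have h1ε : ε ≤ ρ0 := by
    have h9 : ε ≤ m * ε := le_mul_of_one_le_left hεpos.le hm1
    linarith
  refine ⟨ε, hεpos, ?_⟩
  intro σ A t hA hAs hts hΦs hexp2 hμ hcen
  set T : Module.End ℂ_[ℓ] (X.E.X.H i) := X.E.X.ρ i A + ((i : ℂ_[ℓ]) / 2 * t) • 1 with hT
  set Φ := X.E.Φ σ i with hΦ
  have hs : ‖(i : ℂ_[ℓ]) / 2 * t‖ ≤ κ * ε := by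
    rw [norm_mul]
    refine mul_le_mul ?_ hts (norm_nonneg _) hκ0.le
    rw [hκ]; linarith
  have hTs : Small (m * ε) T := by
    refine Small.add ?_ ?_
    · exact (hρ ε A hεpos.le hAs).mono (mul_le_mul_of_nonneg_right hmC hεpos.le)
    · have := (small_one (Ω := ℂ_[ℓ]) (V := X.E.X.H i)).smul hs
      rw [mul_one] at this
      exact this.mono (mul_le_mul_of_nonneg_right hmκ hεpos.le)
  have hTE : Small rE T := hTs.mono (h1m.trans l1)
  obtain ⟨g, hg⟩ := E1 T hTE
  obtain ⟨h, hh⟩ := E1 (-T) hTE.neg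
  have hgh : g * h = 1 := by
    have h1 := E2 T (-T) g h hTE hTE.neg (Commute.neg_right (Commute.refl T)) hg hh
    rw [add_neg_cancel] at h1
    exact h1.unique isExp_zero
  have hhg : h * g = 1 := by
    have h1 := E2 (-T) T h g hTE.neg hTE (Commute.neg_left (Commute.refl T)) hh hg
    rw [neg_add_cancel] at h1
    exact h1.unique isExp_zero
  set c : Module.End ℂ_[ℓ] (X.E.X.H i) := h * Φ with hc
  have hgc : g * c = Φ := by rw [hc, ← mul_assoc, hgh, one_mul]
  -- `c` commutes with `so(H²)`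
  have hcS : ∀ s ∈ S, Commute s c := by
    rintro s ⟨A', hA', rfl⟩
    have h1 := C1 ((X.E.F σ).φ 2) A t ((i : ℂ_[ℓ]) / 2 * t) g hA (hAs.mono (h1ε.trans l3))
      (hts.trans (h1ε.trans l3)) (hs.trans ((mul_le_mul_of_nonneg_right hmκ hεpos.le).trans
        (h1m.trans l3))) hexp2 hg A' hA'
    have h2 := (X.E.F σ).equi i A'
    set B' := X.E.X.ρ i (((X.E.F σ).φ 2).toLinearMap ∘ₗ A' ∘ₗ ((X.E.F σ).φ 2).symm.toLinearMap)
    have h3 : Φ * X.E.X.ρ i A' = B' * Φ := h2
    have h4 : h * B' = X.E.X.ρ i A' * h := by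
      calc h * B' = h * B' * (g * h) := by rw [hgh, mul_one]
        _ = h * (B' * g) * h := by simp only [mul_assoc]
        _ = h * (g * X.E.X.ρ i A') * h := by rw [h1]
        _ = (h * g) * X.E.X.ρ i A' * h := by simp only [mul_assoc]
        _ = X.E.X.ρ i A' * h := by rw [hhg, one_mul]
    change X.E.X.ρ i A' * (h * Φ) = (h * Φ) * X.E.X.ρ i A'
    rw [mul_assoc h, h3, ← mul_assoc, ← h4, mul_assoc]
  -- elements of the commutant
  have hScen : ∀ a : Module.End ℂ_[ℓ] (X.E.X.H i), (∀ s ∈ S, Commute s a) → a ∈ cen X.E.X i :=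
    fun a ha A' hA' => ha _ ⟨A', hA', rfl⟩
  have hcenS : ∀ a ∈ cen X.E.X i, ∀ s ∈ S, Commute s a := by
    rintro a ha s ⟨A', hA', rfl⟩
    exact ha A' hA'
  have haT : ∀ a ∈ cen X.E.X i, Commute a T := fun a ha =>
    ((ha A hA).symm).add_right ((Commute.one_right a).smul_right _)
  have hcc : ∀ a : Module.End ℂ_[ℓ] (X.E.X.H i), (∀ s ∈ S, Commute s a) → Commute a c := by
    intro a ha
    have ha' := hScen a ha
    exact (hh.comm (Commute.neg_right (haT a ha'))).mul_right (hcen a ha')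
  have hss : ∀ W : Submodule ℂ_[ℓ] (X.E.X.H i), (∀ s ∈ S, ∀ x ∈ W, s x ∈ W) →
      ∃ W' : Submodule ℂ_[ℓ] (X.E.X.H i), (∀ s ∈ S, ∀ x ∈ W', s x ∈ W') ∧ IsCompl W W' := by
    intro W hW
    obtain ⟨W', h1, h2⟩ := D.semisimple i hi W fun A' hA' x hx => hW _ ⟨A', hA', rfl⟩ x hx
    exact ⟨W', by rintro s ⟨A', hA', rfl⟩ x hx; exact h1 A' hA' x hx, h2⟩
  -- `c` is diagonalizable
  have hcd : c = fop c (fun x => x) := by
    refine sub_eq_zero.1 (nil_zero hss (fun s hs => ?_) (fun a ha => ?_) (nil_part c))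
    · exact (hcS s hs).sub_right (fop_comm (hcS s hs) _)
    · exact (hcc a ha).sub_right (fop_comm (hcc a ha) _)
  have hhs : Small (min δ 1) (h - 1) := hE5 (-T) h (hTs.neg.mono (h1m.trans l2)) hh
  have hcs : Small (min δ 1) (c - 1) := by
    have e1 : c - 1 = (h - 1) * (Φ - 1) + ((h - 1) + (Φ - 1)) := by
      rw [hc, sub_mul, mul_sub, mul_one, one_mul]; abel
    have hΦs' : Small (min δ 1) (Φ - 1) := hΦs.mono (h1ε.trans l6)
    have h0 : 0 ≤ min δ 1 := (lt_min hδ one_pos).le
    rw [e1]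
    refine Small.add ((Small.mul h0 h0 hhs hΦs').mono ?_) (Small.add hhs hΦs')
    exact mul_le_of_le_one_right h0 (min_le_right _ _)
  have hpow : ∀ (k : ℕ) (x y : ℂ_[ℓ]), ‖x‖ ≤ rS → SExp x y → SExp ((k : ℂ_[ℓ]) * x) (y ^ k) := by
    intro k x y hx hxy
    induction k with
    | zero => rw [Nat.cast_zero, zero_mul, pow_zero]; exact sExp_zero
    | succ k ih =>
      rw [Nat.cast_succ, add_mul, one_mul, pow_succ]
      refine S2 _ _ _ _ ?_ hx ih hxy
      rw [norm_mul]
      exact (mul_le_of_le_one_left (norm_nonneg _) (norm_nat_le k)).trans hx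
  have hμ0 : X.E.mu σ ≠ 0 := (X.E.F σ).μ_ne
  -- all eigenvalues of `c` are one
  have hone : ∀ x : ℂ_[ℓ], c.HasEigenvalue x → x = 1 := by
    intro x hx
    have hx1 : ‖x - 1‖ ≤ δ := by
      have h1 : (c - 1).HasEigenvalue (x - 1) := by
        obtain ⟨v, hv⟩ := hx.exists_hasEigenvector
        refine Module.End.hasEigenvalue_of_hasEigenvector (x := v) ?_
        rw [Module.End.hasEigenvector_iff] at hv ⊢
        refine ⟨?_, hv.2⟩
        have h2 := Module.End.mem_eigenspace_iff.1 hv.1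
        rw [Module.End.mem_eigenspace_iff, LinearMap.sub_apply, h2, sub_smul, one_smul]
        rfl
      exact (hcs.eig h1).trans (min_le_left _ _)
    refine hroot x ?_ hx1
    -- the projection onto the eigenspace
    set z := fop c (fun y => if y = x then 1 else 0) with hzdef
    have hzb : ∀ U, Commute U c → Commute U z := fun U hU => fop_comm hU _
    have hzz : z * z = z := by
      rw [hzdef, fop_mul]
      congr 1
      funext y
      split_ifs <;> simp
    have hczx : c * z = x • z := by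
      refine ext_gen c fun e y hy => ?_
      rw [Module.End.mul_apply, LinearMap.smul_apply, fop_apply _ hy, map_smul]
      have h2 : c y = e • y := by
        conv_lhs => rw [hcd]
        exact fop_apply _ hy
      rw [h2]
      split_ifs with h3
      · rw [h3, one_smul, one_smul]
      · rw [zero_smul, zero_smul, smul_zero]
    have hz0 : z ≠ 0 := by
      intro h0
      obtain ⟨v, hv⟩ := hx.exists_hasEigenvector
      have h2 : v ∈ c.maxGenEigenspace x := by
        rw [Module.End.mem_maxGenEigenspace]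
        refine ⟨1, ?_⟩
        rw [pow_one, LinearMap.sub_apply, hv.apply_eq_smul]
        exact sub_self _
      have h3 := fop_apply (φ := c) (fun y => if y = x then (1 : ℂ_[ℓ]) else 0) h2
      rw [← hzdef, h0, LinearMap.zero_apply, if_pos rfl, one_smul] at h3
      exact hv.2 h3.symm
    obtain ⟨n, hnN, hn⟩ := P_OPEN.tr_mem hzz
    have hn0 : n ≠ 0 := by
      intro h0
      rw [h0, Nat.cast_zero] at hn
      exact hz0 (LinearMap.IsIdempotentElem.eq_zero_of_trace_eq_zero hzz hn)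
    have hzS : ∀ s ∈ S, Commute s z := fun s hs => hzb s (hcS s hs)
    have hzcen : z ∈ cen X.E.X i := hScen z hzS
    have hzc : ∀ a : Module.End ℂ_[ℓ] (X.E.X.H i), (∀ s ∈ S, Commute s a) → Commute a z :=
      fun a ha => hzb a (hcc a ha)
    have hzc' : ∀ a ∈ cen X.E.X i, Commute a z := fun a ha => hzc a (hcenS a ha)
    have hzΦ : Commute Φ z := (hcen z hzcen).symm
    have hdet := gal_det hi hzcen hzc' hzz hn σ hzΦ
    have hTz : Commute T z := (haT z hzcen).symm
    have hexpz := hg.idem hTz hzz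
    have hzs : Small Cz z := hz z ⟨hzS, hzc, hzz⟩
    have hTzs : Small rD (T * z) :=
      (Small.mul (by positivity) hCz.le hTs hzs).mono (h1z.trans l4)
    have hd := D1 (T * z) _ hTzs hexpz
    have htr : LinearMap.trace ℂ_[ℓ] (X.E.X.H i) (T * z) = (i : ℂ_[ℓ]) / 2 * t * n := by
      rw [hT, add_mul, map_add, tr_rho_mul hA (fun B' hB' => hzcen B' hB'), zero_add,
        smul_mul_assoc, one_mul, map_smul, hn, smul_eq_mul]
    rw [htr] at hd
    set y := LinearMap.det (g * z + (1 - z)) with hy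
    have hsplit : LinearMap.det (Φ * z + (1 - z)) = y * x ^ n := by
      have e1 : Φ * z + (1 - z) = (g * z + (1 - z)) * (x • z + (1 - z)) := by
        have e2 : z * (1 - z) = 0 := by rw [mul_sub, mul_one, hzz, sub_self]
        have e3 : (1 - z) * z = 0 := by rw [sub_mul, one_mul, hzz, sub_self]
        have e4 : (1 - z) * (1 - z) = 1 - z := by rw [mul_sub, mul_one, e3, sub_zero]
        have e5 : g * z * (x • z) = Φ * z := by
          rw [mul_smul_comm, mul_assoc, hzz, ← hgc, mul_assoc, hczx, mul_smul_comm]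
        rw [mul_add, add_mul, add_mul, e5, mul_smul_comm, e3, smul_zero, add_zero, mul_assoc g,
          e2, mul_zero, zero_add, e4]
      rw [e1, LinearMap.det.map_mul, det_scalar hzz hn]
    set e := expo2 X i n with he
    have he0 : 0 < e := expo2_pos X i n
    have hκε : κ * ε ≤ rS := (mul_le_mul_of_nonneg_right hmκ hεpos.le).trans (h1m.trans l5)
    have hsn : ‖(i : ℂ_[ℓ]) / 2 * t * n‖ ≤ rS := by
      rw [norm_mul]
      exact (mul_le_of_le_one_right (norm_nonneg _) (norm_nat_le n)).trans (hs.trans hκε)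
    have h2t : ‖(2 : ℂ_[ℓ]) * t‖ ≤ rS := by
      rw [norm_mul]
      have h9 : ‖(2 : ℂ_[ℓ])‖ ≤ 1 := by exact_mod_cast norm_nat_le (Ω := ℂ_[ℓ]) 2
      exact (mul_le_of_le_one_left (norm_nonneg _) h9).trans (hts.trans (h1ε.trans l5))
    have p1 := hpow (4 * e) _ _ hsn hd
    have p2 := hpow (i * n * e) _ _ h2t hμ
    have p3 : ((4 * e : ℕ) : ℂ_[ℓ]) * ((i : ℂ_[ℓ]) / 2 * t * n) =
        ((i * n * e : ℕ) : ℂ_[ℓ]) * (2 * t) := by
      push_cast; ring
    rw [p3] at p1
    have p4 : y ^ (4 * e) = X.E.mu σ ^ (i * n * e) := p1.unique p2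
    have hdet' : LinearMap.det (Φ * z + (1 - z)) ^ (4 * e) = X.E.mu σ ^ (i * n * e) := hdet
    rw [hsplit, mul_pow, p4] at hdet'
    have p5 : (x ^ n) ^ (4 * e) = 1 := by
      have h9 : X.E.mu σ ^ (i * n * e) ≠ 0 := pow_ne_zero _ hμ0
      exact mul_left_cancel₀ h9 (hdet'.trans (mul_one _).symm)
    have p6 : x ^ (4 * e * n) = 1 := by rw [mul_comm, pow_mul]; exact p5
    have p7 : 4 * e * n ∣ B := Finset.dvd_prod_of_mem (fun n => 4 * expo2 X i n * n)
      (Finset.mem_Icc.2 ⟨Nat.one_le_iff_ne_zero.2 hn0, hnN⟩)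
    obtain ⟨k, hk⟩ := p7
    rw [hk, pow_mul, p6, one_pow]
  have hc1 : c = 1 := by
    rw [hcd]
    refine ext_gen c fun e y hy => ?_
    rw [fop_apply _ hy]
    by_cases hy0 : y = 0
    · rw [hy0, smul_zero, map_zero]
    · have h1 : c.HasEigenvalue e := by
        have h2 : e ∈ c.charpoly.roots := by
          rw [← ne_bot_iff]
          intro h3
          rw [h3, Submodule.mem_bot] at hy
          exact hy0 hy
        rw [Polynomial.mem_roots (LinearMap.charpoly_monic _).ne_zero,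
          ← Module.End.hasEigenvalue_iff_isRoot_charpoly] at h2
        exact h2
      rw [hone e h1, one_smul]
      rfl
  rw [hc1, mul_one] at hgc
  rw [← hgc]
  exact hg

end Pool.Agent.T2h11.MT.ONE
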