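import Pool.Agent.T2h11.MT.T_FIN

/-!
# RAT: the commutant of `so(H²)` has a rational basis
-/

set_option autoImplicit false

namespace Pool.Agent.T2h11.MT.RAT

open Module NumberField IsDedekindDomain TensorProduct
open Pool.Agent.W401.Cheb Pool.Agent.N184.HK

section

variable {Ω : Type} [Field Ω] [Algebra ℚ Ω] {M N : Type} [AddCommGroup M] [Module ℚ M]
  [AddCommGroup N] [Module ℚ N]

/-- the coefficient of `P` for the functional `φ` -/
noncomputable def cf (φ : Ω →ₗ[ℚ] ℚ) : Ω ⊗[ℚ] M →ₗ[ℚ] M :=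
  (TensorProduct.lid ℚ M).toLinearMap ∘ₗ LinearMap.rTensor M φ

lemma cf_tmul (φ : Ω →ₗ[ℚ] ℚ) (z : Ω) (m : M) : cf φ (z ⊗ₜ[ℚ] m) = φ z • m := by
  simp [cf]

lemma cf_map (φ : Ω →ₗ[ℚ] ℚ) (f : M →ₗ[ℚ] N) (P : Ω ⊗[ℚ] M) :
    cf φ (f.baseChange Ω P) = f (cf φ P) := by
  induction P with
  | zero => simp
  | tmul z m => simp [cf_tmul]
  | add x y hx hy => simp [map_add, hx, hy]

/-- the coefficient of the endomorphism `a` -/
noncomputable def ce (φ : Ω →ₗ[ℚ] ℚ) (a : Module.End Ω (Ω ⊗[ℚ] M)) : Module.End ℚ M :=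
  cf φ ∘ₗ (a.restrictScalars ℚ) ∘ₗ TensorProduct.mk ℚ Ω M 1

lemma ce_apply (φ : Ω →ₗ[ℚ] ℚ) (a : Module.End Ω (Ω ⊗[ℚ] M)) (m : M) :
    ce φ a m = cf φ (a ((1 : Ω) ⊗ₜ m)) := rfl

lemma ce_comm (φ : Ω →ₗ[ℚ] ℚ) (a : Module.End Ω (Ω ⊗[ℚ] M)) (b : Module.End ℚ M)
    (h : Commute (b.baseChange Ω) a) : Commute b (ce φ a) := by
  refine LinearMap.ext fun m => ?_
  rw [Module.End.mul_apply, Module.End.mul_apply, ce_apply, ce_apply, ← cf_map]
  have h1 := congrArg (fun f : Module.End Ω (Ω ⊗[ℚ] M) => f ((1 : Ω) ⊗ₜ m)) h.eq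
  simp only [Module.End.mul_apply, LinearMap.baseChange_tmul] at h1
  rw [h1]

lemma mem_span_ce [FiniteDimensional ℚ M] (a : Module.End Ω (Ω ⊗[ℚ] M)) :
    a ∈ Submodule.span Ω (Set.range fun φ : Ω →ₗ[ℚ] ℚ => (ce φ a).baseChange Ω) := by
  classical
  have b := Module.Free.chooseBasis ℚ Ω
  have w := Module.finBasis ℚ M
  set s : Finset _ := Finset.univ.biUnion fun k =>
    ((TensorProduct.equivFinsuppOfBasisLeft b) (a ((1 : Ω) ⊗ₜ w k))).support with hs
  have e : a = ∑ i ∈ s, b i • (ce (b.coord i) a).baseChange Ω := by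
    refine (w.baseChange Ω).ext fun k => ?_
    rw [Basis.baseChange_apply, LinearMap.sum_apply]
    have h1 : a ((1 : Ω) ⊗ₜ w k) = ((TensorProduct.equivFinsuppOfBasisLeft b)
        (a ((1 : Ω) ⊗ₜ w k))).sum fun i m => b i ⊗ₜ[ℚ] m := by
      rw [← TensorProduct.equivFinsuppOfBasisLeft_symm_apply, LinearEquiv.symm_apply_apply]
    rw [Finsupp.sum_of_support_subset (s := s) _ _ _ (fun i _ => TensorProduct.tmul_zero _ _)] at h1
    · rw [h1]
      refine Finset.sum_congr rfl fun i _ => ?_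
      rw [LinearMap.smul_apply, LinearMap.baseChange_tmul, TensorProduct.smul_tmul', smul_eq_mul,
        mul_one, TensorProduct.equivFinsuppOfBasisLeft_apply]
      rfl
    · intro i hi
      exact Finset.mem_biUnion.2 ⟨k, Finset.mem_univ k, hi⟩
  rw [e]
  refine Submodule.sum_mem _ fun i _ => Submodule.smul_mem _ _ ?_
  rw [← e]
  exact Submodule.subset_span ⟨b.coord i, rfl⟩

end

theorem t_RAT : S_RAT := by
  intro K _ _ ℓ _ X D i a ha
  set a' : Module.End ℂ_[ℓ] (ℂ_[ℓ] ⊗[ℚ] D.B.H i) := (D.comp i).symm.conj a with ha'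
  have e : a = (D.comp i).conj a' := by
    rw [ha']
    refine LinearMap.ext fun x => ?_
    rw [LinearEquiv.conj_apply_apply, LinearEquiv.conj_apply_apply, LinearEquiv.symm_symm,
      LinearEquiv.apply_symm_apply, LinearEquiv.apply_symm_apply]
  have hc : ∀ φ : ℂ_[ℓ] →ₗ[ℚ] ℚ, ce φ a' ∈ cen D.B i := by
    intro φ A hA
    refine ce_comm φ a' _ ?_
    have h1 := ha _ (FIN.up_skew D hA)
    refine LinearMap.ext fun x => ?_
    rw [Module.End.mul_apply, Module.End.mul_apply]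
    apply (D.comp i).injective
    have h3 : ∀ y, D.comp i ((D.B.ρ i A).baseChange ℂ_[ℓ] y) =
        X.E.X.ρ i (FIN.up D A) (D.comp i y) := by
      intro y
      induction y with
      | zero => simp
      | tmul z m =>
        have e1 : z ⊗ₜ[ℚ] m = z • ((1 : ℂ_[ℓ]) ⊗ₜ[ℚ] m) := by
          rw [TensorProduct.smul_tmul', smul_eq_mul, mul_one]
        rw [e1, map_smul, map_smul, map_smul, map_smul, LinearMap.baseChange_tmul, D.act i A m]
        rfl
      | add x y hx hy => rw [map_add, map_add, hx, hy, map_add, map_add]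
    have h4 : ∀ y, D.comp i (a' y) = a (D.comp i y) := by
      intro y
      rw [ha', LinearEquiv.conj_apply_apply, LinearEquiv.apply_symm_apply]
      rfl
    rw [h3, h4, h4, h3]
    exact congrArg (fun f : Module.End ℂ_[ℓ] (X.E.X.H i) => f (D.comp i x)) h1.eq
  rw [e]
  have h2 := mem_span_ce a'
  refine Submodule.span_induction (p := fun x _ => (D.comp i).conj x ∈ Submodule.span ℂ_[ℓ]
    {a | ∃ b ∈ cen D.B i, a = (D.comp i).conj (LinearMap.baseChange ℂ_[ℓ] b)}) ?_ ?_ ?_ ?_ h2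
  · rintro _ ⟨φ, rfl⟩
    exact Submodule.subset_span ⟨_, hc φ, rfl⟩
  · rw [map_zero]
    exact Submodule.zero_mem _
  · intro x y _ _ hx hy
    rw [map_add]
    exact Submodule.add_mem _ hx hy
  · intro r x _ hx
    rw [map_smul]
    exact Submodule.smul_mem _ _ hx

end Pool.Agent.T2h11.MT.RAT
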