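import Pool.Agent.T2h11.MT.Stm
import Pool.Agent.T2h11.MT.Sm

set_option autoImplicit false

namespace Pool.Agent.T2h11.MT.SIM

open Module NumberField IsDedekindDomain TensorProduct
open Pool.Agent.W401.Cheb Pool.Agent.N184.HK

section

variable {Ω V W : Type} [NormedField Ω] [AddCommGroup V] [Module Ω V] [AddCommGroup W]
  [Module Ω W]

/-- A linear map which is compatible with powers is compatible with the exponential. -/
lemma IsExp.map (T : Module.End Ω V →ₗ[Ω] Module.End Ω W) {A g : Module.End Ω V}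
    (hT : ∀ n : ℕ, T (A ^ n) = (T A) ^ n) (h : IsExp A g) : IsExp (T A) (T g) := by
  intro L
  have h1 := h (L ∘ₗ T)
  have h2 : (fun n : ℕ => ((n.factorial : ℕ) : Ω)⁻¹ * (L ∘ₗ T) (A ^ n)) =
      fun n => ((n.factorial : ℕ) : Ω)⁻¹ * L ((T A) ^ n) := by
    funext n
    rw [LinearMap.comp_apply, hT]
  rw [h2] at h1
  exact h1

/-- The exponential of a scalar endomorphism. -/
lemma isExp_smul_one {x y : Ω} (h : SExp x y) :
    IsExp (x • (1 : Module.End Ω V)) (y • (1 : Module.End Ω V)) := by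
  intro L
  have h1 := HasSum.mul_right (L 1) h
  have h2 : (fun n : ℕ => ((n.factorial : ℕ) : Ω)⁻¹ * L ((x • (1 : Module.End Ω V)) ^ n)) =
      fun n => ((n.factorial : ℕ) : Ω)⁻¹ * x ^ n * L 1 := by
    funext n
    rw [smul_pow, one_pow, map_smul, smul_eq_mul, mul_assoc]
  rw [h2, map_smul, smul_eq_mul]
  exact h1

end

section

variable {K V : Type} [Field K] [AddCommGroup V] [Module K V] [FiniteDimensional K V]
  (q : LinearMap.BilinForm K V) (hq : q.Nondegenerate)

/-- The adjoint of an endomorphism. -/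
noncomputable def adj : Module.End K V →ₗ[K] Module.End K V :=
  ((q.toDual hq).symm.conj).toLinearMap ∘ₗ Module.Dual.transpose

lemma adj_apply (S : Module.End K V) (x y : V) : q (adj q hq S x) y = q x (S y) := by
  have h : adj q hq S x = (q.toDual hq).symm ((q.toDual hq x) ∘ₗ S) := rfl
  rw [h]
  have h2 := LinearMap.BilinForm.apply_toDual_symm_apply (hB := hq) ((q.toDual hq x) ∘ₗ S) y
  rw [h2]
  rfl

include hq in
lemma ext_left {A B : Module.End K V} (h : ∀ x y, q (A x) y = q (B x) y) : A = B := by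
  ext x
  apply (q.toDual hq).injective
  ext y
  exact h x y

lemma adj_one : adj q hq 1 = 1 :=
  ext_left q hq fun x y => by rw [adj_apply]; rfl

lemma adj_mul (S T : Module.End K V) : adj q hq (S * T) = adj q hq T * adj q hq S := by
  refine ext_left q hq fun x y => ?_
  rw [adj_apply, Module.End.mul_apply, Module.End.mul_apply, adj_apply, adj_apply]

lemma adj_pow (S : Module.End K V) (n : ℕ) : adj q hq (S ^ n) = (adj q hq S) ^ n := by
  induction n with
  | zero => rw [pow_zero, pow_zero, adj_one]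
  | succ n ih => rw [pow_succ, adj_mul, ih, ← pow_succ']

end

theorem t_SIM (hE : S_EXP) (hS : S_SXP) : S_SIM := by
  intro ℓ _ V _ _ _ q _ hq ε hε
  obtain ⟨r, hr, hex, hadd, hinj, hlog, -⟩ := hE ℓ V
  obtain ⟨-, -, -, -, -, hslog⟩ := hS ℓ
  obtain ⟨C, hC, hadj⟩ := small_lin (adj q hq)
  have h2 : (0 : ℝ) < ‖(2 : ℂ_[ℓ])‖ := norm_pos_iff.2 two_ne_zero
  have h21 : ‖(2 : ℂ_[ℓ])‖ ≤ 1 := by
    have := norm_nat_le (Ω := ℂ_[ℓ]) 2
    exact_mod_cast this
  obtain ⟨η, hη, hηε, hηr, hηC⟩ : ∃ η : ℝ, 0 < η ∧ η ≤ ε ∧ η ≤ r ∧ C * η ≤ r := by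
    refine ⟨min ε (min r (r / C)), lt_min hε (lt_min hr (div_pos hr hC)), min_le_left _ _,
      (min_le_right _ _).trans (min_le_left _ _), ?_⟩
    have : min ε (min r (r / C)) ≤ r / C := (min_le_right _ _).trans (min_le_right _ _)
    calc C * min ε (min r (r / C)) ≤ C * (r / C) := mul_le_mul_of_nonneg_left this hC.le
      _ = r := by field_simp
  obtain ⟨δ1, hδ1, hl1⟩ := hlog η hη
  obtain ⟨δ2, hδ2, hl2⟩ := hslog (η * ‖(2 : ℂ_[ℓ])‖) (mul_pos hη h2)
  refine ⟨min δ1 δ2, lt_min hδ1 hδ2, fun f μ hsim hf hμ => ?_⟩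
  obtain ⟨S, hSs, hSf⟩ := hl1 (en f) (hf.mono (min_le_left _ _))
  obtain ⟨s, hss, hsμ⟩ := hl2 μ (hμ.trans (min_le_right _ _))
  have hsη : ‖s‖ ≤ η := hss.trans (mul_le_of_le_one_right hη.le h21)
  have hs1 : Small η (s • (1 : Module.End ℂ_[ℓ] V)) := by
    have := (small_one (Ω := ℂ_[ℓ]) (V := V)).smul hsη
    rwa [mul_one] at this
  obtain ⟨h, hh⟩ := hex (-S) (hSs.neg.mono hηr)
  have hfh : en f * h = 1 := by
    have h1 := hadd S (-S) (en f) h (hSs.mono hηr) (hSs.neg.mono hηr)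
      (Commute.neg_right (Commute.refl S)) hSf hh
    rw [add_neg_cancel] at h1
    exact h1.unique isExp_zero
  have hsm : IsExp (s • (1 : Module.End ℂ_[ℓ] V) + -S) (μ • (1 : Module.End ℂ_[ℓ] V) * h) :=
    hadd _ _ _ _ (hs1.mono hηr) (hSs.neg.mono hηr)
      (((Commute.one_left S).smul_left s).neg_right) (isExp_smul_one hsμ) hh
  have hadjf : adj q hq (en f) * en f = μ • (1 : Module.End ℂ_[ℓ] V) := by
    refine ext_left q hq fun x y => ?_
    rw [Module.End.mul_apply, adj_apply]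
    change q (f x) (f y) = q (μ • x) y
    rw [hsim, map_smul, LinearMap.smul_apply, smul_eq_mul]
  have hadjh : adj q hq (en f) = μ • (1 : Module.End ℂ_[ℓ] V) * h := by
    rw [← hadjf, mul_assoc, hfh, mul_one]
  have hmap := IsExp.map (adj q hq) (adj_pow q hq S) hSf
  rw [hadjh] at hmap
  have hS' : adj q hq S = s • (1 : Module.End ℂ_[ℓ] V) + -S :=
    hinj _ _ _ ((hadj η S hη.le hSs).mono hηC) ((hs1.add hSs.neg).mono hηr) hmap hsm
  have ht : ‖s / 2‖ ≤ η := by
    rw [norm_div, div_le_iff₀ h2]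
    exact hss
  have ht1 : Small η ((s / 2) • (1 : Module.End ℂ_[ℓ] V)) := by
    have := (small_one (Ω := ℂ_[ℓ]) (V := V)).smul ht
    rwa [mul_one] at this
  refine ⟨S + -((s / 2) • (1 : Module.End ℂ_[ℓ] V)), s / 2, ?_, (hSs.add ht1.neg).mono hηε,
    ht.trans hηε, ?_, ?_⟩
  · intro x y
    have h1 : q x (S y) = q ((s • (1 : Module.End ℂ_[ℓ] V) + -S) x) y := by
      rw [← hS', adj_apply]
    have h3 : (S + -((s / 2) • (1 : Module.End ℂ_[ℓ] V))) x = S x - (s / 2) • x := by
      rw [LinearMap.add_apply, LinearMap.neg_apply, LinearMap.smul_apply, sub_eq_add_neg]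
      rfl
    have h4 : (S + -((s / 2) • (1 : Module.End ℂ_[ℓ] V))) y = S y - (s / 2) • y := by
      rw [LinearMap.add_apply, LinearMap.neg_apply, LinearMap.smul_apply, sub_eq_add_neg]
      rfl
    have h5 : (s • (1 : Module.End ℂ_[ℓ] V) + -S) x = s • x - S x := by
      rw [LinearMap.add_apply, LinearMap.neg_apply, LinearMap.smul_apply, sub_eq_add_neg]
      rfl
    rw [h5] at h1
    rw [h3, h4, map_sub, map_sub, LinearMap.sub_apply, h1, map_smul, map_sub, map_smul, map_smul,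
      LinearMap.smul_apply, LinearMap.sub_apply, LinearMap.smul_apply]
    simp only [smul_eq_mul]
    ring
  · have : S + -((s / 2) • (1 : Module.End ℂ_[ℓ] V)) + (s / 2) • (1 : Module.End ℂ_[ℓ] V) = S := by
      abel
    rw [this]
    exact hSf
  · have : 2 * (s / 2) = s := by ring
    rw [this]
    exact hsμ

end Pool.Agent.T2h11.MT.SIM
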