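import Pool.Agent.T2h11.MT.Sm

/-!
# Task TRV: an open subgroup acts trivially on the commutant
-/

set_option autoImplicit false

namespace Pool.Agent.T2h11.MT.TRV

open Module Module.End NumberField IsDedekindDomain TensorProduct
open Pool.Agent.W401.Cheb Pool.Agent.N184.HK Pool.Agent.T2h11.PHK Pool.Agent.T2h11.MT

variable {K : Type} [Field K] [NumberField K] {ℓ : ℕ} [Fact ℓ.Prime] {X : HKVariety K ℂ_[ℓ]}

/-- The representation on the commutant. -/
noncomputable def gg (X : HKVariety K ℂ_[ℓ]) (i : ℕ) (σ : GK K) :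
    Module.End ℂ_[ℓ] (cen X.E.X i) :=
  (adE ((X.E.F σ).φ i)).restrict fun _ ha => cen_ad (X.E.F σ) ha

lemma gg_apply (i : ℕ) (σ : GK K) (a : cen X.E.X i) :
    ((gg X i σ a : cen X.E.X i) : Module.End ℂ_[ℓ] (X.E.X.H i)) =
      adE ((X.E.F σ).φ i) (a : Module.End ℂ_[ℓ] (X.E.X.H i)) := rfl

lemma gg_mul (i : ℕ) (σ τ : GK K) : gg X i (σ * τ) = gg X i σ * gg X i τ := by
  refine LinearMap.ext fun a => Subtype.ext ?_
  rw [gg_apply, adE_mul_apply X.E]
  rfl

lemma gg_one (i : ℕ) : gg X i 1 = 1 := by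
  refine LinearMap.ext fun a => Subtype.ext ?_
  rw [gg_apply]
  ext x
  have h1 : ∀ x, (X.E.F 1).φ i x = x := phi_one X.E i
  have h2 : (X.E.F 1).φ i = LinearEquiv.refl ℂ_[ℓ] _ := by
    ext x; exact h1 x
  rw [h2]
  simp [adE, LinearEquiv.conj_apply]

lemma gg_cts (i : ℕ) : Cts (gg X i) := by
  intro L
  have h1 : (fun σ => L (gg X i σ)) = fun σ => ∑ j, ∑ k,
      LinearMap.toMatrix (Module.finBasis ℂ_[ℓ] (cen X.E.X i))
        (Module.finBasis ℂ_[ℓ] (cen X.E.X i)) (gg X i σ) j k *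
      L ((LinearMap.toMatrix (Module.finBasis ℂ_[ℓ] (cen X.E.X i))
        (Module.finBasis ℂ_[ℓ] (cen X.E.X i))).symm (Matrix.single j k 1)) := by
    funext σ
    exact dual_end_expand L (gg X i σ)
  change Continuous (fun σ => L (gg X i σ))
  rw [h1]
  refine continuous_finsetSum _ fun j _ => continuous_finsetSum _ fun k _ =>
    Continuous.mul ?_ continuous_const
  set b := Module.finBasis ℂ_[ℓ] (cen X.E.X i)
  obtain ⟨lam, hlam⟩ := LinearMap.exists_extend (p := cen X.E.X i) (b.coord j)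
  have h2 := cts_adE X.E i (g := fun _ => (b k : Module.End ℂ_[ℓ] (X.E.X.H i)))
    (fun L => continuous_const) lam
  have h3 : (fun σ => LinearMap.toMatrix b b (gg X i σ) j k) = fun σ =>
      lam (adE ((X.E.F σ).φ i) (b k : Module.End ℂ_[ℓ] (X.E.X.H i))) := by
    funext σ
    rw [LinearMap.toMatrix_apply, ← gg_apply]
    have := congrArg (fun f => f (gg X i σ (b k))) hlam
    exact this.symm
  rw [h3]
  exact h2

lemma inert_pow {v : HeightOneSpectrum (𝓞 K)} {σ : GK K} (h : IsInert v σ) (m : ℕ) :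
    IsInert v (σ ^ m) := by
  obtain ⟨Q, hQ, hQv, h1⟩ := h
  refine ⟨Q, hQ, hQv, ?_⟩
  induction m with
  | zero => intro x; rw [pow_zero, one_smul, sub_self]; exact Q.zero_mem
  | succ m ih =>
    intro x
    have h2 := Q.add_mem (ih (σ • x)) (h1 x)
    rw [sub_add_sub_cancel] at h2
    rw [pow_succ, mul_smul]
    exact h2

theorem t_TRV (hU : S_UNP) (hK : S_KOL) (hI : S_INR) (hN : S_UNR) : S_TRV := by
  intro K _ _ ℓ _ X D
  have hex : ∀ i : Fin (X.d + 1), ∃ U : Subgroup (GK K), IsOpen (U : Set (GK K)) ∧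
      ∀ σ ∈ U, IsNilpotent (gg X i σ - 1) := by
    intro i
    refine hU K _ ℓ (gg X i) (gg_cts _) (gg_one _) (expo X i) (finrank ℂ_[ℓ] (cen X.E.X i))
      (Nat.factorial_pos _) fun σ => ?_
    refine LinearMap.ext fun a => Subtype.ext ?_
    rw [restrict_quasi (g := adE ((X.E.F σ).φ i)) (fun x => gg_apply _ σ x)]
    exact all_quasi X (Nat.lt_succ_iff.1 i.2) a.2 σ
  choose V hV hVn using hex
  set U : Subgroup (GK K) := ⨅ i, V i with hUdef
  have hUo : IsOpen (U : Set (GK K)) := by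
    rw [hUdef, Subgroup.coe_iInf]
    exact isOpen_iInter_of_finite hV
  have hUV : ∀ i, ∀ σ ∈ U, σ ∈ V i := fun i σ hσ => (iInf_le V i : U ≤ V i) hσ
  refine ⟨U, hUo, ?_⟩
  have key : ∀ i ≤ X.d, ∀ σ ∈ U, gg X i σ = 1 := by
    intro i hi
    by_contra hcon
    push Not at hcon
    obtain ⟨σ, hσ, hσ1⟩ := hcon
    obtain ⟨L, hL, σ0, hσ0, hL0⟩ := hK ℂ_[ℓ] (cen X.E.X i) (GK K) U (gg X i)
      (fun σ _ τ _ => gg_mul i σ τ)
      (fun σ hσ => hVn ⟨i, Nat.lt_succ_of_le hi⟩ σ (hUV _ σ hσ)) ⟨σ, hσ, hσ1⟩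
    refine hL0 (hN K ℓ U hUo (fun σ => L (gg X i σ - 1)) ?_ hL ?_ σ0 hσ0)
    · have h1 : Continuous fun σ => L (gg X i σ) - L 1 := (gg_cts i L).sub continuous_const
      have h2 : (fun σ => L (gg X i σ - 1)) = fun σ => L (gg X i σ) - L 1 := by
        funext σ
        exact map_sub L _ _
      rw [h2]
      exact h1.continuousOn
    · intro v σ hσ hv
      obtain ⟨W, hW, hW1⟩ := hI K ℓ X D v
      have hfin : Finite (GK K ⧸ W) := Subgroup.quotient_finite_of_isOpen W hW
      have hind : W.index ≠ 0 := Subgroup.index_ne_zero_of_finite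
      obtain ⟨m, hm, -, hmW⟩ := Subgroup.exists_pow_mem_of_index_ne_zero hind σ
      have h1 : gg X i (σ ^ m) = 1 := by
        refine LinearMap.ext fun a => Subtype.ext ?_
        rw [gg_apply]
        refine (ad_comm _ _).2 ?_
        exact (hW1 _ hmW (inert_pow hv m) i hi a a.2).symm
      have hL11 : L (1 - 1) = 0 := (congrArg L (sub_self _)).trans (map_zero L)
      have h2 : ∀ m : ℕ, L (gg X i (σ ^ m) - 1) = m * L (gg X i σ - 1) := by
        intro m
        induction m with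
        | zero =>
          rw [pow_zero, gg_one, Nat.cast_zero, zero_mul]
          exact hL11
        | succ m ih =>
          rw [pow_succ, hL _ (U.pow_mem hσ m) _ hσ, ih]
          push_cast
          ring
      have h3 := h2 m
      rw [h1, hL11] at h3
      have h4 : (m : ℂ_[ℓ]) ≠ 0 := by exact_mod_cast hm.ne'
      exact (mul_eq_zero.1 h3.symm).resolve_left h4
  intro τ hτ i hi a ha
  have h1 := key i hi τ hτ
  have h2 := congrArg (fun f => ((f ⟨a, ha⟩ : cen X.E.X i) : Module.End ℂ_[ℓ] (X.E.X.H i))) h1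
  exact ((ad_comm _ _).1 h2).symm

end Pool.Agent.T2h11.MT.TRV
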