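import Pool.Agent.T2h11.MT.Stm

set_option autoImplicit false

namespace Pool.Agent.T2h11.MT.UNF

open Module NumberField IsDedekindDomain TensorProduct Topology
open Pool.Agent.W401.Cheb

theorem t_UNF (hB : S_BND) (hI : S_INS) (hC : S_CHR) : S_UNF := by
  intro F A _ _ _ _ _ hA ℓ _ a hcont hadd hin
  by_contra hne
  push Not at hne
  have : IsAlgClosed A := hA.isAlgClosed
  have : Algebra.IsAlgebraic F A := hA.isAlgebraic
  have : IsGalois F A := IsAlgClosure.isGalois F A
  obtain ⟨H, hHn, hHo, hHa, ⟨g, hg⟩, -, hlt⟩ := hC Gal(A/F) ℓ a hcont hadd hne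
    (Nat.card (ClassGroup (𝓞 F)))
  set L : IntermediateField F A := IntermediateField.fixedField H with hL
  let HC : ClosedSubgroup Gal(A/F) := ⟨H, H.isClosed_of_isOpen hHo⟩
  have hfix : L.fixingSubgroup = H := InfiniteGalois.fixingSubgroup_fixedField HC
  have hfin : FiniteDimensional F L := (InfiniteGalois.isOpen_iff_finite L).1 (by
    rw [hfix]
    exact hHo)
  have hgal : IsGalois F L := (InfiniteGalois.normal_iff_isGalois L).1 (by
    rw [hfix]
    exact hHn)
  have hker : ∀ x : Gal(A/F), x ∈ H ↔ AlgEquiv.restrictNormalHom L x = 1 := by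
    intro x
    rw [← MonoidHom.mem_ker, L.restrictNormalHom_ker, hfix]
  have hcard : finrank F L = H.index := by
    rw [← IsGalois.card_aut_eq_finrank F L]
    have h1 : (AlgEquiv.restrictNormalHom L : Gal(A/F) →* Gal(L/F)).ker = H := by
      rw [L.restrictNormalHom_ker, hfix]
    rw [← h1, Subgroup.index_ker, MonoidHom.range_eq_top.2 (AlgEquiv.restrictNormalHom_surjective A)]
    exact (Nat.card_congr Subgroup.topEquiv.toEquiv).symm
  have : CharZero L := charZero_of_injective_algebraMap (algebraMap F L).injective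
  have : NumberField L := NumberField.of_module_finite F L
  have hle := hB F L (AlgEquiv.restrictNormalHom L g) (by
    intro τ
    obtain ⟨x, rfl⟩ := AlgEquiv.restrictNormalHom_surjective (F := F) (K₁ := L) A τ
    obtain ⟨k, hk⟩ := hg x
    rw [hker, map_mul, map_inv, map_zpow] at hk
    exact ⟨k, (inv_mul_eq_one.1 hk)⟩) (by
    intro P hP τ hτ
    obtain ⟨σ, hσ, Q, hQ, hσQ⟩ := hI F A L P hP τ hτ
    have h1 : σ ∈ L.fixingSubgroup := by
      rw [hfix]
      exact hHa σ (hin Q hQ σ hσQ)
    rw [IntermediateField.mem_fixingSubgroup_iff] at h1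
    ext x
    have h2 := hσ x
    rw [h1 x x.2] at h2
    rw [AlgEquiv.one_apply]
    exact h2.symm)
  omega

end Pool.Agent.T2h11.MT.UNF
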