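import Pool.Agent.T2h11.MT.Stm

set_option autoImplicit false

namespace Pool.Agent.T2h11.MT.UNI

open Module NumberField Pool.Agent.T2h11.MT NumberField.Units NumberField.Units.dirichletUnitTheorem
open NumberField.InfinitePlace

/-- half of the sign lemma -/
theorem pos_or_nonpos {W : Type} [Fintype W] (M : W → W → ℝ)
    (hoff : ∀ w w', w' ≠ w → M w w' < 0) (hrow : ∀ w, ∑ w', M w w' = 0) (D : W → ℝ)
    (hD : ∀ w', ∑ w, D w * M w w' = 0) : (∀ w, 0 < D w) ∨ (∀ w, D w ≤ 0) := by
  classical
  by_contra hcon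
  push Not at hcon
  obtain ⟨⟨a, ha⟩, ⟨b, hb⟩⟩ := hcon
  let S : Finset W := Finset.univ.filter (fun w => 0 < D w)
  have hz : ∑ w' ∈ S, ∑ w, D w * M w w' = 0 := Finset.sum_eq_zero (fun w' _ => hD w')
  rw [Finset.sum_comm] at hz
  simp_rw [← Finset.mul_sum] at hz
  have hpos : 0 < ∑ w, D w * ∑ w' ∈ S, M w w' := by
    have hsplit : ∀ w, ∑ w' ∈ S, M w w' = - ∑ w' ∈ Sᶜ, M w w' := by
      intro w
      have := hrow w
      rw [← Finset.sum_add_sum_compl S] at this
      linarith
    apply Finset.sum_pos'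
    · intro w _
      by_cases hw : 0 < D w
      · apply mul_nonneg hw.le
        rw [hsplit, neg_nonneg]
        apply Finset.sum_nonpos
        intro w' hw'
        have : w' ≠ w := by
          rintro rfl
          simp [S] at hw'
          linarith
        exact (hoff w w' this).le
      · apply mul_nonneg_of_nonpos_of_nonpos (not_lt.mp hw)
        apply Finset.sum_nonpos
        intro w' hw'
        have : w' ≠ w := by
          rintro rfl
          simp [S] at hw'
          linarith
        exact (hoff w w' this).le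
    · refine ⟨b, Finset.mem_univ _, mul_pos hb ?_⟩
      rw [hsplit, neg_pos]
      apply Finset.sum_neg
      · intro w' hw'
        have : w' ≠ b := by
          rintro rfl
          simp [S] at hw'
          linarith
        exact (hoff b w' this)
      · exact ⟨a, by simp [S, ha]⟩
  linarith

theorem sign_lemma {W : Type} [Fintype W] (M : W → W → ℝ)
    (hoff : ∀ w w', w' ≠ w → M w w' < 0) (hrow : ∀ w, ∑ w', M w w' = 0) (D : W → ℝ)
    (hD : ∀ w', ∑ w, D w * M w w' = 0) :
    (∀ w, 0 < D w) ∨ (∀ w, D w < 0) ∨ (∀ w, D w = 0) := by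
  rcases pos_or_nonpos M hoff hrow D hD with h | h
  · exact Or.inl h
  · rcases pos_or_nonpos M hoff hrow (fun w => - D w) (by simpa using hD) with h' | h'
    · exact Or.inr (Or.inl (fun w => by have := h' w; linarith))
    · exact Or.inr (Or.inr (fun w => by have := h' w; have := h w; linarith))

section general

variable {L : Type} [Field L] [NumberField L]

/-- the log matrix -/
noncomputable def M (η : InfinitePlace L → (𝓞 L)ˣ) (w w' : InfinitePlace L) : ℝ :=
  (mult w' : ℝ) * Real.log (w' ((η w : 𝓞 L) : L))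

omit [NumberField L] in
theorem M_off (η : InfinitePlace L → (𝓞 L)ˣ)
    (hη : ∀ w w' : InfinitePlace L, w' ≠ w → Real.log (w' ((η w : 𝓞 L) : L)) < 0)
    (w w' : InfinitePlace L) (h : w' ≠ w) : M η w w' < 0 := by
  unfold M
  refine mul_neg_of_pos_of_neg ?_ (hη w w' h)
  exact_mod_cast mult_pos

theorem M_row (η : InfinitePlace L → (𝓞 L)ˣ) (w : InfinitePlace L) : ∑ w', M η w w' = 0 := by
  unfold M
  exact Units.sum_mult_mul_log (η w)

theorem M_rel (η : InfinitePlace L → (𝓞 L)ˣ) (D : InfinitePlace L → ℤ)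
    (h : ∏ w, η w ^ D w = 1) (w' : InfinitePlace L) : ∑ w, (D w : ℝ) * M η w w' = 0 := by
  unfold M
  have h1 : Real.log (w' (((∏ w, η w ^ D w : (𝓞 L)ˣ) : 𝓞 L) : L)) = 0 := by
    rw [h]; simp
  have h2 : ∀ u : (𝓞 L)ˣ, w' ((u : 𝓞 L) : L) ≠ 0 := fun u => (pos_at_place u w').ne'
  let f : (𝓞 L)ˣ →* Multiplicative ℝ :=
    { toFun := fun u => Multiplicative.ofAdd (Real.log (w' ((u : 𝓞 L) : L)))
      map_one' := by simp
      map_mul' := fun a b => by
        rw [← ofAdd_add, ← Real.log_mul (h2 a) (h2 b)]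
        simp }
  have h3 : f (∏ w, η w ^ D w) = 1 := by
    change Multiplicative.ofAdd _ = 1
    rw [h1]; rfl
  rw [map_prod] at h3
  simp_rw [map_zpow] at h3
  have h4 := congrArg Multiplicative.toAdd h3
  rw [toAdd_prod] at h4
  simp only [toAdd_zpow, toAdd_one] at h4
  have h5 : ∀ w, (Multiplicative.toAdd (f (η w)) : ℝ) = Real.log (w' ((η w : 𝓞 L) : L)) :=
    fun w => rfl
  simp_rw [h5, zsmul_eq_mul] at h4
  calc ∑ w, (D w : ℝ) * ((mult w' : ℝ) * Real.log (w' ((η w : 𝓞 L) : L)))
      = (mult w' : ℝ) * ∑ w, (D w : ℝ) * Real.log (w' ((η w : 𝓞 L) : L)) := by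
        rw [Finset.mul_sum]
        exact Finset.sum_congr rfl (fun w _ => by ring)
    _ = 0 := by rw [h4, mul_zero]

theorem rel_sign (η : InfinitePlace L → (𝓞 L)ˣ)
    (hη : ∀ w w' : InfinitePlace L, w' ≠ w → Real.log (w' ((η w : 𝓞 L) : L)) < 0)
    (D : InfinitePlace L → ℤ) (h : ∏ w, η w ^ D w = 1) :
    (∀ w, 0 < D w) ∨ (∀ w, D w < 0) ∨ (∀ w, D w = 0) := by
  rcases sign_lemma (M η) (M_off η hη) (M_row η) (fun w => (D w : ℝ)) (M_rel η D h) with h | h | h
  · exact Or.inl (fun w => by exact_mod_cast h w)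
  · exact Or.inr (Or.inl (fun w => by exact_mod_cast h w))
  · exact Or.inr (Or.inr (fun w => by exact_mod_cast h w))

theorem rel_exists (η : InfinitePlace L → (𝓞 L)ˣ) :
    ∃ D : InfinitePlace L → ℤ, ∏ w, η w ^ D w = 1 ∧ ∃ w, D w ≠ 0 := by
  classical
  have hnot : ¬ LinearIndependent ℤ (fun w : InfinitePlace L => Additive.ofMul (η w)) := by
    intro h
    have h1 := h.fintype_card_le_finrank
    rw [Units.finrank_eq, Units.rank] at h1
    have : 0 < Fintype.card (InfinitePlace L) := Fintype.card_pos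
    omega
  rw [Fintype.not_linearIndependent_iff] at hnot
  obtain ⟨g, hg, i, hi⟩ := hnot
  refine ⟨g, ?_, i, hi⟩
  have : Additive.ofMul (∏ w, η w ^ g w) = 0 := by
    rw [ofMul_prod]
    simpa using hg
  exact this

theorem finite_index (η : InfinitePlace L → (𝓞 L)ˣ)
    (hη : ∀ w w' : InfinitePlace L, w' ≠ w → Real.log (w' ((η w : 𝓞 L) : L)) < 0) :
    (Subgroup.closure (Set.range η)).index ≠ 0 := by
  classical
  have hmax : IsMaxRank (fun i => η (equivFinRank L i).1) := by
    unfold IsMaxRank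
    have key : LinearIndependent ℝ (fun w : {w : InfinitePlace L // w ≠ w₀} =>
        logEmbedding L (Additive.ofMul (η w.1))) := by
      rw [Fintype.linearIndependent_iff]
      intro g hg
      let D : InfinitePlace L → ℝ := fun w => if h : w ≠ w₀ then g ⟨w, h⟩ else 0
      have hsum : ∀ f : InfinitePlace L → ℝ,
          ∑ w, D w * f w = ∑ w : {w : InfinitePlace L // w ≠ w₀}, g w * f w.1 := by
        intro f
        rw [← Fintype.sum_subtype_add_sum_subtype (fun w : InfinitePlace L => w ≠ w₀)]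
        have h1 : ∑ i : {x : InfinitePlace L // ¬ x ≠ w₀}, D i.1 * f i.1 = 0 := by
          apply Finset.sum_eq_zero
          rintro ⟨x, hx⟩ _
          simp only [ne_eq, not_not] at hx
          simp [D, hx]
        rw [h1, add_zero]
        apply Finset.sum_congr rfl
        rintro ⟨x, hx⟩ _
        simp [D, hx]
      have hD : ∀ w', ∑ w, D w * M η w w' = 0 := by
        have h1 : ∀ w' : InfinitePlace L, w' ≠ w₀ → ∑ w, D w * M η w w' = 0 := by
          intro w' hw'
          rw [hsum]
          have := congrFun hg ⟨w', hw'⟩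
          simpa [M] using this
        intro w'
        by_cases hw' : w' = w₀
        · subst hw'
          have h2 : ∑ w' : InfinitePlace L, ∑ w, D w * M η w w' = 0 := by
            rw [Finset.sum_comm]
            simp_rw [← Finset.mul_sum, M_row, mul_zero, Finset.sum_const_zero]
          rw [← Finset.add_sum_erase _ _ (Finset.mem_univ w₀)] at h2
          rw [Finset.sum_eq_zero (s := Finset.univ.erase w₀)
            (fun x hx => h1 x (Finset.ne_of_mem_erase hx)), add_zero] at h2
          exact h2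
        · exact h1 w' hw'
      have hD0 : D w₀ = 0 := by simp [D]
      have hall : ∀ w, D w = 0 := by
        rcases sign_lemma (M η) (M_off η hη) (M_row η) D hD with h | h | h
        · exact absurd (h w₀) (by rw [hD0]; exact lt_irrefl _)
        · exact absurd (h w₀) (by rw [hD0]; exact lt_irrefl _)
        · exact h
      intro w
      have := hall w.1
      simpa [D, w.2] using this
    exact key.comp _ (equivFinRank L).injective
  rw [isMaxRank_iff_closure_finiteIndex] at hmax
  have hle : Subgroup.closure (Set.range (fun i => η (equivFinRank L i).1)) ≤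
      Subgroup.closure (Set.range η) := by
    apply Subgroup.closure_mono
    rintro _ ⟨i, rfl⟩
    exact ⟨_, rfl⟩
  have := Subgroup.finiteIndex_of_le (H := Subgroup.closure (Set.range (fun i => η (equivFinRank L i).1))) hle
  exact this.index_ne_zero

/-- the generator of the relations -/
theorem rel_gen (η : InfinitePlace L → (𝓞 L)ˣ)
    (hη : ∀ w w' : InfinitePlace L, w' ≠ w → Real.log (w' ((η w : 𝓞 L) : L)) < 0) :
    ∃ c : InfinitePlace L → ℤ, (∀ w, 0 < c w) ∧
      ∀ D : InfinitePlace L → ℤ, ∏ w, η w ^ D w = 1 ↔ ∃ t : ℤ, ∀ w, D w = t * c w := by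
  classical
  have hne : ∃ D : InfinitePlace L → ℤ, ∏ w, η w ^ D w = 1 ∧ (∀ w, 0 < D w) := by
    obtain ⟨D, hD, w, hw⟩ := rel_exists η
    rcases rel_sign η hη D hD with h | h | h
    · exact ⟨D, hD, h⟩
    · refine ⟨fun w => - D w, ?_, fun w => by have := h w; simp only; omega⟩
      simp_rw [zpow_neg]
      rw [Finset.prod_inv_distrib, hD, inv_one]
    · exact absurd (h w) hw
  have hex : ∃ m : ℕ, ∃ D : InfinitePlace L → ℤ, ∏ w, η w ^ D w = 1 ∧ (∀ w, 0 < D w) ∧
      D w₀ = m := by
    obtain ⟨D, hD, hpos⟩ := hne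
    exact ⟨(D w₀).toNat, D, hD, hpos, (Int.toNat_of_nonneg (hpos w₀).le).symm⟩
  obtain ⟨c, hc, hcpos, hcm⟩ := Nat.find_spec hex
  refine ⟨c, hcpos, fun D => ⟨fun hD => ?_, ?_⟩⟩
  · -- Euclidean division at `w₀`
    let q : ℤ := D w₀ / c w₀
    let E : InfinitePlace L → ℤ := fun w => D w - q * c w
    have hE : ∏ w, η w ^ E w = 1 := by
      simp_rw [E, zpow_sub, zpow_mul']
      rw [Finset.prod_mul_distrib, hD, one_mul, Finset.prod_inv_distrib, Finset.prod_zpow, hc,
        one_zpow, inv_one]
    have hE0 : E w₀ = D w₀ % c w₀ := by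
      have := Int.emod_add_mul_ediv (D w₀) (c w₀)
      simp only [E, q]
      linarith [mul_comm (c w₀) (D w₀ / c w₀)]
    have hEnn : 0 ≤ E w₀ := by rw [hE0]; exact Int.emod_nonneg _ (hcpos w₀).ne'
    have hElt : E w₀ < c w₀ := by rw [hE0]; exact Int.emod_lt_of_pos _ (hcpos w₀)
    rcases rel_sign η hη E hE with h | h | h
    · exfalso
      have hlt : (E w₀).toNat < Nat.find hex := by
        have : ((E w₀).toNat : ℤ) < (Nat.find hex : ℤ) := by
          rw [Int.toNat_of_nonneg hEnn, ← hcm]; exact hElt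
        exact_mod_cast this
      exact Nat.find_min hex hlt ⟨E, hE, h, (Int.toNat_of_nonneg hEnn).symm⟩
    · exact absurd (h w₀) (not_lt.mpr hEnn)
    · exact ⟨q, fun w => by have := h w; simp only [E] at this; linarith⟩
  · rintro ⟨t, ht⟩
    simp_rw [ht, zpow_mul']
    rw [Finset.prod_zpow, hc, one_zpow]

end general

theorem t_UNI : S_UNI := by
  classical
  intro F L _ _ _ _ _ _ _ σ hσ s hs
  have : FiniteDimensional F L := Module.Finite.of_restrictScalars_finite ℚ F L
  -- order of σ
  have hord : orderOf σ = finrank F L := by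
    rw [orderOf_eq_card_of_forall_mem_zpowers hσ, IsGalois.card_aut_eq_finrank]
  have hn : 0 < finrank F L := finrank_pos
  -- stabilisers are trivial
  have hstab : ∀ (w : InfinitePlace L) (τ : Gal(L/F)), τ • w = w → τ = 1 := by
    intro w τ h
    have hun : IsUnramified F w :=
      isUnramified_iff.mpr (Or.inr (IsTotallyComplex.isComplex _))
    have h1 := hun.stabilizer_eq_bot
    have h2 : τ ∈ MulAction.stabilizer Gal(L/F) w := h
    rw [h1] at h2
    exact h2
  -- lifts
  obtain ⟨lift, hlift⟩ : ∃ g : InfinitePlace F → InfinitePlace L,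
      ∀ v, (g v).comap (algebraMap F L) = v := by
    have := comap_surjective (k := F) (K := L)
    exact ⟨Function.surjInv this, Function.surjInv_eq this⟩
  -- the bijection
  let e0 : InfinitePlace F × Fin (finrank F L) → InfinitePlace L := fun p => (σ ^ (p.2 : ℕ)) • lift p.1
  have hcomap : ∀ (τ : Gal(L/F)) (w : InfinitePlace L),
      (τ • w).comap (algebraMap F L) = w.comap (algebraMap F L) := by
    intro τ w
    rw [comap_smul]
    congr 1
    ext x
    simp
  have hinj : Function.Injective e0 := by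
    rintro ⟨v, j⟩ ⟨v', j'⟩ h
    simp only [e0] at h
    have hv : v = v' := by
      have := congrArg (fun w => InfinitePlace.comap w (algebraMap F L)) h
      simp only [hcomap, hlift] at this
      exact this
    subst hv
    have h1 : ((σ ^ (j' : ℕ))⁻¹ * σ ^ (j : ℕ)) • lift v = lift v := by
      rw [mul_smul, h, inv_smul_smul]
    have h2 := hstab _ _ h1
    have h3 : σ ^ (j : ℕ) = σ ^ (j' : ℕ) := by
      rw [inv_mul_eq_one] at h2
      exact h2.symm
    have h4 : (j : ℕ) = j' := pow_injOn_Iio_orderOf (x := σ) (by simp [hord]) (by simp [hord]) h3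
    rw [Prod.mk.injEq]
    exact ⟨rfl, Fin.ext h4⟩
  have hsurj : Function.Surjective e0 := by
    intro w
    obtain ⟨τ, hτ⟩ := exists_smul_eq_of_comap_eq (k := F) (K := L)
      (w := lift (w.comap (algebraMap F L))) (w' := w) (hlift _)
    have h1 : τ ∈ Submonoid.powers σ := mem_powers_iff_mem_zpowers.mpr (hσ τ)
    rw [mem_powers_iff_mem_range_orderOf, Finset.mem_image] at h1
    obtain ⟨j, hj, hj'⟩ := h1
    rw [Finset.mem_range, hord] at hj
    exact ⟨(w.comap (algebraMap F L), ⟨j, hj⟩), by simp only [e0, hj', hτ]⟩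
  let e : InfinitePlace F × Fin (finrank F L) ≃ InfinitePlace L := Equiv.ofBijective e0 ⟨hinj, hsurj⟩
  have he : ∀ v j, e (v, j) = (σ ^ (j : ℕ)) • lift v := fun v j => rfl
  -- the units
  choose u hu using fun v : InfinitePlace F => exists_unit L (lift v)
  have hsiter : ∀ (k : ℕ) (x : (𝓞 L)ˣ), (((s^[k] x : (𝓞 L)ˣ) : 𝓞 L) : L) = (σ ^ k) ((x : 𝓞 L) : L) := by
    intro k
    induction k with
    | zero => intro x; simp
    | succ k ih =>
      intro x
      rw [Function.iterate_succ_apply', hs, ih, pow_succ', AlgEquiv.mul_apply]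
  have hsn : ∀ x : (𝓞 L)ˣ, s^[finrank F L] x = x := by
    intro x
    apply Units.ext
    apply RingOfIntegers.ext
    rw [hsiter, ← hord, pow_orderOf_eq_one]
    rfl
  let η : InfinitePlace L → (𝓞 L)ˣ := fun w => s^[((e.symm w).2 : ℕ)] (u (e.symm w).1)
  have hηe : ∀ v j, η (e (v, j)) = s^[(j : ℕ)] (u v) := by
    intro v j
    simp only [η, Equiv.symm_apply_apply]
  have hηlog : ∀ w w' : InfinitePlace L, w' ≠ w → Real.log (w' ((η w : 𝓞 L) : L)) < 0 := by
    intro w w' hne
    obtain ⟨⟨v, j⟩, rfl⟩ := e.surjective w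
    rw [hηe, hsiter]
    have h1 : w' ((σ ^ (j : ℕ)) ((u v : 𝓞 L) : L)) = ((σ ^ (j : ℕ))⁻¹ • w') ((u v : 𝓞 L) : L) := by
      rw [InfinitePlace.smul_apply]
      rfl
    rw [h1]
    apply hu
    intro h
    apply hne
    rw [he, ← h, smul_inv_smul]
  have hηs : ∀ w, s (η w) = η (σ • w) := by
    intro w
    obtain ⟨⟨v, j⟩, rfl⟩ := e.surjective w
    rw [hηe, ← Function.iterate_succ_apply' (f := s)]
    by_cases hj : (j : ℕ) + 1 < finrank F L
    · have : σ • e (v, j) = e (v, ⟨(j : ℕ) + 1, hj⟩) := by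
        rw [he, he, ← mul_smul, ← pow_succ']
      rw [this, hηe]
    · have hj' : (j : ℕ) + 1 = finrank F L := by have := j.2; omega
      have : σ • e (v, j) = e (v, ⟨0, hn⟩) := by
        have hσn : σ ^ finrank F L = 1 := by rw [← hord, pow_orderOf_eq_one]
        rw [he, he, ← mul_smul, ← pow_succ', hj', hσn]
        simp
      rw [this, hηe]
      simp only [Nat.succ_eq_add_one, hj', hsn, Function.iterate_zero, id_eq]
  -- the generator
  obtain ⟨c, hcpos, hc⟩ := rel_gen η hηlog
  have hcσ : ∀ w, c (σ⁻¹ • w) = c w := by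
    have h1 : ∏ w, η w ^ c (σ⁻¹ • w) = 1 := by
      have h2 : ∏ w, η w ^ c w = 1 := (hc c).mpr ⟨1, fun w => by rw [one_mul]⟩
      have h3 := congrArg s h2
      rw [map_prod, map_one] at h3
      simp_rw [map_zpow, hηs] at h3
      rw [← h3]
      symm
      apply Fintype.prod_equiv (MulAction.toPerm σ)
      intro w
      simp
    obtain ⟨t, ht⟩ := (hc _).mp h1
    have h4 : ∑ w, c (σ⁻¹ • w) = ∑ w, c w :=
      Fintype.sum_equiv (MulAction.toPerm σ⁻¹) _ _ (fun w => rfl)
    simp_rw [ht] at h4
    rw [← Finset.mul_sum] at h4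
    have h5 : 0 < ∑ w, c w := Finset.sum_pos (fun w _ => hcpos w) ⟨w₀, Finset.mem_univ _⟩
    have h6 : t = 1 := by
      have : (t - 1) * ∑ w, c w = 0 := by linarith
      rcases mul_eq_zero.mp this with h | h
      · omega
      · omega
    intro w
    rw [ht, h6, one_mul]
  have hcpow : ∀ (j : ℕ) (w : InfinitePlace L), c ((σ ^ j) • w) = c w := by
    intro j
    induction j with
    | zero => intro w; simp
    | succ j ih =>
      intro w
      rw [pow_succ', mul_smul, ← hcσ, inv_smul_smul, ih]
  refine ⟨InfinitePlace F, inferInstance, u, fun v => c (lift v), ?_, ?_, ?_⟩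
  · intro h
    obtain ⟨v⟩ : Nonempty (InfinitePlace F) := inferInstance
    have := congrFun h v
    have h2 := hcpos (lift v)
    simp only [Pi.zero_apply] at this
    omega
  · have h1 := finite_index η hηlog
    have hle : Subgroup.closure (Set.range η) ≤
        Subgroup.closure {x : (𝓞 L)ˣ | ∃ v j, x = s^[j] (u v)} := by
      apply Subgroup.closure_mono
      rintro _ ⟨w, rfl⟩
      exact ⟨_, _, rfl⟩
    have : (Subgroup.closure (Set.range η)).FiniteIndex := ⟨h1⟩
    exact (Subgroup.finiteIndex_of_le hle).index_ne_zero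
  · intro d
    let D : InfinitePlace L → ℤ := fun w => d (e.symm w).1 ((e.symm w).2 : ℕ)
    have h1 : ∏ v, ∏ j ∈ Finset.range (finrank F L), (s^[j] (u v)) ^ (d v j) = ∏ w, η w ^ D w := by
      rw [← Equiv.prod_comp e, Fintype.prod_prod_type]
      apply Finset.prod_congr rfl
      intro v _
      rw [Finset.prod_range]
      apply Finset.prod_congr rfl
      intro j _
      rw [hηe]
      simp only [D, Equiv.symm_apply_apply]
    rw [h1, hc]
    apply exists_congr
    intro t
    constructor
    · intro h v j hj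
      have := h (e (v, ⟨j, hj⟩))
      simp only [D, Equiv.symm_apply_apply] at this
      rw [this, he, hcpow]
    · intro h w
      obtain ⟨⟨v, j⟩, rfl⟩ := e.surjective w
      simp only [D, Equiv.symm_apply_apply]
      rw [h v j j.2, he, hcpow]

end Pool.Agent.T2h11.MT.UNI
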