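import Pool.Agent.T2h11.MT.Stm
import Pool.Agent.N184.HK.P_CTS

/-!
# UNP: a quasi-unipotent continuous representation is unipotent on an open subgroup

By helper57. Let `R = 1 + X + ... + X ^ (M - 1)`. The determinant of `R (g σ)` is a continuous
function of `σ`, and at `σ = 1` it is a power of `M`, so it does not vanish on an open subgroup. On
this subgroup `R (g σ)` is invertible, and `0 = ((g σ) ^ M - 1) ^ m = R (g σ) ^ m (g σ - 1) ^ m`.
-/

set_option autoImplicit false

namespace Pool.Agent.T2h11.MT.UNP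

open Module Pool.Agent.W401.Cheb Pool.Agent.N184.HK

theorem t_UNP : S_UNP := by
  intro K V _ ℓ _ _ _ _ g hg h1 M m hM hgm
  have hpow : ∀ j : ℕ, Cts fun σ => g σ ^ j := by
    intro j
    induction j with
    | zero =>
      intro L
      simp only [pow_zero]
      exact continuous_const
    | succ j ih =>
      have := (t_cts ℂ_[ℓ] V (GK K) (fun σ => g σ ^ j) g ih hg).1
      simpa only [pow_succ] using this
  have hsum : Cts fun σ => ∑ j ∈ Finset.range M, g σ ^ j := by
    intro L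
    simp only [map_sum]
    exact continuous_finsetSum _ fun j _ => hpow j L
  have hdet := (t_cts ℂ_[ℓ] V (GK K) (fun σ => ∑ j ∈ Finset.range M, g σ ^ j)
    (fun σ => ∑ j ∈ Finset.range M, g σ ^ j) hsum hsum).2
  have hopen : IsOpen {σ : GK K | LinearMap.det (∑ j ∈ Finset.range M, g σ ^ j) ≠ 0} :=
    isOpen_ne_fun hdet continuous_const
  have hmem : (1 : GK K) ∈ {σ : GK K | LinearMap.det (∑ j ∈ Finset.range M, g σ ^ j) ≠ 0} := by
    rw [Set.mem_ofPred_eq, h1]
    have h2 : (∑ j ∈ Finset.range M, (1 : Module.End ℂ_[ℓ] V) ^ j) =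
        (M : ℂ_[ℓ]) • (1 : Module.End ℂ_[ℓ] V) := by
      simp only [one_pow, Finset.sum_const, Finset.card_range]
      rw [Nat.cast_smul_eq_nsmul]
    rw [h2, LinearMap.det_smul, map_one, mul_one]
    exact pow_ne_zero _ (Nat.cast_ne_zero.2 hM.ne')
  obtain ⟨E, hE, hEs⟩ := (krullTopology_mem_nhds_one_iff K (AlgebraicClosure K) _).1
    (hopen.mem_nhds hmem)
  refine ⟨E.fixingSubgroup, IntermediateField.fixingSubgroup_isOpen E, fun σ hσ => ⟨m, ?_⟩⟩
  have h3 : LinearMap.det (∑ j ∈ Finset.range M, g σ ^ j) ≠ 0 := hEs hσ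
  have h4 : IsUnit (∑ j ∈ Finset.range M, g σ ^ j) := by
    rw [LinearMap.isUnit_iff_isUnit_det]
    exact isUnit_iff_ne_zero.2 h3
  have h5 : (∑ j ∈ Finset.range M, g σ ^ j) * (g σ - 1) = g σ ^ M - 1 := geom_sum_mul (g σ) M
  have hc : Commute (∑ j ∈ Finset.range M, g σ ^ j) (g σ - 1) := by
    refine Commute.sum_left _ _ _ fun j _ => ?_
    exact ((Commute.refl (g σ)).pow_left j).sub_right (Commute.one_right _)
  have h6 := hgm σ
  rw [← h5, hc.mul_pow] at h6
  exact ((h4.pow m).mul_right_eq_zero).1 h6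

end Pool.Agent.T2h11.MT.UNP
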