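import Pool.Agent.T2h11.MT.Stm

set_option autoImplicit false

namespace Pool.Agent.T2h11.MT.UNR

open Module NumberField IsDedekindDomain TensorProduct Topology
open Pool.Agent.W401.Cheb

/-- restriction of scalars is continuous for the Krull topologies -/
theorem cont_restr {K Kb : Type} [Field K] [Field Kb] [Algebra K Kb] [Algebra.IsAlgebraic K Kb]
    (F : IntermediateField K Kb) :
    Continuous (fun σ : Gal(Kb/F) => (AlgEquiv.restrictScalars K σ : Gal(Kb/K))) := by
  let φ : Gal(Kb/F) →* Gal(Kb/K) :=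
    { toFun := fun σ => AlgEquiv.restrictScalars K σ
      map_one' := rfl
      map_mul' := fun _ _ => rfl }
  change Continuous φ
  refine continuous_of_continuousAt_one φ ?_
  rw [ContinuousAt, map_one]
  intro s hs
  rw [krullTopology_mem_nhds_one_iff] at hs
  obtain ⟨E, hE, hs⟩ := hs
  rw [Filter.mem_map, krullTopology_mem_nhds_one_iff]
  obtain ⟨S, hS⟩ : (Subalgebra.toSubmodule E.toSubalgebra).FG :=
    (Submodule.fg_iff_finiteDimensional _).2 hE
  refine ⟨IntermediateField.adjoin F (S : Set Kb), ?_, ?_⟩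
  · have : Finite (S : Set Kb) := S.finite_toSet
    exact IntermediateField.finiteDimensional_adjoin fun x _ =>
      ((Algebra.IsAlgebraic.isAlgebraic (R := K) x).isIntegral).tower_top
  · intro σ hσ
    refine hs ?_
    rw [SetLike.mem_coe, IntermediateField.mem_fixingSubgroup_iff] at hσ ⊢
    intro x hx
    have hx' : x ∈ Submodule.span K (S : Set Kb) := by
      rw [hS]
      exact hx
    have h1 : Set.EqOn (φ σ).toLinearMap (LinearMap.id (R := K) (M := Kb)) (S : Set Kb) := by
      intro y hy
      exact hσ y (IntermediateField.subset_adjoin F (S : Set Kb) hy)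
    exact LinearMap.eqOn_span h1 hx'

theorem t_UNR (h : S_UNF) : S_UNR := by
  intro K _ _ ℓ _ U hU a ha hadd hin
  set Kb := AlgebraicClosure K with hKb
  have hU1 : (U : Set (GK K)) ∈ 𝓝 (1 : GK K) := hU.mem_nhds U.one_mem
  rw [krullTopology_mem_nhds_one_iff] at hU1
  obtain ⟨F₀, hF₀, hF₀U⟩ := hU1
  obtain ⟨i, hi⟩ := IsAlgClosed.exists_pow_nat_eq (-1 : Kb) (n := 2) (by norm_num)
  have hifin : FiniteDimensional K (IntermediateField.adjoin K ({i} : Set Kb)) :=
    IntermediateField.adjoin.finiteDimensional (Algebra.IsIntegral.isIntegral i)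
  set F : IntermediateField K Kb := F₀ ⊔ IntermediateField.adjoin K ({i} : Set Kb) with hF
  have hFfin : FiniteDimensional K F := IntermediateField.finiteDimensional_sup _ _
  have hiF : i ∈ F := (le_sup_right : _ ≤ F) (IntermediateField.mem_adjoin_simple_self K i)
  have hFU : ∀ σ : GK K, σ ∈ F.fixingSubgroup → σ ∈ U := fun σ hσ =>
    hF₀U (IntermediateField.fixingSubgroup_antitone (le_sup_left : F₀ ≤ F) hσ)
  have : CharZero F := charZero_of_injective_algebraMap (algebraMap K F).injective
  have : NumberField F := NumberField.of_module_finite K F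
  have : IsTotallyComplex F := by
    refine ⟨fun v => ?_⟩
    rw [← InfinitePlace.not_isReal_iff_isComplex]
    intro hv
    have h1 : (InfinitePlace.embedding_of_isReal hv ⟨i, hiF⟩) ^ 2 = -1 := by
      rw [← map_pow]
      have h2 : (⟨i, hiF⟩ : F) ^ 2 = -1 := Subtype.ext hi
      rw [h2, map_neg, map_one]
    nlinarith [sq_nonneg (InfinitePlace.embedding_of_isReal hv ⟨i, hiF⟩)]
  have : Algebra.IsAlgebraic F Kb := Algebra.IsAlgebraic.tower_top (K := K) F
  have : IsAlgClosure F Kb := ⟨inferInstance, inferInstance⟩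
  have hmem : ∀ σ : Gal(Kb/F), (AlgEquiv.restrictScalars K σ : GK K) ∈ U := fun σ =>
    hFU _ ((IntermediateField.fixingSubgroupEquiv F).symm σ).2
  have key := h F Kb ℓ (fun σ => a (AlgEquiv.restrictScalars K σ))
    (ha.comp_continuous (cont_restr F) hmem)
    (fun σ τ => hadd _ (hmem σ) _ (hmem τ)) (by
      intro Q hQ σ hσ
      have hint : Algebra.IsIntegral (𝓞 K) (𝓞 Kb) := by
        refine ⟨fun x => ?_⟩
        exact (Algebra.IsIntegral.isIntegral (R := ℤ) x).tower_top
      have hmax : (Q.comap (algebraMap (𝓞 K) (𝓞 Kb))).IsMaximal :=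
        Ideal.isMaximal_comap_of_isIntegral_of_isMaximal Q
      have hne : Q.comap (algebraMap (𝓞 K) (𝓞 Kb)) ≠ ⊥ := by
        intro h0
        rw [h0] at hmax
        exact NumberField.RingOfIntegers.not_isField K (Ring.isField_iff_maximal_bot.2 hmax)
      refine hin ⟨_, hmax.isPrime, hne⟩ _ (hmem σ) ⟨Q, hQ, rfl, fun x => ?_⟩
      exact hσ x)
  intro σ hσ
  have hop : IsOpen (F.fixingSubgroup : Set (GK K)) := IntermediateField.fixingSubgroup_isOpen F
  have : Finite (GK K ⧸ F.fixingSubgroup) := Subgroup.quotient_finite_of_isOpen _ hop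
  have hidx : F.fixingSubgroup.index ≠ 0 := Subgroup.index_ne_zero_of_finite
  obtain ⟨m, hm, -, hmσ⟩ := Subgroup.exists_pow_mem_of_index_ne_zero hidx σ
  have h1 : a 1 = 0 := by
    have := hadd 1 U.one_mem 1 U.one_mem
    rw [mul_one] at this
    simpa using this
  have hpow : ∀ n : ℕ, a (σ ^ n) = n * a σ := by
    intro n
    induction n with
    | zero => simp [h1]
    | succ n ih =>
      rw [pow_succ, hadd _ (U.pow_mem hσ n) _ hσ, ih]
      push_cast
      ring
  have h2 := key (IntermediateField.fixingSubgroupEquiv F ⟨σ ^ m, hmσ⟩)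
  have h3 : (AlgEquiv.restrictScalars K (IntermediateField.fixingSubgroupEquiv F ⟨σ ^ m, hmσ⟩) :
      GK K) = σ ^ m := rfl
  rw [h3, hpow m] at h2
  rcases mul_eq_zero.1 h2 with h4 | h4
  · exact absurd h4 (by exact_mod_cast hm.ne')
  · exact h4

end Pool.Agent.T2h11.MT.UNR
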